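import Pool.Agent.EF97.Core

/-!
# Angle functions on paths

Let the additive group of the reals act on `P` by `μ` with stabilisers consisting of integers, and
let `f : P → ℂ` satisfy `f (μ (a, p)) = exp (2 π i k a) f p`. The function `angTh` on paths is the
variation of the angle of `f` along paths which stay in a half plane not containing `0` and is
`k (φ 1 - φ 0)` on the path `μ (φ, c)` (`c` constant); real numbers are made rational by a
`ℚ`-linear map `ρ : ℝ → ℚ`.
-/

namespace Pool.Agent.EF97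

open Topology unitInterval
open scoped ComplexConjugate Real

noncomputable section

lemma exists_rho : ∃ ρ : ℝ →ₗ[ℚ] ℚ, ρ 1 = 1 := by
  have h : (1 : ℝ) ∉ (⊥ : Submodule ℚ ℝ) := by simp
  obtain ⟨f, hf, -⟩ := Submodule.exists_le_ker_of_notMem h
  refine ⟨(f 1)⁻¹ • f, ?_⟩
  rw [LinearMap.smul_apply, smul_eq_mul, inv_mul_cancel₀ hf]

/-- a continuous integer valued function on the unit interval vanishing at `0` vanishes -/
lemma int_const {m : I → ℝ} (hm : Continuous m) (h : ∀ t, ∃ n : ℤ, m t = n) (h0 : m 0 = 0)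
    (t : I) : m t = 0 := by
  have h1 : IsPreconnected (Set.range m) := isPreconnected_range hm
  by_contra hne
  obtain ⟨n, hn⟩ := h t
  have hn0 : n ≠ 0 := by
    rintro rfl
    apply hne
    rw [hn]; simp
  have h2 : Set.OrdConnected (Set.range m) := h1.ordConnected
  have hmem : (0 : ℝ) ∈ Set.range m := ⟨0, h0⟩
  have hmem' : (n : ℝ) ∈ Set.range m := ⟨t, hn⟩
  rcases lt_or_gt_of_ne hn0 with h3 | h3
  · have h4 : (n : ℝ) ≤ -1 := by
      have : n ≤ -1 := by omega
      exact_mod_cast this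
    have h5 : (-(1/2) : ℝ) ∈ Set.range m := h2.out hmem' hmem ⟨by linarith, by norm_num⟩
    obtain ⟨s, hs⟩ := h5
    obtain ⟨k, hk⟩ := h s
    rw [hs] at hk
    have h6 : (2 * k : ℝ) = -1 := by linarith
    have h7 : 2 * k = -1 := by exact_mod_cast h6
    omega
  · have h4 : (1 : ℝ) ≤ n := by
      have : 1 ≤ n := by omega
      exact_mod_cast this
    have h5 : ((1/2) : ℝ) ∈ Set.range m := h2.out hmem hmem' ⟨by norm_num, by linarith⟩
    obtain ⟨s, hs⟩ := h5
    obtain ⟨k, hk⟩ := h s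
    rw [hs] at hk
    have h6 : (2 * k : ℝ) = 1 := by linarith
    have h7 : 2 * k = 1 := by exact_mod_cast h6
    omega

/-- `exp (2 π i x)` -/
def eu (x : ℝ) : ℂ := Complex.exp (2 * π * x * Complex.I)

lemma continuous_eu : Continuous eu := by unfold eu; fun_prop

lemma eu_zero : eu 0 = 1 := by simp [eu]

lemma eu_add (x y : ℝ) : eu (x + y) = eu x * eu y := by
  rw [eu, eu, eu, ← Complex.exp_add]
  congr 1
  push_cast
  ring

lemma eu_ne_zero (x : ℝ) : eu x ≠ 0 := Complex.exp_ne_zero _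

lemma norm_eu (x : ℝ) : ‖eu x‖ = 1 := by
  rw [eu, show (2 * π * x * Complex.I : ℂ) = ((2 * π * x : ℝ) : ℂ) * Complex.I by push_cast; ring]
  exact Complex.norm_exp_ofReal_mul_I _

lemma eu_int (n : ℤ) : eu n = 1 := by
  rw [eu, Complex.exp_eq_one_iff]
  exact ⟨n, by push_cast; ring⟩

lemma eu_eq_one_iff {x : ℝ} : eu x = 1 ↔ ∃ n : ℤ, x = n := by
  rw [eu, Complex.exp_eq_one_iff]
  constructor
  · rintro ⟨n, hn⟩
    refine ⟨n, ?_⟩
    have h1 : (2 * π * Complex.I : ℂ) ≠ 0 := by
      simp [Real.pi_ne_zero]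
    have h2 : (x : ℂ) = n := by
      apply mul_left_cancel₀ h1
      rw [mul_comm _ (n : ℂ), ← hn]
      ring
    exact_mod_cast h2
  · rintro ⟨n, rfl⟩
    exact ⟨n, by push_cast; ring⟩

lemma eu_re (x : ℝ) : (eu x).re = Real.cos (2 * π * x) := by
  rw [eu, show (2 * π * x * Complex.I : ℂ) = ((2 * π * x : ℝ) : ℂ) * Complex.I by push_cast; ring]
  exact Complex.exp_ofReal_mul_I_re _

lemma conj_eu (x : ℝ) : conj (eu x) = eu (-x) := by
  rw [eu, eu, ← Complex.exp_conj]
  congr 1
  simp only [map_mul, Complex.conj_ofReal, Complex.conj_I, Complex.ofReal_neg, map_ofNat]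
  ring

/-- the angle of a complex number, in turns -/
def tn (z : ℂ) : ℝ := Complex.arg z / (2 * π)

lemma eu_tn (z : ℂ) : (‖z‖ : ℂ) * eu (tn z) = z := by
  have h1 : (2 * π * (tn z : ℝ) * Complex.I : ℂ) = Complex.arg z * Complex.I := by
    rw [tn]
    push_cast
    have : (π : ℂ) ≠ 0 := by exact_mod_cast Real.pi_ne_zero
    field_simp
  rw [eu, h1]
  exact Complex.norm_mul_exp_arg_mul_I z

lemma continuousAt_tn {z : ℂ} (hz : 0 < z.re) : ContinuousAt tn z := by
  unfold tn
  exact (Complex.continuousAt_arg (Or.inl hz)).div_const _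

lemma abs_tn_lt {z : ℂ} (hz : 0 < z.re) : |tn z| < 1 / 4 := by
  have h1 : |Complex.arg z| < π / 2 := by
    rw [Complex.abs_arg_lt_pi_div_two_iff]
    exact Or.inl hz
  rw [tn, abs_div, abs_of_pos (by positivity : (0 : ℝ) < 2 * π), div_lt_iff₀ (by positivity)]
  linarith

/-- the angle of a quotient of two numbers in the same half plane -/
lemma tn_div {z w : ℂ} (hz : 0 < z.re) (hw : 0 < w.re) : tn (z / w) = tn z - tn w := by
  have hz0 : z ≠ 0 := by rintro rfl; simp at hz
  have hw0 : w ≠ 0 := by rintro rfl; simp at hw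
  have h1 := abs_lt.mp (abs_tn_lt hz)
  have h2 := abs_lt.mp (abs_tn_lt hw)
  have h3 : Complex.arg z = 2 * π * tn z := by rw [tn]; field_simp
  have h4 : Complex.arg w = 2 * π * tn w := by rw [tn]; field_simp
  have h5 : Complex.arg (z / w) = Complex.arg z - Complex.arg w := by
    rw [← Complex.arg_coe_angle_toReal_eq_arg, Complex.arg_div_coe_angle hz0 hw0,
      ← Real.Angle.coe_sub, Real.Angle.toReal_coe_eq_self_iff_mem_Ioc, h3, h4]
    constructor
    · nlinarith [Real.pi_pos]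
    · nlinarith [Real.pi_pos]
  rw [tn, h5, sub_div]
  rfl

/-! ## The angle function -/

section Ang

variable {P : Type*} [TopologicalSpace P]

/-- an action of the reals all of whose stabilisers consist of integers -/
structure RAct (μ : C(ℝ × P, P)) : Prop where
  zero : ∀ p, μ (0, p) = p
  add : ∀ a b p, μ (a, μ (b, p)) = μ (a + b, p)
  free : ∀ a p, μ (a, p) = p → ∃ n : ℤ, a = n

/-- the path `μ (φ, c)` -/
def gp (μ : C(ℝ × P, P)) (φ : C(I, ℝ)) (c : P) : C(I, P) :=
  μ.comp (φ.prodMk (ContinuousMap.const I c))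

@[simp] lemma gp_apply (μ : C(ℝ × P, P)) (φ : C(I, ℝ)) (c : P) (t : I) :
    gp μ φ c t = μ (φ t, c) := rfl

/-- the path `μ (a, p)` -/
def tr (μ : C(ℝ × P, P)) (a : ℝ) (p : C(I, P)) : C(I, P) :=
  μ.comp ((ContinuousMap.const I a).prodMk p)

@[simp] lemma tr_apply (μ : C(ℝ × P, P)) (a : ℝ) (p : C(I, P)) (t : I) :
    tr μ a p t = μ (a, p t) := rfl

variable {μ : C(ℝ × P, P)}

lemma RAct.gp_unique (hμ : RAct μ) {φ φ' : C(I, ℝ)} {c c' : P} (h : gp μ φ c = gp μ φ' c') :
    φ 1 - φ 0 = φ' 1 - φ' 0 := by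
  have h1 : ∀ t, μ (φ t, c) = μ (φ' t, c') := fun t => congrArg (fun q => q t) h
  have hc : c' = μ (φ 0 - φ' 0, c) := by
    have h2 := congrArg (fun q => μ (-(φ' 0), q)) (h1 0)
    simp only [hμ.add] at h2
    rw [neg_add_cancel, hμ.zero] at h2
    rw [← h2]
    congr 2
    ring
  have h3 : ∀ t, ∃ n : ℤ, φ t - φ' t - (φ 0 - φ' 0) = n := by
    intro t
    apply hμ.free _ c
    have h4 := congrArg (fun q => μ (-(φ' t) - (φ 0 - φ' 0), q)) (h1 t)
    rw [hc] at h4
    simp only [hμ.add] at h4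
    rw [show -(φ' t) - (φ 0 - φ' 0) + (φ' t + (φ 0 - φ' 0)) = 0 by ring, hμ.zero] at h4
    rw [← h4]
    congr 2
    ring
  have h5 := int_const (m := fun t => φ t - φ' t - (φ 0 - φ' 0)) (by fun_prop) h3 (by ring) 1
  linarith

open Classical in
/-- the angle function on paths -/
def angFn (ρ : ℝ →ₗ[ℚ] ℚ) (μ : C(ℝ × P, P)) (k : ℤ) (f : P → ℂ) (p : C(I, P)) : ℚ :=
  if h : ∃ y : C(I, ℝ) × P, p = gp μ y.1 y.2 then ρ (k * (h.choose.1 1 - h.choose.1 0))
  else if ∃ u : ℂ, ∀ t, 0 < (f (p t) * u).re then ρ (tn (f (p 1) / f (p 0))) else 0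

lemma angFn_gp (ρ : ℝ →ₗ[ℚ] ℚ) (hμ : RAct μ) (k : ℤ) (f : P → ℂ) (φ : C(I, ℝ)) (c : P) :
    angFn ρ μ k f (gp μ φ c) = ρ (k * (φ 1 - φ 0)) := by
  have h : ∃ y : C(I, ℝ) × P, gp μ φ c = gp μ y.1 y.2 := ⟨(φ, c), rfl⟩
  rw [angFn, dif_pos h, hμ.gp_unique h.choose_spec]

/-- the angle function on paths -/
def angTh (ρ : ℝ →ₗ[ℚ] ℚ) (hμ : RAct μ) (k : ℤ) (f : P → ℂ) : Th P where
  fn := angFn ρ μ k f
  const c := by
    have h : ContinuousMap.const I c = gp μ (ContinuousMap.const I 0) c := by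
      ext1 t
      simp [hμ.zero]
    rw [h, angFn_gp ρ hμ]
    simp

variable {ρ : ℝ →ₗ[ℚ] ℚ} {hμ : RAct μ} {k : ℤ} {f : P → ℂ}

lemma angTh_fn (p : C(I, P)) : (angTh ρ hμ k f).fn p = angFn ρ μ k f p := rfl

lemma RAct.of_circ (h : CircAct μ) (hfree : ∀ a p, μ (a, p) = p → ∃ n : ℤ, a = n) : RAct μ :=
  ⟨h.zero, fun a b p => (h.add a b p).symm, hfree⟩

theorem angTh_compat (hf : ∀ a p, f (μ (a, p)) = eu (k * a) * f p) :
    Compat μ (dTh fun a => ρ (k * a)) (angTh ρ hμ k f) (angTh ρ hμ k f) where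
  left φ p := by
    have h := angFn_gp ρ hμ k f φ p
    rw [mul_sub, map_sub] at h
    exact h
  right a p := by
    change angFn ρ μ k f (tr μ a p) = angFn ρ μ k f p
    by_cases h : ∃ y : C(I, ℝ) × P, p = gp μ y.1 y.2
    · obtain ⟨⟨φ, c⟩, rfl⟩ := h
      have h1 : tr μ a (gp μ φ c) = gp μ (ContinuousMap.const I a + φ) c := by
        ext1 t
        simp [hμ.add]
      rw [h1, angFn_gp ρ hμ, angFn_gp ρ hμ]
      congr 2
      simp
    · have h' : ¬ ∃ y : C(I, ℝ) × P, tr μ a p = gp μ y.1 y.2 := by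
        rintro ⟨⟨φ, c⟩, h2⟩
        apply h
        refine ⟨(ContinuousMap.const I (-a) + φ, c), ?_⟩
        ext1 t
        have h3 : μ (a, p t) = μ (φ t, c) := congrArg (fun q => q t) h2
        have h4 := congrArg (fun q => μ (-a, q)) h3
        simp only [hμ.add] at h4
        rw [neg_add_cancel, hμ.zero] at h4
        simpa using h4
      have he : eu (k * a) ≠ 0 := eu_ne_zero _
      have hiff : (∃ u : ℂ, ∀ t, 0 < (f (tr μ a p t) * u).re) ↔
          ∃ u : ℂ, ∀ t, 0 < (f (p t) * u).re := by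
        simp only [tr_apply, hf]
        constructor
        · rintro ⟨u, hu⟩
          refine ⟨eu (k * a) * u, fun t => ?_⟩
          have := hu t
          rwa [show f (p t) * (eu (k * a) * u) = eu (k * a) * f (p t) * u by ring]
        · rintro ⟨u, hu⟩
          refine ⟨(eu (k * a))⁻¹ * u, fun t => ?_⟩
          have := hu t
          rwa [show eu (k * a) * f (p t) * ((eu (k * a))⁻¹ * u) = f (p t) * u by
            field_simp]
      rw [angFn, dif_neg h', angFn, dif_neg h]
      by_cases h5 : ∃ u : ℂ, ∀ t, 0 < (f (p t) * u).re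
      · rw [if_pos h5, if_pos (hiff.mpr h5), tr_apply, tr_apply, hf, hf,
          mul_div_mul_left _ _ he]
      · rw [if_neg h5, if_neg (fun h6 => h5 (hiff.mp h6))]

/-- the angle function of a function of nonzero weight -/
theorem angTh_weighted (hρ : ρ 1 = 1) (hk : k ≠ 0)
    (hf : ∀ a p, f (μ (a, p)) = eu (k * a) * f p) : Weighted μ (angTh ρ hμ k f) := by
  refine ⟨fun a => ρ (k * a), ?_, angTh_compat hf⟩
  have h1 : ρ (k * 1) = k := by
    have : ((k : ℝ) * 1) = (k : ℚ) • (1 : ℝ) := by simp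
    rw [this, map_smul, hρ]
    simp
  simp only [h1, mul_zero, map_zero, sub_zero]
  exact_mod_cast hk

/-- the angle function is closed on half planes -/
theorem angTh_closed (hfc : Continuous f) (hf : ∀ a p, f (μ (a, p)) = eu (k * a) * f p) (u : ℂ) :
    ClosedOn (angTh ρ hμ k f) {p | 0 < (f p * conj u).re} := by
  generalize conj u = u
  refine ⟨fun p => ρ (tn (f p * u)), fun p hp => ?_⟩
  change angFn ρ μ k f p = _
  simp only [Set.mem_ofPred_eq] at hp
  have hu0 : u ≠ 0 := by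
    rintro rfl
    have := hp 0
    simp at this
  by_cases h : ∃ y : C(I, ℝ) × P, p = gp μ y.1 y.2
  · obtain ⟨⟨φ, c⟩, rfl⟩ := h
    rw [angFn_gp ρ hμ, ← map_sub ρ]
    congr 1
    simp only [gp_apply] at hp ⊢
    have hcont : Continuous fun t => tn (f (μ (φ t, c)) * u) := by
      rw [continuous_iff_continuousAt]
      intro t
      have h1 : ContinuousAt (fun t => f (μ (φ t, c)) * u) t := by
        apply Continuous.continuousAt
        fun_prop
      exact ContinuousAt.comp (g := tn) (f := fun t => f (μ (φ t, c)) * u)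
        (continuousAt_tn (hp t)) h1
    have hint : ∀ t, ∃ n : ℤ, (tn (f (μ (φ t, c)) * u) - tn (f (μ (φ 0, c)) * u)) -
        k * (φ t - φ 0) = n := by
      intro t
      rw [← tn_div (hp t) (hp 0)]
      apply eu_eq_one_iff.mp
      have h0 : f (μ (φ 0, c)) * u ≠ 0 := by
        intro h0
        have := hp 0
        rw [h0] at this
        simp at this
      have h1 : f (μ (φ t, c)) = eu (k * (φ t - φ 0)) * f (μ (φ 0, c)) := by
        rw [← hf, hμ.add]
        congr 3
        ring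
      have h2 : f (μ (φ t, c)) * u / (f (μ (φ 0, c)) * u) = eu (k * (φ t - φ 0)) := by
        rw [h1, mul_assoc, mul_div_assoc, div_self h0, mul_one]
      rw [h2]
      have h3 := eu_tn (eu (k * (φ t - φ 0)))
      rw [norm_eu, Complex.ofReal_one, one_mul] at h3
      rw [sub_eq_add_neg, eu_add, h3, ← eu_add, add_neg_cancel, eu_zero]
    have h4 := int_const (by fun_prop) hint (by ring) 1
    linarith
  · have hex : ∃ u : ℂ, ∀ t, 0 < (f (p t) * u).re := ⟨u, hp⟩
    rw [angFn, dif_neg h, if_pos hex, ← map_sub ρ, ← tn_div (hp 1) (hp 0),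
      mul_div_mul_right _ _ hu0]

/-! ## Invariant functions -/

open Classical in
/-- the angle function on paths of an invariant function -/
def etaTh (ρ : ℝ →ₗ[ℚ] ℚ) (f : P → ℂ) : Th P where
  fn p := if ∃ u : ℂ, ∀ t, 0 < (f (p t) * u).re then ρ (tn (f (p 1) / f (p 0))) else 0
  const c := by
    split_ifs with h
    · obtain ⟨u, hu⟩ := h
      have h0 : f c ≠ 0 := by
        intro h0
        have := hu 0
        rw [ContinuousMap.const_apply, h0] at this
        simp at this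
      rw [ContinuousMap.const_apply, ContinuousMap.const_apply, div_self h0]
      simp [tn]
    · rfl

lemma etaTh_fn (p : C(I, P)) {u : ℂ} (h : ∀ t, 0 < (f (p t) * u).re) :
    (etaTh ρ f).fn p = ρ (tn (f (p 1) / f (p 0))) := if_pos ⟨u, h⟩

lemma etaTh_congr {p q : C(I, P)} (h : ∀ t, f (p t) = f (q t)) :
    (etaTh ρ f).fn p = (etaTh ρ f).fn q := by
  have h1 : (∃ u : ℂ, ∀ t, 0 < (f (p t) * u).re) ↔ ∃ u : ℂ, ∀ t, 0 < (f (q t) * u).re := by
    simp only [h]
  simp only [etaTh, h]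
  by_cases h2 : ∃ u : ℂ, ∀ t, 0 < (f (q t) * u).re
  · rw [if_pos h2, if_pos (h1.mpr h2)]
  · rw [if_neg h2, if_neg (fun h3 => h2 (h1.mp h3))]

theorem etaTh_unweighted (hf : ∀ a p, f (μ (a, p)) = f p) : Unweighted μ (etaTh ρ f) where
  left φ p := by
    have h : (etaTh ρ f).fn (μ.comp (φ.prodMk (ContinuousMap.const I p))) =
        (etaTh ρ f).fn (ContinuousMap.const I p) := etaTh_congr fun t => hf _ _
    rw [h, (etaTh ρ f).const]
    simp [dTh]
  right a p := etaTh_congr fun t => hf _ _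

theorem etaTh_closed (u : ℂ) : ClosedOn (etaTh ρ f) {p | 0 < (f p * conj u).re} := by
  generalize conj u = u
  refine ⟨fun p => ρ (tn (f p * u)), fun p hp => ?_⟩
  simp only [Set.mem_ofPred_eq] at hp
  have hu0 : u ≠ 0 := by
    rintro rfl
    have := hp 0
    simp at this
  rw [etaTh_fn p hp, ← map_sub ρ, ← tn_div (hp 1) (hp 0), mul_div_mul_right _ _ hu0]

lemma tn_eu {x : ℝ} (h : |x| < 1 / 2) : tn (eu x) = x := by
  rw [tn, eu, show (2 * π * x * Complex.I : ℂ) = ((2 * π * x : ℝ) : ℂ) * Complex.I by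
    push_cast; ring, Complex.arg_exp_mul_I, toIocMod_eq_self Real.two_pi_pos |>.mpr]
  · field_simp
  · rw [abs_lt] at h
    constructor
    · nlinarith [Real.pi_pos]
    · nlinarith [Real.pi_pos]

lemma half_plane {w : ℂ} (hw : w ≠ 0) {x : ℝ} (h : |x| < 1 / 4) :
    0 < (w * eu x * conj w).re := by
  have h1 : w * eu x * conj w = ((‖w‖ ^ 2 : ℝ) : ℂ) * eu x := by
    rw [mul_right_comm, Complex.mul_conj, Complex.normSq_eq_norm_sq]
  rw [h1, Complex.re_ofReal_mul, eu_re]
  apply mul_pos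
  · have := norm_pos_iff.mpr hw
    positivity
  · apply Real.cos_pos_of_mem_Ioo
    rw [abs_lt] at h
    constructor
    · nlinarith [Real.pi_pos]
    · nlinarith [Real.pi_pos]

/-- the value of the angle function on a short path -/
theorem etaTh_value (p : C(I, P)) {w : ℂ} (hw : w ≠ 0) (g : I → ℝ)
    (hg : ∀ t, f (p t) = w * eu (g t)) (hs : ∀ t, |g t - g 0| < 1 / 4) :
    (etaTh ρ f).fn p = ρ (g 1 - g 0) := by
  have h1 : ∀ t, f (p t) = w * eu (g 0) * eu (g t - g 0) := by
    intro t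
    rw [hg, mul_assoc, ← eu_add]
    congr 2
    ring
  have hw' : w * eu (g 0) ≠ 0 := mul_ne_zero hw (eu_ne_zero _)
  rw [etaTh_fn p (u := conj (w * eu (g 0))) (fun t => by rw [h1]; exact half_plane hw' (hs t)),
    h1 1, h1 0, sub_self, eu_zero, mul_one, mul_div_cancel_left₀ _ hw',
    tn_eu ((hs 1).trans (by norm_num))]

lemma etaTh_value_const (p : C(I, P)) (hp : ∀ t, f (p t) = f (p 0)) :
    (etaTh ρ f).fn p = 0 := by
  have h : (etaTh ρ f).fn p = (etaTh ρ f).fn (ContinuousMap.const I (p 0)) := etaTh_congr hp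
  rw [h, (etaTh ρ f).const]

end Ang

/-- the four half planes cover the nonzero complex numbers -/
lemma exists_quarter {z : ℂ} (hz : z ≠ 0) :
    ∃ u ∈ ({1, Complex.I, -1, -Complex.I} : Set ℂ), 0 < (z * conj u).re := by
  by_cases h1 : z.re = 0
  · have h2 : z.im ≠ 0 := fun h => hz (Complex.ext h1 h)
    rcases lt_or_gt_of_ne h2 with h3 | h3
    · exact ⟨-Complex.I, by simp, by simp; exact h3⟩
    · exact ⟨Complex.I, by simp, by simp; exact h3⟩
  · rcases lt_or_gt_of_ne h1 with h3 | h3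
    · exact ⟨-1, by simp, by simp; exact h3⟩
    · exact ⟨1, by simp, by simp; exact h3⟩

end

end Pool.Agent.EF97
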