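import Pool.Agent.EF97.Tower

/-!
# The formal part of the argument
-/

namespace Pool.Agent.EF97

open Topology unitInterval
open Finset.HasAntidiagonal (antidiagonal)

noncomputable section

variable {d d' : Bool} {Y Z P R B : Type*} [TopologicalSpace Y] [TopologicalSpace Z]
  [TopologicalSpace P] [TopologicalSpace R] [TopologicalSpace B]

/-- a tower over the sequence `N` -/
structure Tower (μ : C(ℝ × P, P)) (N : ℕ → Cu ℝ) (e L : ℕ) (W : ℕ → Chd d P) : Prop where
  deg : ∀ n ≤ L, W n ∈ hom P (2 * n + e)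
  bd0 : bd (W 0) = 0
  bdS : ∀ m < L, bd (W (m + 1)) = ∑ p ∈ antidiagonal m, mul μ (N p.1) (W p.2)

/-- actions of the circle, as actions of `ℝ` -/
structure CircAct (μ : C(ℝ × P, P)) : Prop where
  add : ∀ a b p, μ (a + b, p) = μ (a, μ (b, p))
  zero : ∀ p, μ (0, p) = p
  one : ∀ p, μ (1, p) = p

lemma push_of_id {g : C(P, P)} (h : ∀ p, g p = p) (x : Chd d P) : push g x = x := by
  have : (push g : Chd d P →ₗ[ℚ] Chd d P) = LinearMap.id := by
    apply hom_ext
    intro u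
    rw [push_cb, LinearMap.id_apply]
    congr 1
    ext1
    · rfl
    · ext1 s; simp [h]
  rw [this]; rfl

lemma CircAct.mul_zz {μ : C(ℝ × P, P)} (h : CircAct μ) (x : Chd d P) : mul μ zz x = 0 := by
  rw [zz, map_sub, LinearMap.sub_apply, mul_pt, mul_pt, push_of_id (fun p => h.one p),
    push_of_id (fun p => h.zero p), sub_self]

theorem exists_tower {μ : C(ℝ × P, P)} (hμ : CircAct μ) {π : C(P, B)}
    (hπ : ∀ a p, π (μ (a, p)) = π p)
    (inj : ∀ n : ℕ, 2 ≤ n → ∀ z : Ch P, z ∈ hom P n → bd z = 0 → push π z = 0 →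
      ∃ w ∈ hom P (n + 1), bd w = z)
    {κ : Ch P} (hκ : κ ∈ hom P 3) (hbκ : bd κ = 0) (L : ℕ) :
    ∃ W : ℕ → Ch P, Tower μ NN 3 L W ∧ W 0 = κ := by
  induction L with
  | zero =>
    refine ⟨fun _ => κ, ⟨fun n hn => ?_, hbκ, fun m hm => by omega⟩, rfl⟩
    obtain rfl : n = 0 := by omega
    exact hκ
  | succ L ih =>
    obtain ⟨W, hW, hW0⟩ := ih
    set z : Ch P := ∑ p ∈ antidiagonal L, mul μ (NN p.1) (W p.2) with hz
    have hzh : z ∈ hom P (2 * L + 4) := by
      apply Submodule.sum_mem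
      intro p hp
      have hp' : p.1 + p.2 = L := by simpa using hp
      have := mul_mem_hom μ (NN_hom p.1) (hW.deg p.2 (by omega))
      have h2 : 2 * p.1 + 1 + (2 * p.2 + 3) = 2 * L + 4 := by omega
      rwa [h2] at this
    have hzb : bd z = 0 := by
      apply bd_sum_mul (fun a b p => hμ.add a b p)
      · rw [bd_NN_zero, hμ.mul_zz, hW.bd0, map_zero]
      · exact fun n _ => bd_NN_succ n
      · exact fun n hn => hW.bdS n hn
      · exact fun n _ => sg_NN n
    have hzp : push π z = 0 := by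
      rw [hz, map_sum]
      apply Finset.sum_eq_zero
      intro p _
      exact push_mul_eq_zero μ π (fun a b p => by rw [hπ, hπ]) (NN_hom _) (NN_tot _) _
    obtain ⟨w, hw, hwz⟩ := inj (2 * L + 4) (by omega) z hzh hzb hzp
    refine ⟨Function.update W (L + 1) w, ⟨?_, ?_, ?_⟩, ?_⟩
    · intro n hn
      rcases eq_or_ne n (L + 1) with rfl | hne
      · rw [Function.update_self]
        exact hw
      · rw [Function.update_of_ne hne]
        exact hW.deg n (by omega)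
    · rw [Function.update_of_ne (by omega)]
      exact hW.bd0
    · intro m hm
      have hsum : ∑ p ∈ antidiagonal m, mul μ (NN p.1) (Function.update W (L + 1) w p.2) =
          ∑ p ∈ antidiagonal m, mul μ (NN p.1) (W p.2) := by
        apply Finset.sum_congr rfl
        intro p hp
        have hp' : p.1 + p.2 = m := by simpa using hp
        rw [Function.update_of_ne (by omega)]
      rw [hsum]
      rcases eq_or_ne m L with rfl | hne
      · rw [Function.update_self]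
        exact hwz
      · rw [Function.update_of_ne (by omega)]
        exact hW.bdS m (by omega)
    · rw [Function.update_of_ne (by omega)]
      exact hW0

/-! ## The even operators -/

theorem Tower.DD_step {μ : C(ℝ × P, P)} {N : ℕ → Cu ℝ} {L : ℕ} {W : ℕ → Chd d P}
    (h : Tower μ N 0 (L + 1) W) {θ : Th P} {θR : Th ℝ} (hc : Compat μ θR θ θ)
    (hR : ClosedOn θR Set.univ) : Tower μ N 0 L (fun n => DD θ (W (n + 1))) := by
  have hR0 : ∀ x : Cu ℝ, DD θR x = 0 := by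
    intro x
    apply DD_closed hR
    revert x
    apply cb_mem_induction
    intro u
    exact cb_mem_on fun s => trivial
  have hmul : ∀ (x : Cu ℝ) (y : Chd d P), DD θ (mul μ x y) = mul μ x (DD θ y) := by
    intro x y
    rw [DD_mul hc, hR0, map_zero, LinearMap.zero_apply, zero_add]
  have h0 : DD θ (W 0) = 0 := DD_hom_zero θ (by simpa using h.deg 0 (by omega))
  refine ⟨?_, ?_, ?_⟩
  · intro n hn
    apply DD_mem_hom
    exact h.deg (n + 1) (by omega)
  · change bd (DD θ (W (0 + 1))) = 0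
    rw [bd_DD, h.bdS 0 (by omega)]
    simp only [Finset.Nat.antidiagonal_zero, Finset.sum_singleton]
    rw [hmul, h0, map_zero]
  · intro m hm
    change bd (DD θ (W (m + 1 + 1))) = _
    rw [bd_DD, h.bdS (m + 1) (by omega), map_sum, Finset.Nat.sum_antidiagonal_succ', hmul, h0,
      map_zero, zero_add]
    apply Finset.sum_congr rfl
    intro p _
    exact hmul _ _

lemma aug_AA_dTh (ψ : ℝ → ℚ) {x : Cu ℝ} (hx : bd x = zz) : aug (AA (dTh ψ) x) = ψ 1 - ψ 0 := by
  rw [AA_dTh, map_sub, aug_bd, hx, zz, map_sub, MMp_cb, MMp_cb, map_sub, map_smul, map_smul, aug_cb,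
    aug_cb]
  simp

theorem Tower.aug_step {μ : C(ℝ × P, P)} {N : ℕ → Cu ℝ} {L : ℕ} {W : ℕ → Chd d P}
    (h : Tower μ N 0 (L + 1) W) {θ : Th P} {ψ : ℝ → ℚ} (hc : Compat μ (dTh ψ) θ θ)
    (hN : bd (N 0) = zz) : aug (DD θ (W 1)) = (ψ 1 - ψ 0) * aug (W 0) := by
  have h1 : bd (W 1) = mul μ (N 0) (W 0) := by
    have := h.bdS 0 (by omega)
    simpa using this
  rw [DD_apply, map_add, aug_bd, zero_add, h1, AA_mul hc,
    AA_hom_zero θ (by simpa using h.deg 0 (by omega)), map_zero, add_zero, aug_mul,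
    aug_AA_dTh ψ hN]

/-- composition of the operators `D_θ` -/
def DL : List (Th P) → (Chd d P →ₗ[ℚ] Chd d P)
  | [] => LinearMap.id
  | θ :: l => DL l ∘ₗ DD θ

lemma DL_zero {V : Set P} (l : List (Th P)) (h : ∃ θ ∈ l, ClosedOn θ V) {x : Chd d P}
    (hx : x ∈ on V) : DL l x = 0 := by
  induction l generalizing x with
  | nil => simp at h
  | cons θ l ih =>
    change DL l (DD θ x) = 0
    by_cases hθ : ClosedOn θ V
    · rw [DD_closed hθ hx, map_zero]
    · apply ih _ (DD_mem_on θ hx)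
      obtain ⟨θ', hθ', hc⟩ := h
      rcases List.mem_cons.mp hθ' with rfl | hmem
      · exact absurd hc hθ
      · exact ⟨θ', hmem, hc⟩

/-- path functions with a nonzero weight -/
def Weighted (μ : C(ℝ × P, P)) (θ : Th P) : Prop :=
  ∃ ψ : ℝ → ℚ, ψ 1 - ψ 0 ≠ 0 ∧ Compat μ (dTh ψ) θ θ

theorem Tower.aug_DL {μ : C(ℝ × P, P)} {N : ℕ → Cu ℝ} (hN : bd (N 0) = zz) (l : List (Th P))
    (hl : ∀ θ ∈ l, Weighted μ θ) {W : ℕ → Chd d P} (h : Tower μ N 0 l.length W)
    (h0 : aug (W 0) ≠ 0) : aug (DL l (W l.length)) ≠ 0 := by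
  induction l generalizing W with
  | nil => exact h0
  | cons θ l ih =>
    obtain ⟨ψ, hψ, hc⟩ := hl θ (by simp)
    have h1 : Tower μ N 0 l.length (fun n => DD θ (W (n + 1))) :=
      Tower.DD_step h hc ⟨ψ, fun p _ => rfl⟩
    have h2 : aug (DD θ (W 1)) ≠ 0 := by
      rw [Tower.aug_step h hc hN]
      exact mul_ne_zero hψ h0
    exact ih (fun θ' hθ' => hl θ' (by simp [hθ'])) h1 h2

/-! ## The odd operators -/

/-- the composite odd operator -/
def BB (r : P → ℚ) (η₀ η₁ : Th P) : Chd d P →ₗ[ℚ] Chd d P := AA η₁ ∘ₗ AA η₀ ∘ₗ AA (dTh r)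

lemma BB_apply (r : P → ℚ) (η₀ η₁ : Th P) (x : Chd d P) :
    BB r η₀ η₁ x = AA η₁ (AA η₀ (AA (dTh r) x)) := rfl

lemma AA_dTh_zero (x : Chd d P) : AA (dTh (fun _ : P => (0 : ℚ))) x = 0 := by
  have : (AA (dTh (fun _ : P => (0 : ℚ))) : Chd d P →ₗ[ℚ] Chd d P) = 0 := by
    apply hom_ext
    intro u
    rw [AA_cb]
    apply Finset.sum_eq_zero
    intro i _
    simp [dTh]
  rw [this]; rfl

/-- path functions of weight zero -/
def Unweighted (μ : C(ℝ × P, P)) (θ : Th P) : Prop := Compat μ (dTh fun _ => 0) θ θ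

lemma Unweighted.AA_mul {μ : C(ℝ × P, P)} {θ : Th P} (h : Unweighted μ θ) (x : Cu ℝ)
    (y : Chd d P) : AA θ (mul μ x y) = mul μ (sg x) (AA θ y) := by
  rw [EF97.AA_mul h, AA_dTh_zero, map_zero, LinearMap.zero_apply, zero_add]

lemma unweighted_dTh {μ : C(ℝ × P, P)} {r : P → ℚ} (hr : ∀ a p, r (μ (a, p)) = r p) :
    Unweighted μ (dTh r) := by
  refine ⟨fun φ p => ?_, fun a p => ?_⟩
  · simp [dTh, hr]
  · simp [dTh, hr]

theorem Tower.BB_step {μ : C(ℝ × P, P)} {N : ℕ → Cu ℝ} {L : ℕ} {W : ℕ → Chd d P}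
    (h : Tower μ N 3 L W) {r : P → ℚ} {η₀ η₁ : Th P} (hr : ∀ a p, r (μ (a, p)) = r p)
    (h0 : Unweighted μ η₀) (h1 : Unweighted μ η₁) (hN : ∀ n, sg (N n) = - N n)
    {S : Submodule ℚ (Chd d P)} (hS : ∀ n ≤ L, AA (dTh r) (W n) ∈ S)
    (hS0 : ∀ y ∈ S, DD η₀ y = 0) (hS1 : ∀ y ∈ S, DD η₁ (AA η₀ y) = 0) :
    Tower μ N 0 L (fun n => BB r η₀ η₁ (W n)) := by
  have hbd : ∀ n ≤ L, bd (BB r η₀ η₁ (W n)) = - BB r η₀ η₁ (bd (W n)) := by
    intro n hn
    have e1 : bd (AA (dTh r) (W n)) = - AA (dTh r) (bd (W n)) := by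
      have : DD (dTh r) (W n) = 0 := by
        apply DD_closed (V := Set.univ) ⟨r, fun p _ => rfl⟩
        have : ∀ x : Chd d P, x ∈ on Set.univ := by
          apply cb_mem_induction
          intro u
          exact cb_mem_on fun s => trivial
        exact this _
      rw [DD_apply] at this
      exact eq_neg_of_add_eq_zero_left this
    have e2 := hS0 _ (hS n hn)
    have e3 := hS1 _ (hS n hn)
    rw [DD_apply] at e2 e3
    rw [BB_apply, BB_apply, eq_neg_of_add_eq_zero_left e3, eq_neg_of_add_eq_zero_left e2, e1]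
    simp
  have hmul : ∀ (n : ℕ) (y : Chd d P), BB r η₀ η₁ (mul μ (N n) y) =
      - mul μ (N n) (BB r η₀ η₁ y) := by
    intro n y
    rw [BB_apply, (unweighted_dTh hr).AA_mul, h0.AA_mul, h1.AA_mul, sg_sg, hN, map_neg,
      LinearMap.neg_apply, BB_apply]
  refine ⟨?_, ?_, ?_⟩
  · intro n hn
    exact AA_mem_hom _ (AA_mem_hom _ (AA_mem_hom _ (h.deg n hn)))
  · change bd (BB r η₀ η₁ (W 0)) = 0
    rw [hbd 0 (by omega), h.bd0, map_zero, neg_zero]
  · intro m hm
    change bd (BB r η₀ η₁ (W (m + 1))) = _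
    rw [hbd (m + 1) (by omega), h.bdS m hm, map_sum, ← Finset.sum_neg_distrib]
    apply Finset.sum_congr rfl
    intro p _
    rw [hmul, neg_neg]

/-! ## The final contradiction -/

theorem tower_vanish {μ : C(ℝ × P, P)} {N : ℕ → Cu ℝ} {W : ℕ → Chd d P}
    (l : List (Th P)) (h : Tower μ N 3 l.length W) (hl : ∀ θ ∈ l, Weighted μ θ)
    {r : P → ℚ} {η₀ η₁ : Th P} (hr : ∀ a p, r (μ (a, p)) = r p)
    (h0 : Unweighted μ η₀) (h1 : Unweighted μ η₁) (hN : ∀ n, sg (N n) = - N n)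
    (hN0 : bd (N 0) = zz) {ι : Type*} {V : ι → Set P}
    (hV : ∀ i, (∀ p ∈ V i, ∀ q ∈ V i, r p = r q) ∨
      (ClosedOn η₀ (V i) ∧ ClosedOn η₁ (V i) ∧ ∃ θ ∈ l, ClosedOn θ (V i)))
    (hW : ∀ n ≤ l.length, W n ∈ ⨆ i, on (V i)) :
    aug (BB r η₀ η₁ (W 0)) = 0 := by
  by_contra hne
  -- the good part of the cover
  set S : Submodule ℚ (Chd d P) := ⨆ i : {i : ι // ClosedOn η₀ (V i) ∧ ClosedOn η₁ (V i) ∧
    ∃ θ ∈ l, ClosedOn θ (V i)}, on (V i.1) with hSdef
  have hS : ∀ x : Chd d P, x ∈ (⨆ i, on (V i) : Submodule ℚ (Chd d P)) → AA (dTh r) x ∈ S := by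
    intro x hx
    have : (⨆ i, on (V i) : Submodule ℚ (Chd d P)) ≤ S.comap (AA (dTh r)) := by
      apply iSup_le
      intro i x hx
      rw [Submodule.mem_comap]
      rcases hV i with hi | hi
      · rw [AA_const_zero (V := V i) _ hx]
        · exact S.zero_mem
        · intro p hp
          simp only [dTh]
          rw [hi _ (hp 1) _ (hp 0), sub_self]
      · exact Submodule.mem_iSup_of_mem ⟨i, hi⟩ (AA_mem_on _ hx)
    exact this hx
  have hS0 : ∀ y ∈ S, DD η₀ y = 0 := by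
    intro y hy
    have : S ≤ LinearMap.ker (DD η₀) := iSup_le fun i x hx => DD_closed i.2.1 hx
    exact this hy
  have hS1 : ∀ y ∈ S, DD η₁ (AA η₀ y) = 0 := by
    intro y hy
    have : S ≤ LinearMap.ker (DD η₁ ∘ₗ AA η₀) :=
      iSup_le fun i x hx => DD_closed i.2.2.1 (AA_mem_on _ hx)
    exact this hy
  have hB : ∀ y ∈ S, DL l (AA η₁ (AA η₀ y)) = 0 := by
    intro y hy
    have : S ≤ LinearMap.ker (DL l ∘ₗ AA η₁ ∘ₗ AA η₀) :=
      iSup_le fun i x hx => DL_zero l i.2.2.2 (AA_mem_on _ (AA_mem_on _ hx))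
    exact this hy
  have hT := Tower.BB_step h hr h0 h1 hN (S := S) (fun n hn => hS _ (hW n hn)) hS0 hS1
  have h2 := Tower.aug_DL hN0 l hl hT hne
  apply h2
  rw [BB_apply, hB _ (hS _ (hW _ le_rfl)), map_zero]

end

end Pool.Agent.EF97
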