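import Pool.Agent.EF97.Sd
import Pool.Agent.EF97.Angles

/-!
# Evaluation of the odd operators on the fundamental cube
-/

namespace Pool.Agent.EF97

open Topology unitInterval

noncomputable section

variable {P : Type*} [TopologicalSpace P]

/-- `η` measures the variation of the angle of `F` along short paths of constant speed -/
def AngVal (ρ : ℝ →ₗ[ℚ] ℚ) (η : Th P) (F : P → ℂ) : Prop :=
  ∀ (p : C(I, P)) (a b : ℝ), |b| ≤ 1 / 8 →
    (∀ t : I, F (p t) = Complex.exp (2 * Real.pi * Complex.I * (a + b * (t : ℝ)))) →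
    η.fn p = ρ b

lemma angVal_etaTh (ρ : ℝ →ₗ[ℚ] ℚ) (F : P → ℂ) : AngVal ρ (etaTh ρ F) F := by
  intro p a b hb hp
  rw [etaTh_value p one_ne_zero (fun t => a + b * (t : ℝ))]
  · congr 1
    simp
  · intro t
    rw [hp, eu, one_mul]
    congr 1
    push_cast
    ring
  · intro t
    simp only [Set.Icc.coe_zero, mul_zero, add_zero, add_sub_cancel_left]
    have h1 := t.2.1
    have h2 := t.2.2
    rw [abs_mul, abs_of_nonneg h1]
    calc |b| * (t : ℝ) ≤ 1 / 8 * 1 := by
          apply mul_le_mul hb h2 h1 (by norm_num)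
      _ < 1 / 4 := by norm_num

lemma Sd_cb_three {u : Cb P} (hu : u.n = 3) (M : ℕ) : Sd M (cb u : Ch P) =
    ∑ c2 ∈ Finset.range M, ∑ c1 ∈ Finset.range M, ∑ c0 ∈ Finset.range M,
      cb (((u.pc M 2 c2).pc M 1 c1).pc M 0 c0) := by
  rw [Sd_cb, hu]
  change Sj M 0 (Sj M 1 (Sj M 2 (cb u))) = _
  rw [Sj_lt (by omega), map_sum, map_sum]
  apply Finset.sum_congr rfl
  intro c2 _
  rw [Sj_lt (by rw [Cb.pc_n]; omega), map_sum]
  apply Finset.sum_congr rfl
  intro c1 _
  rw [Sj_lt (by rw [Cb.pc_n, Cb.pc_n]; omega)]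

/-- the point `1/2` -/
def half : I := ⟨1 / 2, by norm_num, by norm_num⟩

lemma BB_eval_zero {r : P → ℚ} {η₀ η₁ : Th P} {u : Cb P} (h : ∀ s t, r (u.f s) = r (u.f t))
    (M : ℕ) : BB r η₀ η₁ (Sd M (cb u : Ch P)) = 0 := by
  have h1 : (cb u : Ch P) ∈ on (Set.range u.f) := cb_mem_on fun s => ⟨s, rfl⟩
  have h2 : AA (dTh r) (Sd M (cb u : Ch P)) = 0 := by
    apply AA_const_zero (V := Set.range u.f) _ (Sd_mem_on h1)
    intro p hp
    obtain ⟨s, hs⟩ := hp 1
    obtain ⟨t, ht⟩ := hp 0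
    simp only [dTh]
    rw [← hs, ← ht, h s t, sub_self]
  rw [BB_apply, h2, map_zero, map_zero]

lemma rho_inv {ρ : ℝ →ₗ[ℚ] ℚ} (hρ : ρ 1 = 1) (M : ℕ) : ρ ((1 : ℝ) / M) = 1 / (M : ℚ) := by
  have h1 : ((1 : ℝ) / M) = ((1 : ℚ) / M : ℚ) • (1 : ℝ) := by
    rw [Rat.smul_def]; push_cast; ring
  rw [h1, map_smul, hρ, smul_eq_mul, mul_one]

theorem eval {ρ : ℝ →ₗ[ℚ] ℚ} (hρ : ρ 1 = 1) {r : P → ℚ} {η₀ η₁ : Th P} {F₀ F₁ : P → ℂ}
    (h0 : AngVal ρ η₀ F₀) (h1 : AngVal ρ η₁ F₁)
    {u : Cb P} (hu : u.n = 3) (hr : ∀ s, r (u.f s) = if (s 0 : ℝ) < 1 / 2 then 0 else 1)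
    (hF0 : ∀ s, (s 0 : ℝ) = 1 / 2 →
      F₀ (u.f s) = Complex.exp (-(2 * Real.pi * Complex.I * ((s 2 : ℝ) : ℂ))))
    (hF1 : ∀ s, (s 0 : ℝ) = 1 / 2 →
      F₁ (u.f s) = Complex.exp (-(2 * Real.pi * Complex.I * ((s 1 : ℝ) : ℂ))))
    {m : ℕ} (hm : 4 ≤ m) : aug (BB r η₀ η₁ (Sd (2 * m) (cb u : Ch P))) = -1 := by
  set M := 2 * m with hM
  have hM8 : 8 ≤ M := by omega
  have hMR : (0 : ℝ) < M := by exact_mod_cast (by omega : 0 < M)
  have hMQ : (M : ℚ) ≠ 0 := by exact_mod_cast (by omega : M ≠ 0)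
  have hM8R : (8 : ℝ) ≤ M := by exact_mod_cast hM8
  have hb : |(-(1 : ℝ) / M)| ≤ 1 / 8 := by
    rw [abs_div, abs_neg, abs_one, abs_of_pos hMR]
    exact one_div_le_one_div_of_le (by norm_num) hM8R
  have hphi : ρ (-(1 : ℝ) / M) = - (1 / (M : ℚ)) := by
    rw [neg_div, map_neg, rho_inv hρ]
  -- first operator
  have hA : ∀ c2 c1, AA (dTh r) (∑ c0 ∈ Finset.range M,
      (cb (((u.pc M 2 c2).pc M 1 c1).pc M 0 c0) : Ch P)) =
        cb (((u.face 0 half).pc M 1 c2).pc M 0 c1) := by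
    intro c2 c1
    rw [map_sum]
    have hterm : ∀ c0 ∈ Finset.range M,
        AA (dTh r) (cb (((u.pc M 2 c2).pc M 1 c1).pc M 0 c0) : Ch P) =
          (if c0 = m - 1 then (cb (((u.face 0 half).pc M 1 c2).pc M 0 c1) : Ch P) else 0) := by
      intro c0 hc0
      have hc0' : c0 < M := by simpa using hc0
      have hrv : ∀ s : Q, r ((((u.pc M 2 c2).pc M 1 c1).pc M 0 c0).f s) =
          if (aff1 M c0 (s 0) : ℝ) < 1 / 2 then 0 else 1 := by
        intro s
        rw [Cb.pc_f, Cb.pc_f, Cb.pc_f, hr, aff_ne _ _ (by omega), aff_ne _ _ (by omega), aff_same]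
      rw [AA_cb]
      simp only [Cb.pc_n]
      rw [hu, Finset.sum_range_succ, Finset.sum_range_succ, Finset.sum_range_one]
      have e1 : (dTh r).fn ((((u.pc M 2 c2).pc M 1 c1).pc M 0 c0).edge 1) = 0 := by
        simp only [dTh, Cb.edge_apply]
        rw [hrv, hrv]
        simp [axis]
      have e2 : (dTh r).fn ((((u.pc M 2 c2).pc M 1 c1).pc M 0 c0).edge 2) = 0 := by
        simp only [dTh, Cb.edge_apply]
        rw [hrv, hrv]
        simp [axis]
      have e0 : (dTh r).fn ((((u.pc M 2 c2).pc M 1 c1).pc M 0 c0).edge 0) =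
          (if ((c0 : ℝ) + 1) / M < 1 / 2 then 0 else 1) - (if (c0 : ℝ) / M < 1 / 2 then 0 else 1) := by
        simp only [dTh, Cb.edge_apply]
        rw [hrv, hrv]
        simp [axis, coe_aff1 hc0']
      rw [e1, e2, zero_smul, zero_smul, smul_zero, smul_zero, add_zero, add_zero, pow_zero,
        one_smul, e0]
      have k1 : ((c0 : ℝ) + 1) / M < 1 / 2 ↔ c0 + 1 < m := by
        rw [div_lt_iff₀ hMR, hM]
        push_cast
        constructor
        · intro h
          have : (c0 : ℝ) + 1 < m := by linarith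
          exact_mod_cast this
        · intro h
          have : (c0 : ℝ) + 1 < m := by exact_mod_cast h
          linarith
      have k2 : (c0 : ℝ) / M < 1 / 2 ↔ c0 < m := by
        rw [div_lt_iff₀ hMR, hM]
        push_cast
        constructor
        · intro h
          have : (c0 : ℝ) < m := by linarith
          exact_mod_cast this
        · intro h
          have : (c0 : ℝ) < m := by exact_mod_cast h
          linarith
      simp only [k1, k2]
      by_cases hc : c0 = m - 1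
      · rw [if_neg (by omega), if_pos (by omega), if_pos hc, sub_zero, one_smul]
        rw [Cb.pc_face_same, Cb.pc_face_gt (by omega), Cb.pc_face_gt (by omega)]
        have : aff1 M c0 1 = half := by
          apply Subtype.ext
          rw [coe_aff1 hc0', hc]
          have h2 : (((m - 1 : ℕ) : ℝ)) = m - 1 := by
            rw [Nat.cast_sub (by omega)]; simp
          rw [h2, hM]
          change ((m : ℝ) - 1 + ((1 : I) : ℝ)) / ((2 * m : ℕ) : ℝ) = 1 / 2
          have hm0 : (m : ℝ) ≠ 0 := by exact_mod_cast (by omega : m ≠ 0)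
          push_cast
          field_simp
          ring
        rw [this]
      · rw [if_neg hc]
        by_cases hlt : c0 + 1 < m
        · rw [if_pos hlt, if_pos (by omega), sub_self, zero_smul]
        · rw [if_neg hlt, if_neg (by omega), sub_self, zero_smul]
    rw [Finset.sum_congr rfl hterm, Finset.sum_ite_eq' (Finset.range M) (m - 1)]
    rw [if_pos (by rw [Finset.mem_range]; omega)]
  -- the face
  set w := u.face 0 half with hw
  have hwn : w.n = 2 := by rw [hw, Cb.face_n_lt (by omega)]; omega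
  have hwF0 : ∀ s, F₀ (w.f s) = Complex.exp (-(2 * Real.pi * Complex.I * ((s 1 : ℝ) : ℂ))) := by
    intro s
    rw [hw, Cb.face_f, hF0 _ (by rw [ins_self]; rfl), ins_of_gt (by omega)]
  have hwF1 : ∀ s, F₁ (w.f s) = Complex.exp (-(2 * Real.pi * Complex.I * ((s 0 : ℝ) : ℂ))) := by
    intro s
    rw [hw, Cb.face_f, hF1 _ (by rw [ins_self]; rfl), ins_of_gt (by omega)]
  -- second operator
  have hB : ∀ c2 ∈ Finset.range M, ∀ c1 ∈ Finset.range M,
      AA η₀ (cb ((w.pc M 1 c2).pc M 0 c1) : Ch P) =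
        (1 / (M : ℚ)) • cb ((w.face 1 (aff1 M c2 1)).pc M 0 c1) := by
    intro c2 hc2 c1 hc1
    have hc2' : c2 < M := by simpa using hc2
    have hc1' : c1 < M := by simpa using hc1
    rw [AA_cb]
    simp only [Cb.pc_n]
    rw [hwn, Finset.sum_range_succ, Finset.sum_range_one]
    have e0 : η₀.fn (((w.pc M 1 c2).pc M 0 c1).edge 0) = 0 := by
      rw [h0 _ (-((c2 : ℝ) / M)) 0 (by norm_num) (fun t => ?_), map_zero]
      rw [Cb.edge_apply, Cb.pc_f, Cb.pc_f, hwF0, aff_same, aff_ne _ _ (by omega), coe_aff1 hc2']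
      congr 1
      simp [axis]
    have e1 : η₀.fn (((w.pc M 1 c2).pc M 0 c1).edge 1) = - (1 / (M : ℚ)) := by
      rw [h0 _ (-((c2 : ℝ) / M)) (-(1 : ℝ) / M) hb (fun t => ?_), hphi]
      rw [Cb.edge_apply, Cb.pc_f, Cb.pc_f, hwF0, aff_same, aff_ne _ _ (by omega), coe_aff1 hc2']
      congr 1
      simp only [axis, if_true]
      push_cast
      ring
    rw [e0, e1, zero_smul, smul_zero, zero_add, pow_one, Cb.pc_face_lt (by omega),
      Cb.pc_face_same, smul_smul]
    congr 1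
    ring
  -- third operator
  have hC : ∀ c2 ∈ Finset.range M, ∀ c1 ∈ Finset.range M,
      aug (AA η₁ (cb ((w.face 1 (aff1 M c2 1)).pc M 0 c1) : Ch P)) = - (1 / (M : ℚ)) := by
    intro c2 hc2 c1 hc1
    have hc2' : c2 < M := by simpa using hc2
    have hc1' : c1 < M := by simpa using hc1
    have hn1 : (w.face 1 (aff1 M c2 1)).n = 1 := by rw [Cb.face_n_lt (by omega)]; omega
    rw [AA_cb]
    simp only [Cb.pc_n]
    rw [hn1, Finset.sum_range_one]
    have e0 : η₁.fn (((w.face 1 (aff1 M c2 1)).pc M 0 c1).edge 0) = - (1 / (M : ℚ)) := by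
      rw [h1 _ (-((c1 : ℝ) / M)) (-(1 : ℝ) / M) hb (fun t => ?_), hphi]
      rw [Cb.edge_apply, Cb.pc_f, Cb.face_f, hwF1, ins_of_lt (by omega), aff_same, coe_aff1 hc1']
      congr 1
      simp only [axis, if_true]
      push_cast
      ring
    rw [e0, pow_zero, one_smul, map_smul, aug_cb, if_pos, smul_eq_mul, mul_one]
    rw [Cb.face_n_lt (by rw [Cb.pc_n]; omega), Cb.pc_n]
    omega
  -- conclusion
  rw [BB_apply, Sd_cb_three hu, map_sum, map_sum, map_sum, map_sum]
  have hsum : ∀ c2 ∈ Finset.range M, aug (AA η₁ (AA η₀ (AA (dTh r)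
      (∑ c1 ∈ Finset.range M, ∑ c0 ∈ Finset.range M,
        (cb (((u.pc M 2 c2).pc M 1 c1).pc M 0 c0) : Ch P))))) = - (1 / (M : ℚ)) := by
    intro c2 hc2
    rw [map_sum, map_sum, map_sum, map_sum]
    have hin : ∀ c1 ∈ Finset.range M, aug (AA η₁ (AA η₀ (AA (dTh r)
        (∑ c0 ∈ Finset.range M, (cb (((u.pc M 2 c2).pc M 1 c1).pc M 0 c0) : Ch P))))) =
          - (1 / (M : ℚ)) * (1 / M) := by
      intro c1 hc1
      rw [hA, hB c2 hc2 c1 hc1, map_smul, map_smul, hC c2 hc2 c1 hc1, smul_eq_mul]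
      ring
    rw [Finset.sum_congr rfl hin, Finset.sum_const, Finset.card_range, nsmul_eq_mul]
    field_simp
  rw [Finset.sum_congr rfl hsum, Finset.sum_const, Finset.card_range, nsmul_eq_mul]
  field_simp

end

end Pool.Agent.EF97
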