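import Pool.Agent.EF97.Cube

/-!
# The prism operator of a homotopy
-/

namespace Pool.Agent.EF97

open Topology unitInterval

noncomputable section

variable {d : Bool} {Y Z P R : Type*} [TopologicalSpace Y] [TopologicalSpace Z] [TopologicalSpace P]
  [TopologicalSpace R]

/-- drop the first `p` coordinates -/
def sh (p : ℕ) (s : Q) : Q := fun j => s (j + p)

@[simp] lemma sh_apply (p : ℕ) (s : Q) (j : ℕ) : sh p s j = s (j + p) := rfl

lemma continuous_sh (p : ℕ) : Continuous (sh p) := by
  rw [continuous_pi_iff]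
  intro j
  exact continuous_apply _

/-- `sh` as a continuous map -/
def shC (p : ℕ) : C(Q, Q) := ⟨sh p, continuous_sh p⟩

@[simp] lemma shC_apply (p : ℕ) (s : Q) : shC p s = sh p s := rfl

lemma sh_ins_lt {p i : ℕ} (h : i < p) (ε : I) (s : Q) : sh p (ins i ε s) = sh (p - 1) s := by
  funext j
  simp only [sh_apply]
  rw [ins_of_gt (by omega)]
  congr 1
  omega

lemma sh_ins_add (p l : ℕ) (ε : I) (s : Q) : sh p (ins (p + l) ε s) = ins l ε (sh p s) := by
  funext j
  simp only [sh_apply]
  rcases lt_trichotomy j l with hk | hk | hk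
  · rw [ins_of_lt (by omega), ins_of_lt hk, sh_apply]
  · subst hk
    rw [show j + p = p + j by omega, ins_self, ins_self]
  · rw [ins_of_gt (by omega), ins_of_gt hk, sh_apply]
    congr 1
    omega

/-- the evaluation at coordinate `i` -/
def evC (i : ℕ) : C(Q, I) := ⟨fun s => s i, continuous_apply i⟩

@[simp] lemma evC_apply (i : ℕ) (s : Q) : evC i s = s i := rfl

/-- the prism over a cube -/
def Cb.prism (F : C(I × Y, Z)) (u : Cb Y) : Cb Z where
  n := u.n + 1
  f := F.comp ((evC 0).prodMk (u.f.comp (shC 1)))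
  dep s t h := by
    have h1 : u.f (sh 1 s) = u.f (sh 1 t) := u.dep _ _ fun i hi => h (i + 1) (by omega)
    change F (s 0, u.f (sh 1 s)) = F (t 0, u.f (sh 1 t))
    rw [h 0 (by omega), h1]

@[simp] lemma Cb.prism_n (F : C(I × Y, Z)) (u : Cb Y) : (u.prism F).n = u.n + 1 := rfl
@[simp] lemma Cb.prism_f (F : C(I × Y, Z)) (u : Cb Y) (s : Q) :
    (u.prism F).f s = F (s 0, u.f (sh 1 s)) := rfl

lemma Cb.Deg.prism {u : Cb Y} (hu : u.Deg) (F : C(I × Y, Z)) : (u.prism F).Deg := by
  refine ⟨by simp, fun s t h => ?_⟩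
  obtain ⟨h0, h1⟩ := hu
  simp only [Cb.prism_n, Nat.add_sub_cancel] at h
  simp only [Cb.prism_f]
  rw [h 0 h0, h1 (sh 1 s) (sh 1 t) (fun i hi => h (i + 1) (by omega))]

/-- the end of a homotopy -/
def endC (F : C(I × Y, Z)) (ε : I) : C(Y, Z) :=
  F.comp ((ContinuousMap.const Y ε).prodMk (ContinuousMap.id Y))

@[simp] lemma endC_apply (F : C(I × Y, Z)) (ε : I) (y : Y) : endC F ε y = F (ε, y) := rfl

lemma Cb.prism_face_zero (F : C(I × Y, Z)) (u : Cb Y) (ε : I) :
    (u.prism F).face 0 ε = u.push (endC F ε) := by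
  ext1
  · rw [Cb.face_n_lt (by simp)]; simp
  · ext1 s
    simp only [Cb.face_f, Cb.prism_f, Cb.push_f, endC_apply, ins_self]
    congr 3

lemma Cb.prism_face_succ (F : C(I × Y, Z)) (u : Cb Y) (i : ℕ) (ε : I) :
    (u.prism F).face (i + 1) ε = (u.face i ε).prism F := by
  ext1
  · simp only [Cb.face, Cb.prism_n]
    split_ifs <;> omega
  · ext1 s
    simp only [Cb.face_f, Cb.prism_f]
    rw [ins_of_lt (by omega), show i + 1 = 1 + i by omega, sh_ins_add]

/-- the prism operator -/
def prism (F : C(I × Y, Z)) : Chd d Y →ₗ[ℚ] Chd d Z :=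
  lift (fun u => cb (u.prism F)) (fun _ hu => cb_deg' ⟨hu.1, hu.2.prism F⟩)

@[simp] lemma prism_cb (F : C(I × Y, Z)) (u : Cb Y) :
    prism F (cb u : Chd d Y) = cb (u.prism F) := by
  simp [prism]

lemma bd_prism (F : C(I × Y, Z)) (x : Chd d Y) :
    bd (prism F x) = push (endC F 1) x - push (endC F 0) x - prism F (bd x) := by
  have : (bd ∘ₗ prism F : Chd d Y →ₗ[ℚ] Chd d Z) =
      push (endC F 1) - push (endC F 0) - prism F ∘ₗ bd := by
    apply hom_ext
    intro u
    simp only [LinearMap.comp_apply, LinearMap.sub_apply, prism_cb, push_cb]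
    rw [bd_cb, bd_cb, Cb.prism_n, Finset.sum_range_succ', pow_zero, one_smul, map_sum]
    have h0 : bdi 0 (cb (u.prism F) : Chd d Z) = cb (u.push (endC F 1)) - cb (u.push (endC F 0)) := by
      rw [bdi_cb, Cb.prism_face_zero, Cb.prism_face_zero]
    have h1 : ∀ i, (-1 : ℚ) ^ (i + 1) • bdi (i + 1) (cb (u.prism F) : Chd d Z) =
        - prism F ((-1 : ℚ) ^ i • bdi i (cb u)) := by
      intro i
      rw [bdi_cb, Cb.prism_face_succ, Cb.prism_face_succ, map_smul, bdi_cb, map_sub, prism_cb,
        prism_cb, pow_succ]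
      simp
    rw [h0, Finset.sum_congr rfl (fun i _ => h1 i), Finset.sum_neg_distrib]
    abel
  exact congrArg (fun f => f x) this

lemma prism_mem_hom (F : C(I × Y, Z)) {n : ℕ} {x : Chd d Y} (hx : x ∈ hom Y n) :
    prism F x ∈ hom Z (n + 1) := by
  apply map_mem_hom (f := prism F) _ hx
  intro u hu
  rw [prism_cb]
  exact cb_mem_hom (by simp [hu])

/-- chains of positive dimension are killed by constant maps -/
lemma push_const {n : ℕ} (hn : 0 < n) {x : Ch Y} (hx : x ∈ hom Y n) (c : Z) :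
    push (ContinuousMap.const Y c) x = 0 := by
  have : (hom Y n : Submodule ℚ (Ch Y)) ≤ LinearMap.ker (push (ContinuousMap.const Y c)) := by
    rw [hom, Submodule.span_le]
    rintro _ ⟨u, hu, rfl⟩
    change push _ (cb u : Ch Y) = 0
    rw [push_cb]
    exact cb_deg ⟨by simpa [hu] using hn, fun s t _ => rfl⟩
  exact this hx

/-- the sum of the coefficients (chains that are not normalised) -/
def tot : Cu Y →ₗ[ℚ] ℚ := lift (fun _ => 1) (fun _ h => absurd h.1 (by simp))

@[simp] lemma tot_cb (u : Cb Y) : tot (cb u : Cu Y) = 1 := by simp [tot]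

/-- homogeneous chains of total coefficient zero are killed by constant maps, also without
normalisation -/
lemma push_const' {n : ℕ} {x : Cu Y} (hx : x ∈ hom Y n) (h0 : tot x = 0) (c : Z) :
    push (ContinuousMap.const Y c) x = 0 := by
  let k : Cb Z := ⟨n, ContinuousMap.const _ c, fun _ _ _ => rfl⟩
  have : (hom Y n : Submodule ℚ (Cu Y)) ≤ LinearMap.eqLocus (push (ContinuousMap.const Y c))
      (tot.smulRight (cb k : Cu Z)) := by
    rw [hom, Submodule.span_le]
    rintro _ ⟨u, hu, rfl⟩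
    change push _ (cb u : Cu Y) = _
    rw [push_cb]
    simp only [LinearMap.smulRight_apply, tot_cb, one_smul]
    congr 1
    ext1
    · simp [k, hu]
    · ext1 s; simp [k]
  have h1 := this hx
  change push _ x = tot x • cb k at h1
  rw [h1, h0, zero_smul]

end

end Pool.Agent.EF97
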