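import Pool.Agent.EF97.U4Def
import Pool.Agent.EF97.Prism
import Pool.Agent.MP_a0fe07.Rep

/-!
# Representations of the Klein bottle group in U(4)

`XX` is the space of homomorphisms of the Klein bottle group to `U(4)`, i.e. the space of pairs
`(x, y)` of unitary matrices with `x y x⁻¹ = y⁻¹`. Continuous functions on it and their properties.
-/

namespace Pool.Agent.EF97

open Topology unitInterval Pool.Agent.MP_a0fe07

noncomputable section

/-- 4 by 4 complex matrices -/
abbrev M4 : Type := Matrix (Fin 4) (Fin 4) ℂ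

/-- the representation space -/
abbrev XX : Type := Rep (SurfaceGroup 2) U4

/-- the first generator -/
def ga1 : SurfaceGroup 2 := PresentedGroup.of 0
/-- the second generator -/
def ga2 : SurfaceGroup 2 := PresentedGroup.of 1

lemma ga_rel : ga1 ^ 2 * ga2 ^ 2 = 1 := by
  have h := PresentedGroup.one_of_mem (rels := ({(List.ofFn fun i : Fin 2 => FreeGroup.of i ^ 2).prod} :
    Set (FreeGroup (Fin 2)))) (x := (List.ofFn fun i : Fin 2 => FreeGroup.of i ^ 2).prod) rfl
  simp only [List.ofFn_succ, List.ofFn_zero, List.prod_cons, List.prod_nil, mul_one, map_mul,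
    map_pow] at h
  exact h

/-- the matrix `x` -/
def kx : C(XX, U4) := ⟨fun r => (r.hom ga2)⁻¹, (ev ga2).continuous.inv⟩

/-- the matrix `y` -/
def ky : C(XX, U4) := ⟨fun r => r.hom ga1 * r.hom ga2, (ev ga1).continuous.mul (ev ga2).continuous⟩

lemma kx_apply (r : XX) : kx r = (r.hom ga2)⁻¹ := rfl
lemma ky_apply (r : XX) : ky r = r.hom ga1 * r.hom ga2 := rfl

lemma kx_smul (g : U4) (r : XX) : kx (g • r) = g * kx r * g⁻¹ := by
  change (g * r.hom ga2 * g⁻¹)⁻¹ = g * (r.hom ga2)⁻¹ * g⁻¹
  group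

lemma ky_smul (g : U4) (r : XX) : ky (g • r) = g * ky r * g⁻¹ := by
  change (g * r.hom ga1 * g⁻¹) * (g * r.hom ga2 * g⁻¹) = g * (r.hom ga1 * r.hom ga2) * g⁻¹
  group

lemma klein_rel_aux {G : Type*} [Group G] (a b : G) (h : a ^ 2 * b ^ 2 = 1) :
    b⁻¹ * (a * b) * (b⁻¹)⁻¹ = (a * b)⁻¹ := by
  have h2 : a * b ^ 2 = a⁻¹ := by
    rw [eq_inv_iff_mul_eq_one]
    have : a * (a * b ^ 2) = 1 := by rw [← mul_assoc, ← pow_two]; exact h
    exact mul_eq_one_comm.mp this
  rw [mul_inv_rev, ← h2, inv_inv, pow_two]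
  simp only [mul_assoc]

lemma kxy_rel (r : XX) : kx r * ky r * (kx r)⁻¹ = (ky r)⁻¹ := by
  have h : r.hom ga1 ^ 2 * r.hom ga2 ^ 2 = 1 := by
    rw [← map_pow, ← map_pow, ← map_mul, ga_rel, map_one]
  exact klein_rel_aux _ _ h

/-- images of the generators -/
def genK (x y : U4) (i : Fin 2) : U4 := if i = 0 then y * x else x⁻¹

lemma genK_rel {x y : U4} (h : x * y * x⁻¹ = y⁻¹) :
    ∀ w ∈ ({(List.ofFn fun i : Fin 2 => FreeGroup.of i ^ 2).prod} : Set (FreeGroup (Fin 2))),
      FreeGroup.lift (genK x y) w = 1 := by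
  intro w hw
  rw [Set.mem_singleton_iff] at hw
  subst hw
  have h2 : y * (x * y * x⁻¹) = 1 := by rw [h, mul_inv_cancel]
  simp only [List.ofFn_succ, List.ofFn_zero, List.prod_cons, List.prod_nil, mul_one, map_mul,
    map_pow, FreeGroup.lift_apply_of, genK]
  simp only [Fin.succ_zero_eq_one, one_ne_zero, if_true, if_false]
  calc (y * x) ^ 2 * x⁻¹ ^ 2 = y * (x * y * x⁻¹) := by
        simp only [pow_two, mul_assoc, mul_inv_cancel_left]
    _ = 1 := h2

/-- the representation with given `x` and `y` -/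
def mkRep (x y : U4) (h : x * y * x⁻¹ = y⁻¹) : XX where
  hom := PresentedGroup.toGroup (genK_rel h)

lemma mkRep_ga1 (x y : U4) (h : x * y * x⁻¹ = y⁻¹) : (mkRep x y h).hom ga1 = y * x :=
  (PresentedGroup.toGroup.of (genK_rel h)).trans (by simp [genK])

lemma mkRep_ga2 (x y : U4) (h : x * y * x⁻¹ = y⁻¹) : (mkRep x y h).hom ga2 = x⁻¹ :=
  (PresentedGroup.toGroup.of (genK_rel h)).trans (by simp [genK])

@[simp] lemma kx_mkRep (x y : U4) (h : x * y * x⁻¹ = y⁻¹) : kx (mkRep x y h) = x := by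
  rw [kx_apply, mkRep_ga2, inv_inv]

@[simp] lemma ky_mkRep (x y : U4) (h : x * y * x⁻¹ = y⁻¹) : ky (mkRep x y h) = y := by
  rw [ky_apply, mkRep_ga1, mkRep_ga2, mul_inv_cancel_right]

lemma XX_ext' {r t : XX} (h1 : r.hom ga1 = t.hom ga1) (h2 : r.hom ga2 = t.hom ga2) : r = t := by
  obtain ⟨f⟩ := r
  obtain ⟨g⟩ := t
  congr 1
  refine PresentedGroup.ext fun i => ?_
  fin_cases i
  · exact h1
  · exact h2

/-- a representation is determined by `x` and `y` -/
lemma XX_ext {r t : XX} (h1 : kx r = kx t) (h2 : ky r = ky t) : r = t := by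
  have h3 : r.hom ga2 = t.hom ga2 := inv_injective h1
  refine XX_ext' ?_ h3
  rw [ky_apply, ky_apply, h3] at h2
  exact mul_right_cancel h2

lemma mkRep_eta (r : XX) : mkRep (kx r) (ky r) (kxy_rel r) = r := XX_ext (by simp) (by simp)

lemma continuous_lift_genK {T : Type*} [TopologicalSpace T] {x y : T → U4} (hx : Continuous x)
    (hy : Continuous y) (w : FreeGroup (Fin 2)) :
    Continuous fun t => FreeGroup.lift (genK (x t) (y t)) w := by
  induction w using FreeGroup.induction_on with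
  | C1 => simp only [map_one]; exact continuous_const
  | of i =>
    simp only [FreeGroup.lift_apply_of, genK]
    split_ifs
    · exact hy.mul hx
    · exact hx.inv
  | inv_of i hi =>
    simp only [map_inv]
    exact hi.inv
  | mul a b ha hb =>
    simp only [map_mul]
    exact ha.mul hb

lemma continuous_mkRep {T : Type*} [TopologicalSpace T] {x y : T → U4} (hx : Continuous x)
    (hy : Continuous y) (h : ∀ t, x t * y t * (x t)⁻¹ = (y t)⁻¹) :
    Continuous fun t => mkRep (x t) (y t) (h t) := by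
  rw [continuous_induced_rng, continuous_pi_iff]
  intro γ
  induction γ using PresentedGroup.induction_on with
  | _ w => exact continuous_lift_genK hx hy w

/-- `mkRep` for continuous families -/
def mkRepC {T : Type*} [TopologicalSpace T] (x y : C(T, U4))
    (h : ∀ t, x t * y t * (x t)⁻¹ = (y t)⁻¹) : C(T, XX) :=
  ⟨fun t => mkRep (x t) (y t) (h t), continuous_mkRep x.continuous y.continuous h⟩

@[simp] lemma mkRepC_apply {T : Type*} [TopologicalSpace T] (x y : C(T, U4))
    (h : ∀ t, x t * y t * (x t)⁻¹ = (y t)⁻¹) (t : T) : mkRepC x y h t = mkRep (x t) (y t) (h t) := rfl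

/-! ## Matrices -/

lemma U4_mul_coe (a b : U4) : ((a * b : U4) : M4) = (a : M4) * (b : M4) := rfl

lemma U4_inv_mul (g : U4) : ((g⁻¹ : U4) : M4) * (g : M4) = 1 := by
  rw [← U4_mul_coe, inv_mul_cancel]; rfl

lemma U4_mul_inv (g : U4) : (g : M4) * ((g⁻¹ : U4) : M4) = 1 := by
  rw [← U4_mul_coe, mul_inv_cancel]; rfl

lemma U4_inv_coe (g : U4) : ((g⁻¹ : U4) : M4) = star (g : M4) := rfl

lemma U4_det_conj (g : U4) (A : M4) : ((g : M4) * A * ((g⁻¹ : U4) : M4)).det = A.det := by
  rw [Matrix.det_mul, Matrix.det_mul, mul_right_comm, ← Matrix.det_mul, U4_mul_inv, Matrix.det_one,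
    one_mul]

lemma U4_trace_conj (g : U4) (A : M4) : ((g : M4) * A * ((g⁻¹ : U4) : M4)).trace = A.trace := by
  rw [Matrix.trace_mul_comm, ← mul_assoc, U4_inv_mul, one_mul]

lemma continuous_coeU4 : Continuous fun g : U4 => (g : M4) := continuous_subtype_val

/-- the projection to the eigenvalue `-1` (if `y ^ 4 = 1`) -/
def PP (y : M4) : M4 := (1 / 4 : ℂ) • (1 - y + y ^ 2 - y ^ 3)

/-- the projection to the eigenvalue `1` (if `y ^ 4 = 1`) -/
def QQ (y : M4) : M4 := (1 / 4 : ℂ) • (1 + y + y ^ 2 + y ^ 3)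

lemma continuous_PP : Continuous PP := by unfold PP; fun_prop
lemma continuous_QQ : Continuous QQ := by unfold QQ; fun_prop

/-- the first invariant function -/
def F0 : C(XX, ℂ) where
  toFun r := (1 - PP (ky r) + (kx r : M4) * PP (ky r)).det
  continuous_toFun := by
    have hx : Continuous fun r : XX => (kx r : M4) := continuous_coeU4.comp kx.continuous
    have hy : Continuous fun r : XX => PP (ky r) :=
      continuous_PP.comp (continuous_coeU4.comp ky.continuous)
    exact ((continuous_const.sub hy).add (hx.mul hy)).matrix_det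

/-- the second invariant function -/
def F1 : C(XX, ℂ) where
  toFun r := (1 - QQ (ky r) + (kx r : M4) * QQ (ky r)).det
  continuous_toFun := by
    have hx : Continuous fun r : XX => (kx r : M4) := continuous_coeU4.comp kx.continuous
    have hy : Continuous fun r : XX => QQ (ky r) :=
      continuous_QQ.comp (continuous_coeU4.comp ky.continuous)
    exact ((continuous_const.sub hy).add (hx.mul hy)).matrix_det

lemma F0_apply (r : XX) : F0 r = (1 - PP (ky r) + (kx r : M4) * PP (ky r)).det := rfl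
lemma F1_apply (r : XX) : F1 r = (1 - QQ (ky r) + (kx r : M4) * QQ (ky r)).det := rfl

lemma conj_pow_aux {G H A : M4} (h : H * G = 1) (n : ℕ) (hn : G * H = 1) :
    (G * A * H) ^ n = G * A ^ n * H := by
  induction n with
  | zero => simp [hn]
  | succ n ih =>
    rw [pow_succ, ih, pow_succ]
    calc G * A ^ n * H * (G * A * H) = G * A ^ n * (H * G) * A * H := by simp only [mul_assoc]
      _ = G * (A ^ n * A) * H := by rw [h, mul_one]; simp only [mul_assoc]

lemma PP_conj {G H : M4} (h : H * G = 1) (hn : G * H = 1) (A : M4) :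
    PP (G * A * H) = G * PP A * H := by
  unfold PP
  rw [conj_pow_aux h 2 hn, conj_pow_aux h 3 hn, mul_smul_comm, smul_mul_assoc]
  congr 1
  have h1 : (1 : M4) = G * 1 * H := by rw [mul_one, hn]
  conv_lhs => rw [h1]
  simp only [mul_add, mul_sub, add_mul, sub_mul]

lemma QQ_conj {G H : M4} (h : H * G = 1) (hn : G * H = 1) (A : M4) :
    QQ (G * A * H) = G * QQ A * H := by
  unfold QQ
  rw [conj_pow_aux h 2 hn, conj_pow_aux h 3 hn, mul_smul_comm, smul_mul_assoc]
  congr 1
  have h1 : (1 : M4) = G * 1 * H := by rw [mul_one, hn]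
  conv_lhs => rw [h1]
  simp only [mul_add, add_mul]

lemma F_conj_aux {G H : M4} (h : H * G = 1) (hn : G * H = 1) (X P : M4) :
    1 - G * P * H + G * X * H * (G * P * H) = G * (1 - P + X * P) * H := by
  have h1 : (1 : M4) = G * 1 * H := by rw [mul_one, hn]
  conv_lhs => rw [h1]
  have h2 : G * X * H * (G * P * H) = G * (X * P) * H := by
    calc G * X * H * (G * P * H) = G * X * (H * G) * P * H := by simp only [mul_assoc]
      _ = G * (X * P) * H := by rw [h, mul_one]; simp only [mul_assoc]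
  rw [h2]
  simp only [mul_add, mul_sub, add_mul, sub_mul]

lemma F0_smul (g : U4) (r : XX) : F0 (g • r) = F0 r := by
  rw [F0_apply, F0_apply, kx_smul, ky_smul]
  simp only [U4_mul_coe]
  rw [PP_conj (U4_inv_mul g) (U4_mul_inv g), F_conj_aux (U4_inv_mul g) (U4_mul_inv g), U4_det_conj]

lemma F1_smul (g : U4) (r : XX) : F1 (g • r) = F1 r := by
  rw [F1_apply, F1_apply, kx_smul, ky_smul]
  simp only [U4_mul_coe]
  rw [QQ_conj (U4_inv_mul g) (U4_mul_inv g), F_conj_aux (U4_inv_mul g) (U4_mul_inv g), U4_det_conj]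

/-! ## Determinant and trace of `y` -/

lemma ky_inv_coe (r : XX) : (kx r : M4) * (ky r : M4) * (((kx r)⁻¹ : U4) : M4) =
    (((ky r)⁻¹ : U4) : M4) := by
  rw [← kxy_rel r]; rfl

lemma det_ky_sq (r : XX) : (ky r : M4).det ^ 2 = 1 := by
  have h1 := congrArg Matrix.det (ky_inv_coe r)
  rw [U4_det_conj] at h1
  have h2 := congrArg Matrix.det (U4_mul_inv (ky r))
  rw [Matrix.det_mul, Matrix.det_one, ← h1] at h2
  rw [pow_two]; exact h2

lemma det_ky (r : XX) : (ky r : M4).det = 1 ∨ (ky r : M4).det = -1 := by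
  have h : ((ky r : M4).det - 1) * ((ky r : M4).det + 1) = 0 := by
    linear_combination det_ky_sq r
  rcases mul_eq_zero.mp h with h | h
  · exact Or.inl (sub_eq_zero.mp h)
  · exact Or.inr (eq_neg_of_add_eq_zero_left h)

lemma trace_ky_star (r : XX) : star (ky r : M4).trace = (ky r : M4).trace := by
  have h1 := congrArg Matrix.trace (ky_inv_coe r)
  rw [U4_trace_conj, U4_inv_coe, Matrix.star_eq_conjTranspose, Matrix.trace_conjTranspose] at h1
  exact h1.symm

lemma trace_ky_im (r : XX) : (ky r : M4).trace.im = 0 := by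
  have h := congrArg Complex.im (trace_ky_star r)
  simp at h
  linarith

/-! ## The key lemma: `det y = -1` and `tr y = 0` -/

lemma charpoly_ky (r : XX) : (ky r : M4).charpoly =
    (-1 : Polynomial ℂ) ^ 4 * Polynomial.C (Ring.inverse (ky r : M4).det) * (ky r : M4).charpoly.reverse := by
  set A : M4 := (ky r : M4) with hA
  have hinv : A⁻¹ = (((ky r)⁻¹ : U4) : M4) := Matrix.inv_eq_left_inv (U4_inv_mul (ky r))
  have hu : IsUnit A := IsUnit.of_mul_eq_one _ (U4_mul_inv (ky r))
  have h1 : A⁻¹.charpoly = A.charpoly := by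
    rw [hinv, ← ky_inv_coe r, mul_assoc, Matrix.charpoly_mul_comm, mul_assoc, U4_inv_mul, mul_one]
  have h2 := Matrix.charpoly_inv A hu
  rw [h1, Fintype.card_fin, ← Matrix.reverse_charpoly] at h2
  exact h2

lemma ky_pow_four {r : XX} (hd : (ky r : M4).det = -1) (ht : (ky r : M4).trace = 0) :
    (ky r : M4) ^ 4 = 1 := by
  have hc := charpoly_ky r
  set A : M4 := (ky r : M4) with hA
  rw [hd] at hc
  have hr : Ring.inverse (-1 : ℂ) = -1 := by rw [Ring.inverse_eq_inv]; norm_num
  rw [hr] at hc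
  have hdeg : A.charpoly.natDegree = 4 := by rw [Matrix.charpoly_natDegree_eq_dim]; rfl
  have hco : ∀ n, A.charpoly.coeff n = - A.charpoly.coeff (Polynomial.revAt 4 n) := by
    intro n
    have h3 : (-1 : Polynomial ℂ) ^ 4 * Polynomial.C (-1 : ℂ) * A.charpoly.reverse =
        - A.charpoly.reverse := by
      rw [Even.neg_one_pow ⟨2, rfl⟩, one_mul, map_neg, map_one, neg_one_mul]
    have h : A.charpoly.coeff n = (- A.charpoly.reverse).coeff n :=
      congrArg (fun p => Polynomial.coeff p n) (hc.trans h3)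
    rw [h, Polynomial.coeff_neg, Polynomial.coeff_reverse, hdeg]
  have h4 : A.charpoly.coeff 4 = 1 := by
    have h := Matrix.charpoly_monic A
    rw [Polynomial.Monic, Polynomial.leadingCoeff, hdeg] at h
    exact h
  have h3 : A.charpoly.coeff 3 = 0 := by
    have := Matrix.trace_eq_neg_charpoly_coeff A
    rw [ht, Fintype.card_fin] at this
    simpa using this.symm
  have h1 : A.charpoly.coeff 1 = 0 := by
    rw [hco 1, Polynomial.revAt_le (by norm_num)]
    simp [h3]
  have h2 : A.charpoly.coeff 2 = 0 := by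
    have := hco 2
    rw [Polynomial.revAt_le (by norm_num)] at this
    norm_num at this
    exact self_eq_neg.mp this
  have h0 : A.charpoly.coeff 0 = -1 := by
    rw [hco 0, Polynomial.revAt_le (by norm_num)]
    simp [h4]
  have hC := Matrix.aeval_self_charpoly A
  rw [Polynomial.aeval_eq_sum_range, hdeg] at hC
  simp only [Finset.sum_range_succ, Finset.sum_range_zero, h0, h1, h2, h3, h4, zero_smul, pow_zero,
    zero_add, add_zero, one_smul, neg_smul] at hC
  exact (eq_of_sub_eq_zero (by rw [← hC]; abel))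

lemma x_mul_y {r : XX} (h4 : (ky r : M4) ^ 4 = 1) : (kx r : M4) * (ky r : M4) =
    (ky r : M4) ^ 3 * (kx r : M4) := by
  have h1 := ky_inv_coe r
  have h2 : (((ky r)⁻¹ : U4) : M4) = (ky r : M4) ^ 3 := by
    have : (((ky r)⁻¹ : U4) : M4) * (ky r : M4) ^ 4 = (ky r : M4) ^ 3 := by
      rw [pow_succ' (ky r : M4) 3, ← mul_assoc, U4_inv_mul, one_mul]
    rw [← this, h4, mul_one]
  rw [← h2, ← h1, mul_assoc, U4_inv_mul, mul_one]

section Alg
variable {A X : M4} (h4 : A ^ 4 = 1) (hX : X * A = A ^ 3 * X)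
include h4

lemma QQ_idem : QQ A * QQ A = QQ A := by
  unfold QQ
  have h : (1 + A + A ^ 2 + A ^ 3) * (1 + A + A ^ 2 + A ^ 3) =
      4 * (1 + A + A ^ 2 + A ^ 3) + (A ^ 4 - 1) * (A ^ 2 + 2 * A + 3) := by noncomm_ring
  rw [smul_mul_smul_comm, h, h4, sub_self, zero_mul, add_zero]
  have h5 : (4 : M4) * (1 + A + A ^ 2 + A ^ 3) = (4 : ℂ) • (1 + A + A ^ 2 + A ^ 3) := by
    rw [Algebra.smul_def, map_ofNat]
  rw [h5, smul_smul]
  norm_num

lemma PP_idem : PP A * PP A = PP A := by
  unfold PP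
  have h : (1 - A + A ^ 2 - A ^ 3) * (1 - A + A ^ 2 - A ^ 3) =
      4 * (1 - A + A ^ 2 - A ^ 3) + (A ^ 4 - 1) * (A ^ 2 - 2 * A + 3) := by noncomm_ring
  rw [smul_mul_smul_comm, h, h4, sub_self, zero_mul, add_zero]
  have h5 : (4 : M4) * (1 - A + A ^ 2 - A ^ 3) = (4 : ℂ) • (1 - A + A ^ 2 - A ^ 3) := by
    rw [Algebra.smul_def, map_ofNat]
  rw [h5, smul_smul]
  norm_num

include hX

lemma X_A2 : X * A ^ 2 = A ^ 2 * X := by
  calc X * A ^ 2 = (X * A) * A := by rw [pow_two, mul_assoc]
    _ = A ^ 3 * X * A := by rw [hX]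
    _ = A ^ 3 * (X * A) := mul_assoc _ _ _
    _ = A ^ 4 * A ^ 2 * X := by rw [hX]; noncomm_ring
    _ = A ^ 2 * X := by rw [h4, one_mul]

lemma X_A3 : X * A ^ 3 = A * X := by
  calc X * A ^ 3 = (X * A ^ 2) * A := by rw [pow_succ, mul_assoc]
    _ = A ^ 2 * (X * A) := by rw [X_A2 h4 hX, mul_assoc]
    _ = A ^ 4 * A * X := by rw [hX]; noncomm_ring
    _ = A * X := by rw [h4, one_mul]

lemma X_QQ : X * QQ A = QQ A * X := by
  unfold QQ
  rw [mul_smul_comm, smul_mul_assoc]
  simp only [mul_add, add_mul, mul_one, one_mul]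
  rw [hX, X_A2 h4 hX, X_A3 h4 hX]
  congr 1
  abel

lemma X_PP : X * PP A = PP A * X := by
  unfold PP
  rw [mul_smul_comm, smul_mul_assoc]
  simp only [mul_add, mul_sub, add_mul, sub_mul, mul_one, one_mul]
  rw [hX, X_A2 h4 hX, X_A3 h4 hX]
  congr 1
  abel

end Alg

lemma det_aux {P X X' : M4} (hP : P * P = P) (hX : X * P = P * X) (h1 : X' * X = 1) (h2 : X * X' = 1) :
    (1 - P + X * P).det ≠ 0 := by
  have hX' : X' * P = P * X' := by
    calc X' * P = X' * P * (X * X') := by rw [h2, mul_one]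
      _ = X' * (P * X) * X' := by simp only [mul_assoc]
      _ = (X' * X) * P * X' := by rw [← hX]; simp only [mul_assoc]
      _ = P * X' := by rw [h1, one_mul]
  have h : (1 - P + X * P) * (1 - P + X' * P) = 1 := by
    have e1 : (1 - P) * (X' * P) = 0 := by
      rw [hX', ← mul_assoc, sub_mul, one_mul, hP, sub_self, zero_mul]
    have e2 : X * P * (1 - P) = 0 := by
      rw [mul_sub, mul_one, mul_assoc, hP, sub_self]
    have e3 : X * P * (X' * P) = P := by
      calc X * P * (X' * P) = P * (X * X') * P := by rw [hX]; simp only [mul_assoc]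
        _ = P := by rw [h2, mul_one, hP]
    have e4 : (1 - P) * (1 - P) = 1 - P := by
      rw [sub_mul, one_mul, mul_sub, mul_one, hP]; abel
    rw [add_mul, mul_add, mul_add, e1, e2, e3, e4]
    abel
  intro h0
  have := congrArg Matrix.det h
  rw [Matrix.det_mul, h0, zero_mul, Matrix.det_one] at this
  exact zero_ne_one this

lemma F0_ne_zero {r : XX} (hd : (ky r : M4).det = -1) (ht : (ky r : M4).trace = 0) : F0 r ≠ 0 := by
  have h4 := ky_pow_four hd ht
  exact det_aux (PP_idem h4) (X_PP h4 (x_mul_y h4)) (U4_inv_mul (kx r)) (U4_mul_inv (kx r))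

lemma F1_ne_zero {r : XX} (hd : (ky r : M4).det = -1) (ht : (ky r : M4).trace = 0) : F1 r ≠ 0 := by
  have h4 := ky_pow_four hd ht
  exact det_aux (QQ_idem h4) (X_QQ h4 (x_mul_y h4)) (U4_inv_mul (kx r)) (U4_mul_inv (kx r))

lemma exists_offdiag {r : XX} (hd : (ky r : M4).det = -1) (ht : (ky r : M4).trace = 0) :
    ∃ i j : Fin 4, i ≠ j ∧ ((kx r : M4) i j ≠ 0 ∨ (ky r : M4) i j ≠ 0) := by
  by_contra hcon
  simp only [not_exists, not_and, not_or, not_not] at hcon
  have h4 := ky_pow_four hd ht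
  have hxy := x_mul_y h4
  set A : M4 := (ky r : M4) with hA
  set X : M4 := (kx r : M4) with hX
  have hXd : X = Matrix.diagonal fun i => X i i := by
    ext i j
    by_cases h : i = j
    · subst h; simp
    · rw [Matrix.diagonal_apply_ne _ h]; exact (hcon i j h).1
  have hAd : A = Matrix.diagonal fun i => A i i := by
    ext i j
    by_cases h : i = j
    · subst h; simp
    · rw [Matrix.diagonal_apply_ne _ h]; exact (hcon i j h).2
  have hcomm : X * A = A * X := by
    rw [hXd, hAd, Matrix.diagonal_mul_diagonal, Matrix.diagonal_mul_diagonal]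
    congr 1
    funext i
    exact mul_comm _ _
  have h2 : A ^ 2 = 1 := by
    have e1 : A * X = A ^ 3 * X := by rw [← hcomm, hxy]
    have e2 : A = A ^ 3 := by
      calc A = A * X * ((kx r)⁻¹ : U4) := by rw [mul_assoc, U4_mul_inv, mul_one]
        _ = A ^ 3 := by rw [e1, mul_assoc, U4_mul_inv, mul_one]
    calc A ^ 2 = A * A := pow_two A
      _ = A ^ 3 * A := by rw [← e2]
      _ = A ^ 4 := by rw [← pow_succ]
      _ = 1 := h4
  have hent : ∀ i, A i i = 1 ∨ A i i = -1 := by
    intro i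
    have h5 : (A ^ 2) i i = 1 := by rw [h2]; simp
    rw [hAd, Matrix.diagonal_pow] at h5
    simp only [Matrix.diagonal_apply_eq, Pi.pow_apply] at h5
    have h6 : (A i i - 1) * (A i i + 1) = 0 := by linear_combination h5
    rcases mul_eq_zero.mp h6 with h | h
    · exact Or.inl (sub_eq_zero.mp h)
    · exact Or.inr (eq_neg_of_add_eq_zero_left h)
  have hd2 : A 0 0 * A 1 1 * A 2 2 * A 3 3 = -1 := by
    rw [hAd, Matrix.det_diagonal, Fin.prod_univ_four] at hd
    exact hd
  have ht2 : A 0 0 + A 1 1 + A 2 2 + A 3 3 = 0 := by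
    rw [Matrix.trace, Fin.sum_univ_four] at ht
    exact ht
  rcases hent 0 with h0 | h0 <;> rcases hent 1 with h1 | h1 <;> rcases hent 2 with h2 | h2 <;>
    rcases hent 3 with h3 | h3 <;> rw [h0, h1, h2, h3] at hd2 ht2 <;>
    first | (norm_num at hd2; done) | norm_num at ht2

end

end Pool.Agent.EF97
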