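import Pool.Agent.EF97.Angles
import Pool.Agent.EF97.Klein
import Pool.Agent.EF97.Eval

/-!
# The circle action, the angle functions and the open cover
-/

namespace Pool.Agent.EF97

open Topology unitInterval
open scoped ComplexConjugate Real
open Pool.Agent.MP_a0fe07 (phi phi_one IsUniversalBundle Orbits orb orb_eq_orb)

noncomputable section

/-! ## The circle in U(4) -/

/-- the matrix `diag (1, l, l ^ 2, l ^ 3)` for `l = exp (2 π i t)` -/
def hU (t : ℝ) : U4 := ⟨Matrix.diagonal fun i : Fin 4 => eu ((i : ℕ) * t), by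
  rw [Matrix.mem_unitaryGroup_iff, Matrix.star_eq_conjTranspose, Matrix.diagonal_conjTranspose,
    Matrix.diagonal_mul_diagonal, ← Matrix.diagonal_one]
  congr 1
  funext i
  rw [Pi.star_apply]
  change eu _ * conj (eu _) = 1
  rw [conj_eu, ← eu_add, add_neg_cancel, eu_zero]⟩

lemma hU_coe (t : ℝ) : (hU t : M4) = Matrix.diagonal fun i : Fin 4 => eu ((i : ℕ) * t) := rfl

lemma hU_add (a b : ℝ) : hU (a + b) = hU a * hU b := by
  apply Subtype.ext
  change (hU (a + b) : M4) = (hU a : M4) * (hU b : M4)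
  rw [hU_coe, hU_coe, hU_coe, Matrix.diagonal_mul_diagonal]
  congr 1
  funext i
  rw [← eu_add, mul_add]

lemma hU_int (n : ℤ) : hU n = 1 := by
  apply Subtype.ext
  change (hU n : M4) = 1
  rw [hU_coe, ← Matrix.diagonal_one]
  congr 1
  funext i
  have : (((i : ℕ) : ℝ) * (n : ℝ)) = (((i : ℕ) * n : ℤ) : ℝ) := by push_cast; ring
  rw [this, eu_int]

lemma hU_zero : hU 0 = 1 := by simpa using hU_int 0

lemma hU_one : hU 1 = 1 := by simpa using hU_int 1

lemma hU_inv (a : ℝ) : (hU a)⁻¹ = hU (-a) := by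
  rw [inv_eq_iff_mul_eq_one, ← hU_add, add_neg_cancel, hU_zero]

lemma hU_free {a : ℝ} (h : hU a = 1) : ∃ n : ℤ, a = n := by
  apply eu_eq_one_iff.mp
  have h1 := congrArg (fun g : U4 => (g : M4) 1 1) h
  simp only [hU_coe, Matrix.diagonal_apply_eq] at h1
  have h2 : ((1 : U4) : M4) 1 1 = 1 := by
    change (1 : M4) 1 1 = 1
    simp
  rw [h2] at h1
  simpa using h1

lemma continuous_hU : Continuous hU := by
  apply Continuous.subtype_mk
  apply Continuous.matrix_diagonal
  rw [continuous_pi_iff]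
  intro i
  exact continuous_eu.comp (by fun_prop)

/-- the entries of a conjugate -/
lemma hU_conj (a : ℝ) (g : U4) (i j : Fin 4) :
    ((hU a * g * (hU a)⁻¹ : U4) : M4) i j = eu ((((i : ℕ) : ℤ) - ((j : ℕ) : ℤ) : ℤ) * a) *
      (g : M4) i j := by
  rw [hU_inv]
  change ((hU a : M4) * (g : M4) * (hU (-a) : M4)) i j = _
  rw [hU_coe, hU_coe, Matrix.mul_diagonal, Matrix.diagonal_mul]
  have : (((((i : ℕ) : ℤ) - ((j : ℕ) : ℤ) : ℤ) : ℝ) * a) = ((i : ℕ) : ℝ) * a + ((j : ℕ) : ℝ) * -a := by
    push_cast; ring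
  rw [this, eu_add]
  ring

/-! ## The action on `E × XX` -/

section Act

variable {E : Type*} [TopologicalSpace E] [MulAction U4 E] [ContinuousSMul U4 E]

variable (E) in
/-- the action of the circle -/
def actC : C(ℝ × (E × XX), E × XX) :=
  ⟨fun q => hU q.1 • q.2, (continuous_hU.comp continuous_fst).smul continuous_snd⟩

lemma actC_apply (a : ℝ) (p : E × XX) : actC E (a, p) = hU a • p := rfl

lemma circAct_actC : CircAct (actC E) where
  add a b p := by rw [actC_apply, actC_apply, actC_apply, hU_add, mul_smul]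
  zero p := by rw [actC_apply, hU_zero, one_smul]
  one p := by rw [actC_apply, hU_one, one_smul]

lemma rAct_actC (hE : IsUniversalBundle U4 E) : RAct (actC E) :=
  RAct.of_circ circAct_actC (fun a p h => hU_free (hE.free (congrArg Prod.fst h)))

lemma orb_actC (a : ℝ) (p : E × XX) : orb U4 (actC E (a, p)) = orb U4 p :=
  orb_eq_orb.mpr ⟨hU a, rfl⟩

/-! ## The functions -/

/-- the index set of the off-diagonal entries -/
abbrev JJ : Type := Bool × {ij : Fin 4 × Fin 4 // ij.1 ≠ ij.2}

/-- the off-diagonal entries of `x` and `y` -/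
def fJ (j : JJ) (p : E × XX) : ℂ :=
  if j.1 then (kx p.2 : M4) j.2.1.1 j.2.1.2 else (ky p.2 : M4) j.2.1.1 j.2.1.2

/-- the weights -/
def kJ (j : JJ) : ℤ := ((j.2.1.1 : ℕ) : ℤ) - ((j.2.1.2 : ℕ) : ℤ)

lemma kJ_ne_zero (j : JJ) : kJ j ≠ 0 := by
  intro h
  apply j.2.2
  rw [kJ, sub_eq_zero] at h
  exact Fin.ext (by exact_mod_cast h)

lemma continuous_fJ (j : JJ) : Continuous (fJ (E := E) j) := by
  unfold fJ
  have hx : Continuous fun p : E × XX => (kx p.2 : M4) :=
    continuous_coeU4.comp (kx.continuous.comp continuous_snd)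
  have hy : Continuous fun p : E × XX => (ky p.2 : M4) :=
    continuous_coeU4.comp (ky.continuous.comp continuous_snd)
  split_ifs
  · exact hx.matrix_elem _ _
  · exact hy.matrix_elem _ _

lemma fJ_act (j : JJ) (a : ℝ) (p : E × XX) : fJ j (actC E (a, p)) = eu (kJ j * a) * fJ j p := by
  rw [actC_apply]
  simp only [fJ, Prod.smul_snd, kx_smul, ky_smul, hU_conj, kJ]
  split_ifs <;> rfl

/-- the angle functions of the off-diagonal entries -/
def thJ (hE : IsUniversalBundle U4 E) (j : JJ) : Th (E × XX) :=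
  angTh phi (rAct_actC hE) (kJ j) (fJ j)

lemma thJ_weighted (hE : IsUniversalBundle U4 E) (j : JJ) : Weighted (actC E) (thJ hE j) :=
  angTh_weighted phi_one (kJ_ne_zero j) (fJ_act j)

/-- the list of the angle functions -/
def lJ (hE : IsUniversalBundle U4 E) : List (Th (E × XX)) :=
  (Finset.univ : Finset JJ).toList.map (thJ hE)

lemma lJ_weighted (hE : IsUniversalBundle U4 E) : ∀ θ ∈ lJ hE, Weighted (actC E) θ := by
  intro θ hθ
  obtain ⟨j, -, rfl⟩ := List.mem_map.mp hθ
  exact thJ_weighted hE j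

lemma thJ_mem (hE : IsUniversalBundle U4 E) (j : JJ) : thJ hE j ∈ lJ hE :=
  List.mem_map.mpr ⟨j, by simp, rfl⟩

variable (E) in
/-- the angle function of the first invariant function -/
def eta0 : Th (E × XX) := etaTh phi fun p => F0 p.2

variable (E) in
/-- the angle function of the second invariant function -/
def eta1 : Th (E × XX) := etaTh phi fun p => F1 p.2

lemma eta0_unweighted : Unweighted (actC E) (eta0 E) :=
  etaTh_unweighted fun a p => by rw [actC_apply, Prod.smul_snd, F0_smul]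

lemma eta1_unweighted : Unweighted (actC E) (eta1 E) :=
  etaTh_unweighted fun a p => by rw [actC_apply, Prod.smul_snd, F1_smul]

/-- the angle function takes the expected values -/
lemma angVal_etaTh {P : Type*} [TopologicalSpace P] (F : P → ℂ) : AngVal (etaTh phi F) F := by
  intro p a b hb hp
  have h1 : (etaTh phi F).fn p = phi ((a + b * ((1 : I) : ℝ)) - (a + b * ((0 : I) : ℝ))) := by
    apply etaTh_value p (w := 1) one_ne_zero (fun t : I => a + b * (t : ℝ))
    · intro t
      rw [hp, one_mul, eu]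
      congr 1
      push_cast
      ring
    · intro t
      have h2 : |(t : ℝ)| ≤ 1 := by
        rw [abs_of_nonneg t.2.1]; exact t.2.2
      have h3 : (a + b * (t : ℝ)) - (a + b * ((0 : I) : ℝ)) = b * t := by
        simp
      rw [h3, abs_mul]
      calc |b| * |(t : ℝ)| ≤ 1 / 8 * 1 := mul_le_mul hb h2 (abs_nonneg _) (by norm_num)
        _ < 1 / 4 := by norm_num
  rw [h1]
  congr 1
  simp

open Classical in
/-- the step function -/
def rr (p : E × XX) : ℚ :=
  if (ky p.2 : M4).det = -1 ∧ (ky p.2 : M4).trace.re ≤ 0 then 1 else 0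

lemma rr_act (a : ℝ) (p : E × XX) : rr (actC E (a, p)) = rr p := by
  have h1 : (ky (actC E (a, p)).2 : M4) = (hU a : M4) * (ky p.2 : M4) * (((hU a)⁻¹ : U4) : M4) := by
    rw [actC_apply, Prod.smul_snd, ky_smul]
    rfl
  rw [rr, rr, h1, U4_det_conj, U4_trace_conj]

/-! ## The cover -/

/-- the index set of the cover -/
abbrev CI : Type := Option (Option (JJ × ℂ × ℂ × ℂ))

/-- the cover -/
def VV : CI → Set (E × XX)
  | none => {p | (ky p.2 : M4).det ≠ -1 ∨ 0 < (ky p.2 : M4).trace.re}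
  | some none => {p | (ky p.2 : M4).det ≠ 1 ∧ (ky p.2 : M4).trace.re < 0}
  | some (some (j, u0, u1, u2)) => {p | 0 < (F0 p.2 * conj u0).re} ∩
      ({p | 0 < (F1 p.2 * conj u1).re} ∩ {p | 0 < (fJ j p * conj u2).re})

lemma isOpen_VV (i : CI) : IsOpen (VV i : Set (E × XX)) := by
  have hy : Continuous fun p : E × XX => (ky p.2 : M4) :=
    continuous_coeU4.comp (ky.continuous.comp continuous_snd)
  have hd : Continuous fun p : E × XX => (ky p.2 : M4).det := hy.matrix_det
  have ht : Continuous fun p : E × XX => (ky p.2 : M4).trace.re :=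
    Complex.continuous_re.comp hy.matrix_trace
  rcases i with _ | _ | ⟨j, u0, u1, u2⟩
  · exact (isOpen_ne.preimage hd).union (isOpen_Ioi.preimage ht)
  · exact (isOpen_ne.preimage hd).inter (isOpen_Iio.preimage ht)
  · have h : ∀ {f : E × XX → ℂ} (u : ℂ), Continuous f → IsOpen {p | 0 < (f p * u).re} := by
      intro f u hf
      exact isOpen_Ioi.preimage (Complex.continuous_re.comp (hf.mul continuous_const))
    exact (h _ (F0.continuous.comp continuous_snd)).inter
      ((h _ (F1.continuous.comp continuous_snd)).inter (h _ (continuous_fJ j)))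

lemma VV_cover (p : E × XX) : ∃ i : CI, p ∈ VV i := by
  by_cases h1 : (ky p.2 : M4).det ≠ -1 ∨ 0 < (ky p.2 : M4).trace.re
  · exact ⟨none, h1⟩
  push Not at h1
  obtain ⟨hd, ht⟩ := h1
  rcases ht.lt_or_eq with h2 | h2
  · exact ⟨some none, by rw [hd]; norm_num, h2⟩
  have ht0 : (ky p.2 : M4).trace = 0 := Complex.ext h2 (trace_ky_im p.2)
  obtain ⟨u0, -, hu0⟩ := exists_quarter (F0_ne_zero hd ht0)
  obtain ⟨u1, -, hu1⟩ := exists_quarter (F1_ne_zero hd ht0)
  obtain ⟨i, j, hij, hf⟩ := exists_offdiag hd ht0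
  rcases hf with hf | hf
  · obtain ⟨u2, -, hu2⟩ := exists_quarter hf
    exact ⟨some (some ((true, ⟨(i, j), hij⟩), u0, u1, u2)), hu0, hu1, by simpa [fJ] using hu2⟩
  · obtain ⟨u2, -, hu2⟩ := exists_quarter hf
    exact ⟨some (some ((false, ⟨(i, j), hij⟩), u0, u1, u2)), hu0, hu1, by simpa [fJ] using hu2⟩

lemma ClosedOn.mono {P : Type*} [TopologicalSpace P] {θ : Th P} {V W : Set P} (h : ClosedOn θ W)
    (hVW : V ⊆ W) : ClosedOn θ V := by
  obtain ⟨ψ, hψ⟩ := h
  exact ⟨ψ, fun p hp => hψ p fun t => hVW (hp t)⟩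

theorem VV_good (hE : IsUniversalBundle U4 E) (i : CI) :
    (∀ p ∈ (VV i : Set (E × XX)), ∀ q ∈ (VV i : Set (E × XX)), rr p = rr q) ∨
      (ClosedOn (eta0 E) (VV i) ∧ ClosedOn (eta1 E) (VV i) ∧
        ∃ θ ∈ lJ hE, ClosedOn θ (VV i)) := by
  rcases i with _ | _ | ⟨j, u0, u1, u2⟩
  · left
    have h : ∀ p ∈ (VV none : Set (E × XX)), rr p = 0 := by
      intro p hp
      rw [rr, if_neg]
      rintro ⟨h1, h2⟩
      rcases hp with h3 | h3
      · exact h3 h1
      · exact absurd h2 (not_le.mpr h3)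
    intro p hp q hq
    rw [h p hp, h q hq]
  · left
    have h : ∀ p ∈ (VV (some none) : Set (E × XX)), rr p = 1 := by
      intro p hp
      rw [rr, if_pos]
      exact ⟨(det_ky p.2).resolve_left hp.1, hp.2.le⟩
    intro p hp q hq
    rw [h p hp, h q hq]
  · right
    exact ⟨(etaTh_closed u0).mono fun p hp => hp.1, (etaTh_closed u1).mono fun p hp => hp.2.1,
      thJ hE j, thJ_mem hE j,
      (angTh_closed (continuous_fJ j) (fJ_act j) u2).mono fun p hp => hp.2.2⟩

end Act

end

end Pool.Agent.EF97
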