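import Pool.Agent.MP_a0fe07.Pages

/-!
# Cubical chains with cubes indexed by the Hilbert cube

A cube of dimension `n` in `Y` is a continuous map `(ℕ → I) → Y` that depends only on the first `n`
coordinates. `Ch Y` is the total rational chain module modulo degenerate cubes (cubes of positive
dimension that do not depend on their last coordinate).
-/

namespace Pool.Agent.EF97

open Topology unitInterval

noncomputable section

/-- the Hilbert cube -/
abbrev Q : Type := ℕ → I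

/-- insert `ε` at position `i` -/
def ins (i : ℕ) (ε : I) (s : Q) : Q := fun j => if j < i then s j else if j = i then ε else s (j - 1)

lemma continuous_ins (i : ℕ) (ε : I) : Continuous (ins i ε) := by
  rw [continuous_pi_iff]
  intro j
  unfold ins
  split_ifs <;> fun_prop

/-- `ins` as a continuous map -/
def insC (i : ℕ) (ε : I) : C(Q, Q) := ⟨ins i ε, continuous_ins i ε⟩

@[simp] lemma insC_apply (i : ℕ) (ε : I) (s : Q) : insC i ε s = ins i ε s := rfl

lemma ins_of_lt {i j : ℕ} (h : j < i) (ε : I) (s : Q) : ins i ε s j = s j := by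
  simp [ins, h]

@[simp] lemma ins_self (i : ℕ) (ε : I) (s : Q) : ins i ε s i = ε := by
  simp [ins]

lemma ins_of_gt {i j : ℕ} (h : i < j) (ε : I) (s : Q) : ins i ε s j = s (j - 1) := by
  have h1 : ¬ j < i := by omega
  have h2 : j ≠ i := by omega
  simp [ins, h1, h2]

lemma ins_succ_gt {i j : ℕ} (h : i ≤ j) (ε : I) (s : Q) : ins i ε s (j + 1) = s j := by
  rw [ins_of_gt (by omega)]; simp

lemma ins_ins {i j : ℕ} (h : i ≤ j) (a b : I) (s : Q) :
    ins i a (ins j b s) = ins (j + 1) b (ins i a s) := by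
  funext k
  rcases lt_trichotomy k i with hk | hk | hk
  · rw [ins_of_lt hk, ins_of_lt (by omega), ins_of_lt (by omega), ins_of_lt hk]
  · subst hk
    rw [ins_self, ins_of_lt (by omega), ins_self]
  · rw [ins_of_gt hk]
    rcases lt_trichotomy (k - 1) j with hk2 | hk2 | hk2
    · rw [ins_of_lt hk2, ins_of_lt (by omega), ins_of_gt hk]
    · rw [hk2, ins_self]
      have : k = j + 1 := by omega
      subst this
      rw [ins_self]
    · rw [ins_of_gt hk2, ins_of_gt (by omega), ins_of_gt (by omega)]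

lemma ins_zero_zero (i : ℕ) : ins i 0 (0 : Q) = 0 := by
  funext j; simp [ins]

/-- cubes -/
@[ext] structure Cb (Y : Type*) [TopologicalSpace Y] where
  /-- the dimension -/
  n : ℕ
  /-- the map -/
  f : C(Q, Y)
  dep : ∀ s t : Q, (∀ i < n, s i = t i) → f s = f t

variable {d : Bool} {Y Z P R : Type*} [TopologicalSpace Y] [TopologicalSpace Z] [TopologicalSpace P]
  [TopologicalSpace R]

/-- degenerate cubes: positive dimension and independent of the last coordinate -/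
def Cb.Deg (u : Cb Y) : Prop := 0 < u.n ∧ ∀ s t : Q, (∀ i < u.n - 1, s i = t i) → u.f s = u.f t

variable (d Y) in
/-- the span of the degenerate cubes if `d = true`, zero otherwise -/
def degSub : Submodule ℚ (Cb Y →₀ ℚ) :=
  Submodule.span ℚ {x | ∃ u : Cb Y, (d = true ∧ u.Deg) ∧ x = Finsupp.single u 1}

variable (d Y) in
/-- chains: normalised if `d = true`, not normalised if `d = false` -/
def Chd : Type _ := (Cb Y →₀ ℚ) ⧸ degSub d Y

variable (Y) in
/-- normalised chains -/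
abbrev Ch : Type _ := Chd true Y

variable (Y) in
/-- chains that are not normalised -/
abbrev Cu : Type _ := Chd false Y

instance : AddCommGroup (Chd d Y) := inferInstanceAs (AddCommGroup ((Cb Y →₀ ℚ) ⧸ degSub d Y))
instance : Module ℚ (Chd d Y) := inferInstanceAs (Module ℚ ((Cb Y →₀ ℚ) ⧸ degSub d Y))

variable (d Y) in
/-- the quotient map -/
def mkCh : (Cb Y →₀ ℚ) →ₗ[ℚ] Chd d Y := (degSub d Y).mkQ

lemma mkCh_surjective : Function.Surjective (mkCh d Y) := (degSub d Y).mkQ_surjective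

lemma mkCh_eq_zero {x : Cb Y →₀ ℚ} (h : x ∈ degSub d Y) : mkCh d Y x = 0 :=
  (Submodule.Quotient.mk_eq_zero (degSub d Y)).mpr h

/-- the chain of a cube -/
def cb (u : Cb Y) : Chd d Y := mkCh d Y (Finsupp.single u 1)

lemma cb_deg' {u : Cb Y} (h : d = true ∧ u.Deg) : (cb u : Chd d Y) = 0 :=
  mkCh_eq_zero (Submodule.subset_span ⟨u, h, rfl⟩)

lemma cb_deg {u : Cb Y} (h : u.Deg) : (cb u : Ch Y) = 0 := cb_deg' ⟨rfl, h⟩

section Lift
variable {M : Type*} [AddCommGroup M] [Module ℚ M]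

/-- linear maps out of chains -/
def lift (φ : Cb Y → M) (h : ∀ u : Cb Y, (d = true ∧ u.Deg) → φ u = 0) : Chd d Y →ₗ[ℚ] M :=
  (degSub d Y).liftQ (Finsupp.lift M ℚ (Cb Y) φ) (by
    rw [degSub, Submodule.span_le]
    rintro _ ⟨u, hu, rfl⟩
    simp [h u hu])

@[simp] lemma lift_cb (φ : Cb Y → M) (h : ∀ u : Cb Y, (d = true ∧ u.Deg) → φ u = 0)
    (u : Cb Y) : lift φ h (cb u : Chd d Y) = φ u := by
  change (Finsupp.lift M ℚ (Cb Y) φ) (Finsupp.single u 1) = φ u
  simp

lemma cb_mem_induction {S : Submodule ℚ (Chd d Y)} (h : ∀ u : Cb Y, cb u ∈ S) (x : Chd d Y) :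
    x ∈ S := by
  obtain ⟨x, rfl⟩ := mkCh_surjective x
  induction x using Finsupp.induction_linear with
  | zero => rw [map_zero]; exact S.zero_mem
  | add x y hx hy => rw [map_add]; exact S.add_mem hx hy
  | single u c =>
    have : Finsupp.single u c = c • Finsupp.single u (1 : ℚ) := by simp
    rw [this, map_smul]
    exact S.smul_mem c (h u)

lemma hom_ext {f g : Chd d Y →ₗ[ℚ] M} (h : ∀ u : Cb Y, f (cb u) = g (cb u)) : f = g := by
  apply LinearMap.ext
  intro x
  have := cb_mem_induction (S := LinearMap.eqLocus f g) (fun u => h u) x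
  exact this

end Lift

/-! ## Faces and the boundary -/

/-- the face with `i`-th coordinate `ε` -/
def Cb.face (i : ℕ) (ε : I) (u : Cb Y) : Cb Y where
  n := if i < u.n then u.n - 1 else u.n
  f := u.f.comp (insC i ε)
  dep s t h := by
    apply u.dep
    intro j hj
    simp only [insC_apply]
    rcases lt_trichotomy j i with hk | hk | hk
    · rw [ins_of_lt hk, ins_of_lt hk]
      apply h
      split_ifs <;> omega
    · subst hk; simp
    · rw [ins_of_gt hk, ins_of_gt hk]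
      apply h
      split_ifs <;> omega

@[simp] lemma Cb.face_f (i : ℕ) (ε : I) (u : Cb Y) (s : Q) : (u.face i ε).f s = u.f (ins i ε s) := rfl

lemma Cb.face_n_lt {i : ℕ} {ε : I} {u : Cb Y} (h : i < u.n) : (u.face i ε).n = u.n - 1 := by
  simp [Cb.face, h]

lemma Cb.face_n_ge {i : ℕ} {ε : I} {u : Cb Y} (h : u.n ≤ i) : (u.face i ε).n = u.n := by
  simp [Cb.face, not_lt.mpr h]

lemma Cb.face_ge {i : ℕ} {ε : I} {u : Cb Y} (h : u.n ≤ i) : u.face i ε = u := by
  ext1
  · exact Cb.face_n_ge h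
  · ext1 s
    apply u.dep
    intro j hj
    exact ins_of_lt (by omega) _ _

lemma Cb.face_face {i j : ℕ} (h : i ≤ j) (a b : I) (u : Cb Y) :
    (u.face i a).face j b = (u.face (j + 1) b).face i a := by
  ext1
  · simp only [Cb.face]
    split_ifs <;> omega
  · ext1 s
    simp only [Cb.face_f]
    rw [ins_ins h]

lemma Cb.Deg.face {u : Cb Y} (hu : u.Deg) {i : ℕ} (ε : I) (hi : i < u.n - 1) :
    (u.face i ε).Deg := by
  obtain ⟨h0, h⟩ := hu
  refine ⟨?_, ?_⟩
  · rw [Cb.face_n_lt (by omega)]; omega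
  · intro s t hst
    rw [Cb.face_n_lt (by omega)] at hst
    simp only [Cb.face_f]
    apply h
    intro j hj
    rcases lt_trichotomy j i with hk | hk | hk
    · rw [ins_of_lt hk, ins_of_lt hk]
      exact hst j (by omega)
    · subst hk; simp
    · rw [ins_of_gt hk, ins_of_gt hk]
      exact hst _ (by omega)

lemma Cb.Deg.face_last {u : Cb Y} (hu : u.Deg) {i : ℕ} (hi : u.n - 1 ≤ i) (a b : I) :
    u.face i a = u.face i b := by
  ext1
  · simp [Cb.face]
  · ext1 s
    simp only [Cb.face_f]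
    apply hu.2
    intro j hj
    rw [ins_of_lt (by omega), ins_of_lt (by omega)]

/-- `∂_i` -/
def bdi (i : ℕ) : Chd d Y →ₗ[ℚ] Chd d Y := lift (fun u => cb (u.face i 1) - cb (u.face i 0)) (by
  rintro u ⟨hd, hu⟩
  by_cases hi : i < u.n - 1
  · rw [cb_deg' ⟨hd, hu.face 1 hi⟩, cb_deg' ⟨hd, hu.face 0 hi⟩, sub_zero]
  · rw [hu.face_last (not_lt.mp hi) 1 0, sub_self])

@[simp] lemma bdi_cb (i : ℕ) (u : Cb Y) : bdi i (cb u : Chd d Y) = cb (u.face i 1) - cb (u.face i 0) := by
  simp [bdi]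

lemma bdi_cb_ge {i : ℕ} {u : Cb Y} (h : u.n ≤ i) : bdi i (cb u : Chd d Y) = 0 := by
  rw [bdi_cb, Cb.face_ge h, Cb.face_ge h, sub_self]

lemma bdi_bdi {i j : ℕ} (h : i ≤ j) (x : Chd d Y) : bdi j (bdi i x) = bdi i (bdi (j + 1) x) := by
  have : (bdi j ∘ₗ bdi i : Chd d Y →ₗ[ℚ] Chd d Y) = bdi i ∘ₗ bdi (j + 1) := by
    apply hom_ext
    intro u
    simp only [LinearMap.comp_apply, bdi_cb, map_sub]
    rw [Cb.face_face h, Cb.face_face h, Cb.face_face h, Cb.face_face h]
    abel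
  exact congrArg (fun f => f x) this

/-- the boundary -/
def bd : Chd d Y →ₗ[ℚ] Chd d Y :=
  lift (fun u => ∑ i ∈ Finset.range u.n, (-1 : ℚ) ^ i • bdi i (cb u)) (by
    intro u hu
    apply Finset.sum_eq_zero
    intro i _
    rw [cb_deg' hu, map_zero, smul_zero])

lemma bd_cb (u : Cb Y) :
    bd (cb u : Chd d Y) = ∑ i ∈ Finset.range u.n, (-1 : ℚ) ^ i • bdi i (cb u) := by
  simp [bd]

lemma bd_cb_of_le {u : Cb Y} {m : ℕ} (h : u.n ≤ m) :
    bd (cb u : Chd d Y) = ∑ i ∈ Finset.range m, (-1 : ℚ) ^ i • bdi i (cb u) := by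
  rw [bd_cb]
  apply Finset.sum_subset
  · intro i hi; simp at hi ⊢; omega
  · intro i _ hi
    simp at hi
    rw [bdi_cb_ge hi, smul_zero]

/-! ## Homogeneous chains -/

variable (Y) in
/-- chains of dimension `n` -/
def hom (n : ℕ) : Submodule ℚ (Chd d Y) := Submodule.span ℚ {x | ∃ u : Cb Y, u.n = n ∧ x = cb u}

lemma cb_mem_hom {u : Cb Y} {n : ℕ} (h : u.n = n) : (cb u : Chd d Y) ∈ hom Y n :=
  Submodule.subset_span ⟨u, h, rfl⟩

lemma map_mem_hom {f : Chd d Y →ₗ[ℚ] Chd d Z} {n m : ℕ} (h : ∀ u : Cb Y, u.n = n → f (cb u) ∈ hom Z m)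
    {x : Chd d Y} (hx : x ∈ hom Y n) : f x ∈ hom Z m := by
  have : hom Y n ≤ (hom Z m).comap f := by
    rw [hom, Submodule.span_le]
    rintro _ ⟨u, hu, rfl⟩
    exact h u hu
  exact this hx

lemma bdi_cb_mem {i n : ℕ} {u : Cb Y} (hu : u.n = n + 1) (hi : i < n + 1) :
    bdi i (cb u : Chd d Y) ∈ hom Y n := by
  rw [bdi_cb]
  apply Submodule.sub_mem
  · apply cb_mem_hom; rw [Cb.face_n_lt (by omega)]; omega
  · apply cb_mem_hom; rw [Cb.face_n_lt (by omega)]; omega

lemma bd_eq_of_hom {n : ℕ} {x : Chd d Y} (hx : x ∈ hom Y n) :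
    bd x = ∑ i ∈ Finset.range n, (-1 : ℚ) ^ i • bdi i x := by
  have : (hom Y n : Submodule ℚ (Chd d Y)) ≤ LinearMap.eqLocus bd (∑ i ∈ Finset.range n, (-1 : ℚ) ^ i • bdi i) := by
    rw [hom, Submodule.span_le]
    rintro _ ⟨u, hu, rfl⟩
    change bd (cb u) = _
    rw [bd_cb_of_le hu.le]
    simp [LinearMap.sum_apply]
  have h := this hx
  change bd x = _ at h
  rw [h]
  simp [LinearMap.sum_apply]

lemma bd_mem_hom {n : ℕ} {x : Chd d Y} (hx : x ∈ hom Y (n + 1)) : bd x ∈ hom Y n := by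
  apply map_mem_hom (f := bd) _ hx
  intro u hu
  rw [bd_cb]
  apply Submodule.sum_mem
  intro i hi
  apply Submodule.smul_mem
  apply bdi_cb_mem hu
  simp at hi; omega

lemma bd_hom_zero {x : Chd d Y} (hx : x ∈ hom Y 0) : bd x = 0 := by
  rw [bd_eq_of_hom hx]; simp

/-- the alternating double sum vanishes -/
lemma alt_sum {M : Type*} [AddCommGroup M] [Module ℚ M] (n : ℕ) (F : ℕ → ℕ → M)
    (h : ∀ i j, i ≤ j → F j i = F i (j + 1)) :
    ∑ j ∈ Finset.range (n + 1), ∑ i ∈ Finset.range n, (-1 : ℚ) ^ (i + j) • F i j = 0 := by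
  -- `F i j` is the operator `∂_i ∂_j`
  have h1 : ∀ j ∈ Finset.range (n + 1), ∑ i ∈ Finset.range n, (-1 : ℚ) ^ (i + j) • F i j =
      ∑ i ∈ (Finset.range n).filter (fun i => i < j), (-1 : ℚ) ^ (i + j) • F i j +
      ∑ i ∈ (Finset.range n).filter (fun i => ¬ i < j), (-1 : ℚ) ^ (i + j) • F i j := by
    intro j _
    exact (Finset.sum_filter_add_sum_filter_not _ _ _).symm
  rw [Finset.sum_congr rfl h1, Finset.sum_add_distrib]
  rw [Finset.sum_sigma', Finset.sum_sigma']
  rw [add_eq_zero_iff_eq_neg, ← Finset.sum_neg_distrib]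
  refine Finset.sum_bij' (fun x _ => ⟨x.2, x.1 - 1⟩) (fun x _ => ⟨x.2 + 1, x.1⟩) ?_ ?_ ?_ ?_ ?_
  · rintro ⟨j, i⟩ hx
    simp at hx ⊢
    omega
  · rintro ⟨j, i⟩ hx
    simp at hx ⊢
    omega
  · rintro ⟨j, i⟩ hx
    simp at hx ⊢
    omega
  · rintro ⟨j, i⟩ hx
    simp at hx ⊢
  · rintro ⟨j, i⟩ hx
    simp only [Finset.mem_sigma, Finset.mem_range, Finset.mem_filter] at hx
    obtain ⟨k, rfl⟩ : ∃ k, j = k + 1 := ⟨j - 1, by omega⟩
    simp only [Nat.add_sub_cancel]
    rw [← h i k (by omega), ← neg_smul]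
    congr 1
    ring

theorem bd_bd (x : Chd d Y) : bd (bd x) = 0 := by
  have : (bd ∘ₗ bd : Chd d Y →ₗ[ℚ] Chd d Y) = 0 := by
    apply hom_ext
    intro u
    simp only [LinearMap.comp_apply, LinearMap.zero_apply]
    rcases hn : u.n with _ | n
    · have : bd (cb u : Chd d Y) = 0 := bd_hom_zero (cb_mem_hom hn)
      rw [this, map_zero]
    · rw [bd_eq_of_hom (bd_mem_hom (cb_mem_hom hn)), bd_cb, hn]
      have := alt_sum n (fun i j => bdi i (bdi j (cb u : Chd d Y))) (fun i j hij => bdi_bdi hij _)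
      rw [Finset.sum_comm] at this
      rw [← this]
      apply Finset.sum_congr rfl
      intro i _
      rw [map_sum, Finset.smul_sum]
      apply Finset.sum_congr rfl
      intro j _
      rw [map_smul, smul_smul, pow_add]
  exact congrArg (fun f => f x) this

/-! ## Push forward, sign, augmentation, support -/

/-- image of a cube -/
def Cb.push (g : C(Y, Z)) (u : Cb Y) : Cb Z where
  n := u.n
  f := g.comp u.f
  dep s t h := congrArg g (u.dep s t h)

@[simp] lemma Cb.push_n (g : C(Y, Z)) (u : Cb Y) : (u.push g).n = u.n := rfl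
@[simp] lemma Cb.push_f (g : C(Y, Z)) (u : Cb Y) (s : Q) : (u.push g).f s = g (u.f s) := rfl

lemma Cb.Deg.push {u : Cb Y} (hu : u.Deg) (g : C(Y, Z)) : (u.push g).Deg :=
  ⟨hu.1, fun s t h => congrArg g (hu.2 s t h)⟩

/-- push forward of chains -/
def push (g : C(Y, Z)) : Chd d Y →ₗ[ℚ] Chd d Z :=
  lift (fun u => cb (u.push g)) (fun _ hu => cb_deg' ⟨hu.1, hu.2.push g⟩)

@[simp] lemma push_cb (g : C(Y, Z)) (u : Cb Y) : push g (cb u : Chd d Y) = cb (u.push g) := by
  simp [push]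

lemma bdi_push (i : ℕ) (g : C(Y, Z)) (x : Chd d Y) : bdi i (push g x) = push g (bdi i x) := by
  have : (bdi i ∘ₗ push g : Chd d Y →ₗ[ℚ] Chd d Z) = push g ∘ₗ bdi i := by
    apply hom_ext
    intro u
    simp only [LinearMap.comp_apply, bdi_cb, push_cb, map_sub]
    rfl
  exact congrArg (fun f => f x) this

lemma bd_push (g : C(Y, Z)) (x : Chd d Y) : bd (push g x) = push g (bd x) := by
  have : (bd ∘ₗ push g : Chd d Y →ₗ[ℚ] Chd d Z) = push g ∘ₗ bd := by
    apply hom_ext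
    intro u
    simp only [LinearMap.comp_apply, push_cb]
    rw [bd_cb, bd_cb, map_sum]
    apply Finset.sum_congr rfl
    intro i _
    rw [← push_cb, bdi_push, map_smul]
  exact congrArg (fun f => f x) this

lemma push_mem_hom (g : C(Y, Z)) {n : ℕ} {x : Chd d Y} (hx : x ∈ hom Y n) : push g x ∈ hom Z n := by
  apply map_mem_hom (f := push g) _ hx
  intro u hu
  rw [push_cb]
  exact cb_mem_hom hu

/-- the sign operator -/
def sg : Chd d Y →ₗ[ℚ] Chd d Y := lift (fun u => (-1 : ℚ) ^ u.n • cb u) (fun u hu => by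
  rw [cb_deg' hu, smul_zero])

@[simp] lemma sg_cb (u : Cb Y) : sg (cb u : Chd d Y) = (-1 : ℚ) ^ u.n • cb u := by simp [sg]

lemma sg_of_hom {n : ℕ} {x : Chd d Y} (hx : x ∈ hom Y n) : sg x = (-1 : ℚ) ^ n • x := by
  have : (hom Y n : Submodule ℚ (Chd d Y)) ≤ LinearMap.eqLocus sg ((-1 : ℚ) ^ n • LinearMap.id) := by
    rw [hom, Submodule.span_le]
    rintro _ ⟨u, hu, rfl⟩
    change sg (cb u) = _
    rw [sg_cb, hu]
    rfl
  exact this hx

lemma sg_sg (x : Chd d Y) : sg (sg x) = x := by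
  have : (sg ∘ₗ sg : Chd d Y →ₗ[ℚ] Chd d Y) = LinearMap.id := by
    apply hom_ext
    intro u
    simp only [LinearMap.comp_apply, LinearMap.id_apply, sg_cb, map_smul]
    rw [smul_smul, ← mul_pow]
    simp
  exact congrArg (fun f => f x) this

lemma sg_bd (x : Chd d Y) : sg (bd x) = - bd (sg x) := by
  have : (sg ∘ₗ bd : Chd d Y →ₗ[ℚ] Chd d Y) = - (bd ∘ₗ sg) := by
    apply hom_ext
    intro u
    simp only [LinearMap.comp_apply, LinearMap.neg_apply]
    rcases hn : u.n with _ | n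
    · have h0 : bd (cb u : Chd d Y) = 0 := bd_hom_zero (cb_mem_hom hn)
      rw [h0, sg_cb, map_smul, h0]; simp
    · rw [sg_of_hom (bd_mem_hom (cb_mem_hom hn)), sg_cb, map_smul, hn, pow_succ]
      simp
  exact congrArg (fun f => f x) this

/-- the augmentation -/
def aug : Chd d Y →ₗ[ℚ] ℚ := lift (fun u => if u.n = 0 then 1 else 0) (fun u hu => by
  have := hu.2.1
  rw [if_neg (by omega)])

@[simp] lemma aug_cb (u : Cb Y) : aug (cb u : Chd d Y) = if u.n = 0 then 1 else 0 := by simp [aug]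

lemma aug_bd (x : Chd d Y) : aug (bd x) = 0 := by
  have : (aug ∘ₗ bd : Chd d Y →ₗ[ℚ] ℚ) = 0 := by
    apply hom_ext
    intro u
    simp only [LinearMap.comp_apply, LinearMap.zero_apply]
    rw [bd_cb, map_sum]
    apply Finset.sum_eq_zero
    intro i _
    have h1 : (u.face i 1).n = (u.face i 0).n := rfl
    rw [map_smul, bdi_cb, map_sub, aug_cb, aug_cb, h1, sub_self, smul_zero]
  exact congrArg (fun f => f x) this

/-- chains supported in a set -/
def on (V : Set Y) : Submodule ℚ (Chd d Y) :=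
  Submodule.span ℚ {x | ∃ u : Cb Y, (∀ s, u.f s ∈ V) ∧ x = cb u}

lemma cb_mem_on {V : Set Y} {u : Cb Y} (h : ∀ s, u.f s ∈ V) : (cb u : Chd d Y) ∈ on V :=
  Submodule.subset_span ⟨u, h, rfl⟩

lemma on_mono {V W : Set Y} (h : V ⊆ W) : (on V : Submodule ℚ (Chd d Y)) ≤ on W := by
  apply Submodule.span_mono
  rintro _ ⟨u, hu, rfl⟩
  exact ⟨u, fun s => h (hu s), rfl⟩

lemma map_mem_on {f : Chd d Y →ₗ[ℚ] Chd d Z} {V : Set Y} {W : Set Z}
    (h : ∀ u : Cb Y, (∀ s, u.f s ∈ V) → f (cb u) ∈ on W)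
    {x : Chd d Y} (hx : x ∈ on V) : f x ∈ on W := by
  have : on V ≤ (on W).comap f := by
    rw [on, Submodule.span_le]
    rintro _ ⟨u, hu, rfl⟩
    exact h u hu
  exact this hx

lemma eq_on {M : Type*} [AddCommGroup M] [Module ℚ M] {f g : Chd d Y →ₗ[ℚ] M} {V : Set Y}
    (h : ∀ u : Cb Y, (∀ s, u.f s ∈ V) → f (cb u) = g (cb u))
    {x : Chd d Y} (hx : x ∈ on V) : f x = g x := by
  have : on V ≤ LinearMap.eqLocus f g := by
    rw [on, Submodule.span_le]
    rintro _ ⟨u, hu, rfl⟩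
    exact h u hu
  exact this hx

lemma bdi_mem_on (i : ℕ) {V : Set Y} {x : Chd d Y} (hx : x ∈ on V) : bdi i x ∈ on V := by
  apply map_mem_on (f := bdi i) _ hx
  intro u hu
  rw [bdi_cb]
  exact Submodule.sub_mem _ (cb_mem_on fun s => hu _) (cb_mem_on fun s => hu _)

lemma bd_mem_on {V : Set Y} {x : Chd d Y} (hx : x ∈ on V) : bd x ∈ on V := by
  apply map_mem_on (f := bd) _ hx
  intro u hu
  rw [bd_cb]
  exact Submodule.sum_mem _ fun i _ => Submodule.smul_mem _ _ (bdi_mem_on i (cb_mem_on hu))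

end

end Pool.Agent.EF97
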