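import Pool.Agent.EF97.Prism
import Pool.Agent.MP_a0fe07.Lift

/-!
# Collapse implies injectivity on chains

If the Serre spectral sequence of the homotopy orbit space of `X` collapses at `E_2` and `G` is path
connected, then a cycle `z` of dimension `n ≥ 2` of `E × X` whose push forward to the homotopy orbit
space is the zero chain is a boundary.
-/

namespace Pool.Agent.EF97

open Topology unitInterval
open Pool.Agent.MP_a0fe07

noncomputable section

/-! ## Cubes indexed by the Hilbert cube and singular cubes -/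

section Translate

variable {Y : Type*} [TopologicalSpace Y]

/-- the first `n` coordinates -/
def restC (n : ℕ) : C(Q, Fin n → I) := ⟨fun s i => s i, by fun_prop⟩

@[simp] lemma restC_apply (n : ℕ) (s : Q) (i : Fin n) : restC n s i = s i := rfl

/-- extension by zero -/
def extC (n : ℕ) : C(Fin n → I, Q) := ⟨fun s i => if h : i < n then s ⟨i, h⟩ else 0, by
  rw [continuous_pi_iff]
  intro i
  by_cases h : i < n
  · simp only [h, dite_true]
    fun_prop
  · simp only [h, dite_false]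
    fun_prop⟩

lemma extC_of_lt {n : ℕ} (s : Fin n → I) {i : ℕ} (h : i < n) : extC n s i = s ⟨i, h⟩ := by
  simp [extC, h]

lemma extC_of_ge {n : ℕ} (s : Fin n → I) {i : ℕ} (h : n ≤ i) : extC n s i = 0 := by
  simp [extC, not_lt.mpr h]

/-- a singular cube as a cube -/
def toCb {n : ℕ} (u : SCube Y n) : Cb Y :=
  ⟨n, u.comp (restC n), fun _ _ h => congrArg u (funext fun i => h i i.2)⟩

@[simp] lemma toCb_n {n : ℕ} (u : SCube Y n) : (toCb u).n = n := rfl
@[simp] lemma toCb_f {n : ℕ} (u : SCube Y n) (s : Q) : (toCb u).f s = u (restC n s) := rfl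

/-- a cube as a singular cube -/
def ofCb (n : ℕ) (u : Cb Y) : SCube Y n := u.f.comp (extC n)

@[simp] lemma ofCb_apply (n : ℕ) (u : Cb Y) (s : Fin n → I) : ofCb n u s = u.f (extC n s) := rfl

lemma toCb_ofCb {n : ℕ} {u : Cb Y} (h : u.n = n) : toCb (ofCb n u) = u := by
  ext1
  · exact h.symm
  · ext1 s
    rw [toCb_f, ofCb_apply]
    apply u.dep
    intro i hi
    rw [extC_of_lt _ (by omega)]
    rfl

lemma insertNth_rest {n : ℕ} (i : Fin (n + 1)) (ε : I) (s : Q) :
    (i.insertNth ε (restC n s) : Fin (n + 1) → I) = restC (n + 1) (ins i ε s) := by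
  funext k
  rcases eq_or_ne k i with rfl | hki
  · simp
  · obtain ⟨k, rfl⟩ := Fin.exists_succAbove_eq hki
    rw [Fin.insertNth_apply_succAbove]
    simp only [restC_apply]
    by_cases hlt : (k : ℕ) < (i : ℕ)
    · rw [Fin.succAbove_of_castSucc_lt _ _ (by rw [Fin.lt_def]; simpa using hlt), Fin.val_castSucc,
        ins_of_lt hlt]
    · rw [Fin.succAbove_of_le_castSucc _ _ (by rw [Fin.le_def]; simpa using not_lt.mp hlt),
        Fin.val_succ, ins_succ_gt (not_lt.mp hlt)]

lemma toCb_face {n : ℕ} (i : Fin (n + 1)) (ε : I) (u : SCube Y (n + 1)) :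
    toCb (face i ε u) = (toCb u).face i ε := by
  have hi := i.is_lt
  ext1
  · rw [Cb.face_n_lt (by rw [toCb_n]; omega)]
    simp
  · ext1 s
    rw [toCb_f, Cb.face_f, toCb_f]
    change u (i.insertNth ε (restC n s)) = _
    rw [insertNth_rest]

lemma ofCb_face {n : ℕ} (i : Fin (n + 1)) (ε : I) {u : Cb Y} (h : u.n = n + 1) :
    ofCb n (u.face i ε) = face i ε (ofCb (n + 1) u) := by
  ext1 s
  rw [ofCb_apply, Cb.face_f]
  change _ = u.f (extC (n + 1) (i.insertNth ε s))
  apply u.dep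
  intro j hj
  rw [h] at hj
  rw [extC_of_lt _ hj]
  have h1 : s = restC n (extC n s) := by
    funext k
    rw [restC_apply, extC_of_lt _ k.2]
  conv_rhs => rw [h1, insertNth_rest]
  rfl

lemma toCb_deg {n : ℕ} {u : SCube Y n} (h : Degenerate u) : (toCb u).Deg := by
  refine ⟨h.1, fun s t hst => ?_⟩
  rw [toCb_f, toCb_f]
  exact h.2 _ _ fun i hi => hst i hi

lemma ofCb_deg {n : ℕ} {u : Cb Y} (hn : u.n = n) (h : u.Deg) : Degenerate (ofCb n u) := by
  refine ⟨by have := h.1; omega, fun s t hst => ?_⟩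
  rw [ofCb_apply, ofCb_apply]
  apply h.2
  intro i hi
  rw [extC_of_lt _ (by omega), extC_of_lt _ (by omega)]
  exact hst _ (by simp only; omega)

/-- the functional on chains of a cochain -/
def ev {n : ℕ} (b : SCube Y n → ℚ) (hb : IsCochain b) : Ch Y →ₗ[ℚ] ℚ :=
  lift (fun u => if u.n = n then b (ofCb n u) else 0) (by
    rintro u ⟨-, hu⟩
    split_ifs with h
    · exact hb _ (ofCb_deg h hu)
    · rfl)

lemma ev_cb {n : ℕ} (b : SCube Y n → ℚ) (hb : IsCochain b) {u : Cb Y} (h : u.n = n) :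
    ev b hb (cb u) = b (ofCb n u) := by
  rw [ev, lift_cb, if_pos h]

lemma ev_bd {n : ℕ} (b : SCube Y n → ℚ) (hb : IsCochain b) (hc : cobd b = 0) {x : Ch Y}
    (hx : x ∈ hom Y (n + 1)) : ev b hb (bd x) = 0 := by
  have : (hom Y (n + 1) : Submodule ℚ (Ch Y)) ≤ LinearMap.ker (ev b hb ∘ₗ bd) := by
    rw [hom, Submodule.span_le]
    rintro _ ⟨u, hu, rfl⟩
    change ev b hb (bd (cb u)) = 0
    rw [bd_cb, map_sum, hu, ← Fin.sum_univ_eq_sum_range
      (fun i => ev b hb ((-1 : ℚ) ^ i • bdi i (cb u)))]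
    have h1 : cobd b (ofCb (n + 1) u) = 0 := by rw [hc]; rfl
    rw [← h1, cobd]
    apply Finset.sum_congr rfl
    intro i _
    have hi := i.is_lt
    rw [map_smul, bdi_cb, map_sub, ev_cb _ _ (by rw [Cb.face_n_lt (by omega)]; omega),
      ev_cb _ _ (by rw [Cb.face_n_lt (by omega)]; omega), ofCb_face i 1 hu, ofCb_face i 0 hu,
      smul_eq_mul]
  exact this hx

end Translate

/-! ## Collapse and vertical cubes -/

section Collapse

variable {Y B : Type*} [TopologicalSpace Y] [TopologicalSpace B] {π : C(Y, B)} {n : ℕ}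

lemma cobd_sub (f g : SCube Y n → ℚ) : cobd (f - g) = cobd f - cobd g := by
  funext u
  simp only [cobd, Pi.sub_apply, ← Finset.sum_sub_distrib]
  exact Finset.sum_congr rfl fun i _ => by ring

/-- if the spectral sequence collapses then the restriction to vertical cubes of an element of
`Z_2^0` extends to a cocycle -/
lemma exists_cocycle (hcol : CollapsesAtE2 π) (x : SCube Y n → ℚ) (hx : InZ π 2 0 x) :
    ∃ b : SCube Y n → ℚ, IsCochain b ∧ cobd b = 0 ∧
      ∀ u : SCube Y n, DependsOnFirst 0 (fun s => π (u s)) → b u = x u := by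
  have key : ∀ k : ℕ, ∃ b : SCube Y n → ℚ, InZ π (2 + k) 0 b ∧
      ∀ u : SCube Y n, DependsOnFirst 0 (fun s => π (u s)) → b u = x u := by
    intro k
    induction k with
    | zero => exact ⟨x, by simpa using hx, fun _ _ => rfl⟩
    | succ k ih =>
      obtain ⟨b, hb, hbx⟩ := ih
      obtain ⟨y, w, hy, hw, hyw⟩ := hcol (2 + k) (by omega) 0 n b hb
      refine ⟨b - w, ⟨⟨fun u hu => ?_, fun q hq => by omega⟩, ?_⟩, fun u hu => ?_⟩
      · rw [Pi.sub_apply, hb.1.1 u hu, hw.1.1 u hu, sub_zero]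
      · have h1 : cobd (b - w) = y := by rw [cobd_sub, hyw, add_sub_cancel_right]
        rw [h1]
        have h2 : (0 : ℤ) + (2 + ((k + 1 : ℕ) : ℤ)) = 0 + (2 + (k : ℤ)) + 1 := by push_cast; ring
        rw [h2]
        exact hy.1
      · rw [Pi.sub_apply, hbx u hu, hw.1.2 0 (by norm_num) u hu, sub_zero]
  obtain ⟨b, hb, hbx⟩ := key n
  refine ⟨b, hb.1.1, ?_, hbx⟩
  funext u
  apply hb.2.2 (n + 1) (by push_cast; omega) u
  intro s t hst
  have : s = t := by
    funext i
    exact hst i i.2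
  rw [this]

end Collapse

/-! ## Choices of lifts -/

section Lifts

variable {G E X : Type*} [Group G] [TopologicalSpace G] [TopologicalSpace E] [MulAction G E]

variable (G) in
/-- choices of lifts of points and paths of `E/G`; constant paths are lifted to constant paths -/
structure Lifts (e₀ : E) where
  /-- the lift of a point -/
  L₀ : Orbits G E → E
  /-- the lift of a path -/
  L : C(I, Orbits G E) → C(I, E)
  /-- the difference of the lifts -/
  g : C(I, Orbits G E) → I → G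
  orb_L₀ : ∀ b, orb G (L₀ b) = b
  L₀_base : L₀ (orb G e₀) = e₀
  orb_L : ∀ γ t, orb G (L γ t) = γ t
  L_const : ∀ (γ : C(I, Orbits G E)) (b : Orbits G E), (∀ t, γ t = b) → ∀ t, L γ t = L₀ b
  g_smul : ∀ γ t, g γ t • L₀ (γ t) = L γ t

lemma exists_lifts [IsTopologicalGroup G] (hE : IsUniversalBundle G E) (e₀ : E) :
    Nonempty (Lifts G e₀) := by
  classical
  let L₀ : Orbits G E → E := Function.update Quotient.out (orb G e₀) e₀
  have h0 : ∀ b, orb G (L₀ b) = b := by
    intro b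
    by_cases hb : b = orb G e₀
    · subst hb
      simp [L₀]
    · rw [show L₀ b = Quotient.out b from Function.update_of_ne hb _ _]
      exact Quotient.out_eq b
  have h1 : L₀ (orb G e₀) = e₀ := Function.update_self _ _ _
  have h2 : ∀ γ : C(I, Orbits G E), ∃ e : C(I, E), (∀ t, orb G (e t) = γ t) ∧
      ∀ b : Orbits G E, (∀ t, γ t = b) → ∀ t, e t = L₀ b := by
    intro γ
    by_cases hγ : ∃ b : Orbits G E, ∀ t, γ t = b
    · obtain ⟨b, hb⟩ := hγ
      refine ⟨ContinuousMap.const _ (L₀ b), fun t => ?_, fun b' hb' t => ?_⟩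
      · rw [ContinuousMap.const_apply, h0, hb]
      · rw [ContinuousMap.const_apply, ← hb 0, ← hb' 0]
    · obtain ⟨e, he⟩ := hE.path_lifting γ
      exact ⟨e, he, fun b hb => absurd ⟨b, hb⟩ hγ⟩
  choose L hL hLc using h2
  have h3 : ∀ (γ : C(I, Orbits G E)) (t : I), ∃ g : G, g • L₀ (γ t) = L γ t := by
    intro γ t
    apply orb_eq_orb.mp
    rw [hL, h0]
  choose g hg using h3
  exact ⟨⟨L₀, L, g, h0, h1, hL, hLc, hg⟩⟩

lemma Lifts.g_const (hE : IsUniversalBundle G E) {e₀ : E} (D : Lifts G e₀)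
    {γ : C(I, Orbits G E)} {b : Orbits G E} (h : ∀ t, γ t = b) (t : I) : D.g γ t = 1 := by
  apply hE.free (e := D.L₀ b)
  have h1 := D.g_smul γ t
  rw [D.L_const γ b h t, h t] at h1
  exact h1

variable [TopologicalSpace X] [MulAction G X]

/-- the image in the base of the diagonal -/
def basePath (u : C(Q, Orbits G (E × X))) : C(I, Orbits G E) :=
  (borelProj G E X).comp (u.comp ⟨fun t _ => t, by fun_prop⟩)

@[simp] lemma basePath_apply (u : C(Q, Orbits G (E × X))) (t : I) :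
    basePath u t = borelProj G E X (u fun _ => t) := rfl

/-- `ξ` is the cube of `X` belonging to the cube `u` of the homotopy orbit space -/
def IsXi {e₀ : E} (D : Lifts G e₀) (u : Cb (Orbits G (E × X))) (ξ : Cb X) : Prop :=
  ξ.n = u.n ∧ ∀ s, u.f s = orb G (D.L (basePath u.f) (s 0), ξ.f s)

variable {e₀ : E} {D : Lifts G e₀}

lemma IsXi.unique (hE : IsUniversalBundle G E) {u : Cb (Orbits G (E × X))} {ξ η : Cb X}
    (h : IsXi D u ξ) (h' : IsXi D u η) : ξ = η := by
  ext1
  · rw [h.1, h'.1]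
  · ext1 s
    exact hE.orb_inj ((h.2 s).symm.trans (h'.2 s))

lemma exists_xi [IsTopologicalGroup G] [ContinuousSMul G X] (hE : IsUniversalBundle G E)
    (D : Lifts G e₀) (u : Cb (Orbits G (E × X))) (hn : 1 ≤ u.n)
    (h : ∀ s t : Q, s 0 = t 0 → borelProj G E X (u.f s) = borelProj G E X (u.f t)) :
    ∃ ξ : Cb X, IsXi D u ξ := by
  obtain ⟨ξ, hξ⟩ := hE.division ((D.L (basePath u.f)).comp (evC 0)) u.f (by
    intro s
    rw [ContinuousMap.comp_apply, D.orb_L, basePath_apply]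
    exact h _ _ rfl)
  simp only [ContinuousMap.comp_apply, evC_apply] at hξ
  refine ⟨⟨u.n, ξ, fun s t hst => ?_⟩, rfl, hξ⟩
  apply hE.orb_inj (e := D.L (basePath u.f) (s 0))
  rw [← hξ s, hst 0 (by omega), ← hξ t]
  exact u.dep s t hst

lemma IsXi.deg (hE : IsUniversalBundle G E) {u : Cb (Orbits G (E × X))} {ξ : Cb X}
    (h : IsXi D u ξ) (hn : 2 ≤ u.n) (hu : u.Deg) : ξ.Deg := by
  refine ⟨by rw [h.1]; omega, fun s t hst => ?_⟩
  rw [h.1] at hst
  apply hE.orb_inj (e := D.L (basePath u.f) (s 0))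
  rw [← h.2 s, hst 0 (by omega), ← h.2 t]
  exact hu.2 s t hst

lemma IsXi.hor {u : Cb (Orbits G (E × X))} {ξ : Cb X} (h : IsXi D u ξ) (s t : Q)
    (hst : s 0 = t 0) : borelProj G E X (u.f s) = borelProj G E X (u.f t) := by
  rw [h.2 s, h.2 t, borelProj_orb, borelProj_orb, hst]

lemma IsXi.basePath_face {u : Cb (Orbits G (E × X))} {ξ : Cb X} (h : IsXi D u ξ) {i : ℕ}
    (hi : 0 < i) (ε : I) : basePath (u.face i ε).f = basePath u.f := by
  ext1 t
  rw [basePath_apply, basePath_apply, Cb.face_f]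
  apply h.hor
  rw [ins_of_lt hi]

lemma IsXi.face {u : Cb (Orbits G (E × X))} {ξ : Cb X} (h : IsXi D u ξ) {i : ℕ}
    (hi : 0 < i) (ε : I) : IsXi D (u.face i ε) (ξ.face i ε) := by
  refine ⟨?_, fun s => ?_⟩
  · simp only [Cb.face, h.1]
  · rw [h.basePath_face hi, Cb.face_f, Cb.face_f, h.2, ins_of_lt hi]

/-- the action of an element as a continuous map -/
def smulC [ContinuousSMul G X] (g : G) : C(X, X) := ⟨fun x => g • x, by fun_prop⟩

@[simp] lemma smulC_apply [ContinuousSMul G X] (g : G) (x : X) : smulC g x = g • x := rfl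

lemma IsXi.basePath_face_zero {u : Cb (Orbits G (E × X))} {ξ : Cb X} (h : IsXi D u ξ)
    (ε t : I) : basePath (u.face 0 ε).f t = basePath u.f ε := by
  rw [basePath_apply, basePath_apply, Cb.face_f]
  apply h.hor
  rw [ins_self]

lemma IsXi.face_zero [ContinuousSMul G X] {u : Cb (Orbits G (E × X))} {ξ : Cb X}
    (h : IsXi D u ξ) (ε : I) :
    IsXi D (u.face 0 ε) ((ξ.face 0 ε).push (smulC (D.g (basePath u.f) ε)⁻¹)) := by
  refine ⟨?_, fun s => ?_⟩
  · simp only [Cb.face, Cb.push_n, h.1]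
  · rw [D.L_const _ _ (fun t => h.basePath_face_zero ε t), Cb.face_f, Cb.push_f, Cb.face_f, h.2,
      ins_self, smulC_apply, ← D.g_smul]
    apply orb_eq_orb.mpr
    refine ⟨D.g (basePath u.f) ε, ?_⟩
    change (D.g (basePath u.f) ε • _, D.g (basePath u.f) ε • _) = _
    rw [smul_inv_smul]

end Lifts

/-! ## The correction term -/

section Corr

variable {G X : Type*} [Group G] [TopologicalSpace G] [IsTopologicalGroup G]
  [PathConnectedSpace G] [TopologicalSpace X] [MulAction G X] [ContinuousSMul G X]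

/-- a path from `1` to `g` -/
def gpath (g : G) : Path (1 : G) g := (PathConnectedSpace.joined 1 g).somePath

/-- the homotopy from the identity to the action of `g⁻¹` -/
def homot (g : G) : C(I × X, X) := ⟨fun y => (gpath g y.1)⁻¹ • y.2, by fun_prop⟩

lemma endC_homot_one (g : G) : endC (homot (X := X) g) 1 = smulC g⁻¹ := by
  ext1 x
  change (gpath g 1)⁻¹ • x = g⁻¹ • x
  rw [Path.target]

lemma endC_homot_zero (g : G) : endC (homot (X := X) g) 0 = ContinuousMap.id X := by
  ext1 x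
  change (gpath g 0)⁻¹ • x = x
  rw [Path.source, inv_one, one_smul]

lemma push_id {d : Bool} {Y : Type*} [TopologicalSpace Y] (x : Chd d Y) :
    push (ContinuousMap.id Y) x = x := by
  have : (push (ContinuousMap.id Y) : Chd d Y →ₗ[ℚ] Chd d Y) = LinearMap.id := by
    apply hom_ext
    intro u
    rw [push_cb]
    rfl
  exact congrArg (fun f => f x) this

lemma push_push {d : Bool} {Y Z W : Type*} [TopologicalSpace Y] [TopologicalSpace Z]
    [TopologicalSpace W] (f : C(Y, Z)) (g : C(Z, W)) (x : Chd d Y) :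
    push g (push f x) = push (g.comp f) x := by
  have : (push g ∘ₗ push f : Chd d Y →ₗ[ℚ] Chd d W) = push (g.comp f) := by
    apply hom_ext
    intro u
    rw [LinearMap.comp_apply, push_cb, push_cb, push_cb]
    rfl
  exact congrArg (fun f => f x) this

open Classical in
/-- the correction term -/
def corr (Λ : Ch X →ₗ[ℚ] ℚ) (g : G) : Ch X →ₗ[ℚ] ℚ :=
  if g = 1 then 0 else Λ ∘ₗ prism (homot g)

lemma corr_one (Λ : Ch X →ₗ[ℚ] ℚ) (x : Ch X) : corr Λ (1 : G) x = 0 := by
  rw [corr, if_pos rfl]; rfl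

lemma corr_bd {n : ℕ} {Λ : Ch X →ₗ[ℚ] ℚ} (hΛ : ∀ w ∈ hom X (n + 1), Λ (bd w) = 0) (g : G)
    {c : Ch X} (hc : c ∈ hom X n) : corr Λ g (bd c) = Λ (push (smulC g⁻¹) c) - Λ c := by
  by_cases hg : g = 1
  · subst hg
    have h1 : (smulC (1 : G)⁻¹ : C(X, X)) = ContinuousMap.id X := by
      ext1 x
      simp
    rw [corr_one, h1, push_id, sub_self]
  · rw [corr, if_neg hg, LinearMap.comp_apply]
    have h1 := hΛ _ (prism_mem_hom (homot g) hc)
    rw [bd_prism, endC_homot_one, endC_homot_zero, push_id, map_sub, map_sub] at h1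
    linarith

variable {E : Type*} [TopologicalSpace E] [MulAction G E] {e₀ : E} {D : Lifts G e₀}

/-- the value of the cochain on a cube `u` to which the cube `ξ` belongs -/
def val (D : Lifts G e₀) (Λ : Ch X →ₗ[ℚ] ℚ) (u : Cb (Orbits G (E × X))) (ξ : Cb X) : ℚ :=
  Λ (cb ξ) + corr Λ (D.g (basePath u.f) 1) (cb (ξ.face 0 1)) -
    corr Λ (D.g (basePath u.f) 0) (cb (ξ.face 0 0))

open Classical in
/-- the cochain -/
def xC (D : Lifts G e₀) (Λ : Ch X →ₗ[ℚ] ℚ) (u : Cb (Orbits G (E × X))) : ℚ :=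
  if h : ∃ ξ, IsXi D u ξ then val D Λ u h.choose else 0

lemma xC_eq (hE : IsUniversalBundle G E) (Λ : Ch X →ₗ[ℚ] ℚ) {u : Cb (Orbits G (E × X))}
    {ξ : Cb X} (h : IsXi D u ξ) : xC D Λ u = val D Λ u ξ := by
  have hex : ∃ ξ, IsXi D u ξ := ⟨ξ, h⟩
  rw [xC, dif_pos hex, hex.choose_spec.unique hE h]

lemma xC_deg (hE : IsUniversalBundle G E) (Λ : Ch X →ₗ[ℚ] ℚ) {u : Cb (Orbits G (E × X))}
    (hn : 2 ≤ u.n) (hu : u.Deg) : xC D Λ u = 0 := by
  by_cases hex : ∃ ξ, IsXi D u ξ
  · obtain ⟨ξ, hξ⟩ := hex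
    have hd := hξ.deg hE hn hu
    have h0 : 0 < ξ.n - 1 := by rw [hξ.1]; omega
    rw [xC_eq hE Λ hξ, val, cb_deg hd, cb_deg (hd.face 1 h0), cb_deg (hd.face 0 h0), map_zero,
      map_zero, map_zero]
    ring
  · rw [xC, dif_neg hex]

/-- the value on a cube with constant base path -/
lemma xC_vert (hE : IsUniversalBundle G E) (Λ : Ch X →ₗ[ℚ] ℚ) {u : Cb (Orbits G (E × X))}
    {ξ : Cb X} (h : IsXi D u ξ) {b : Orbits G E} (hb : ∀ t, basePath u.f t = b) :
    xC D Λ u = Λ (cb ξ) := by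
  rw [xC_eq hE Λ h, val, D.g_const hE hb, D.g_const hE hb, corr_one, corr_one]
  ring

lemma sum_faces (hE : IsUniversalBundle G E) {n : ℕ} {Λ : Ch X →ₗ[ℚ] ℚ}
    (hΛ : ∀ w ∈ hom X (n + 1), Λ (bd w) = 0) {u : Cb (Orbits G (E × X))} (hn : u.n = n + 1)
    (h : ∀ s t : Q, s 0 = t 0 → borelProj G E X (u.f s) = borelProj G E X (u.f t)) :
    ∑ i ∈ Finset.range (n + 1),
      (-1 : ℚ) ^ i * (xC D Λ (u.face i 1) - xC D Λ (u.face i 0)) = 0 := by
  obtain ⟨ξ, hξ⟩ := exists_xi hE D u (by omega) h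
  have hξn : ξ.n = n + 1 := hξ.1.trans hn
  set g₁ := D.g (basePath u.f) 1 with hg₁
  set g₀ := D.g (basePath u.f) 0 with hg₀
  -- the faces
  have hsucc : ∀ (i : ℕ) (ε : I), xC D Λ (u.face (i + 1) ε) = Λ (cb (ξ.face (i + 1) ε)) +
      corr Λ g₁ (cb ((ξ.face 0 1).face i ε)) - corr Λ g₀ (cb ((ξ.face 0 0).face i ε)) := by
    intro i ε
    rw [xC_eq hE Λ (hξ.face (Nat.succ_pos i) ε), val, hξ.basePath_face (Nat.succ_pos i),
      Cb.face_face (Nat.zero_le i), Cb.face_face (Nat.zero_le i)]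
  have hzero : ∀ ε : I, xC D Λ (u.face 0 ε) =
      Λ (push (smulC (D.g (basePath u.f) ε)⁻¹) (cb (ξ.face 0 ε))) := by
    intro ε
    rw [xC_vert hE Λ (hξ.face_zero ε) (fun t => hξ.basePath_face_zero ε t), push_cb]
  have hmem : ∀ ε : I, (cb (ξ.face 0 ε) : Ch X) ∈ hom X n := by
    intro ε
    apply cb_mem_hom
    rw [Cb.face_n_lt (by omega)]
    omega
  have h1 := corr_bd hΛ g₁ (hmem 1)
  have h0 := corr_bd hΛ g₀ (hmem 0)
  have hn' : ∀ ε : I, (ξ.face 0 ε).n = n := by
    intro ε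
    rw [Cb.face_n_lt (by omega)]
    omega
  rw [bd_cb, hn', map_sum] at h1 h0
  have h2 := hΛ _ (cb_mem_hom hξn)
  rw [bd_cb, hξn, map_sum, Finset.sum_range_succ', pow_zero, one_smul] at h2
  simp only [map_smul, bdi_cb, map_sub, smul_eq_mul] at h1 h0 h2
  rw [Finset.sum_range_succ', pow_zero, one_mul, hzero, hzero]
  have h3 : ∑ i ∈ Finset.range n,
      (-1 : ℚ) ^ (i + 1) * (xC D Λ (u.face (i + 1) 1) - xC D Λ (u.face (i + 1) 0)) =
      ∑ i ∈ Finset.range n,
        (-1 : ℚ) ^ (i + 1) * (Λ (cb (ξ.face (i + 1) 1)) - Λ (cb (ξ.face (i + 1) 0))) -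
      ∑ i ∈ Finset.range n, (-1 : ℚ) ^ i * (corr Λ g₁ (cb ((ξ.face 0 1).face i 1)) -
        corr Λ g₁ (cb ((ξ.face 0 1).face i 0))) +
      ∑ i ∈ Finset.range n, (-1 : ℚ) ^ i * (corr Λ g₀ (cb ((ξ.face 0 0).face i 1)) -
        corr Λ g₀ (cb ((ξ.face 0 0).face i 0))) := by
    rw [← Finset.sum_sub_distrib, ← Finset.sum_add_distrib]
    apply Finset.sum_congr rfl
    intro i _
    rw [hsucc, hsucc]
    ring
  rw [h3, h1, h0, ← hg₁, ← hg₀]
  linarith

/-- the cochain on singular cubes -/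
def xS (D : Lifts G e₀) (Λ : Ch X →ₗ[ℚ] ℚ) (n : ℕ) : SCube (Orbits G (E × X)) n → ℚ :=
  fun u => xC D Λ (toCb u)

lemma xS_isCochain (hE : IsUniversalBundle G E) (Λ : Ch X →ₗ[ℚ] ℚ) {n : ℕ} (hn : 2 ≤ n) :
    IsCochain (xS D Λ n) := fun u hu => xC_deg hE Λ (by simpa using hn) (toCb_deg hu)

lemma xS_inZ (hE : IsUniversalBundle G E) {n : ℕ} (hn : 2 ≤ n) {Λ : Ch X →ₗ[ℚ] ℚ}
    (hΛ : ∀ w ∈ hom X (n + 1), Λ (bd w) = 0) : InZ (borelProj G E X) 2 0 (xS D Λ n) := by
  have hc := xS_isCochain (D := D) hE Λ hn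
  refine ⟨⟨hc, fun q hq => by omega⟩, (coboundary _ n ⟨xS D Λ n, hc⟩).2, fun q hq u hu => ?_⟩
  have h : ∀ s t : Q, s 0 = t 0 →
      borelProj G E X ((toCb u).f s) = borelProj G E X ((toCb u).f t) := by
    intro s t hst
    apply hu
    intro i hi
    have : (i : ℕ) = 0 := by omega
    rw [restC_apply, restC_apply, this, hst]
  have h1 := sum_faces (D := D) hE hΛ (u := toCb u) rfl h
  rw [← Fin.sum_univ_eq_sum_range (fun i => (-1 : ℚ) ^ i *
    (xC D Λ ((toCb u).face i 1) - xC D Λ ((toCb u).face i 0)))] at h1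
  rw [← h1, cobd]
  apply Finset.sum_congr rfl
  intro i _
  rw [← toCb_face, ← toCb_face]
  rfl

end Corr

/-! ## The theorem -/

/-- the orbit map -/
def orbC (G Z : Type*) [Group G] [MulAction G Z] [TopologicalSpace Z] : C(Z, Orbits G Z) :=
  ⟨orb G, continuous_quot_mk⟩

@[simp] lemma orbC_apply {G Z : Type*} [Group G] [MulAction G Z] [TopologicalSpace Z] (z : Z) :
    orbC G Z z = orb G z := rfl

/-- Collapse implies injectivity. -/
theorem inj {G X : Type*} [Group G] [TopologicalSpace G] [IsTopologicalGroup G]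
    [PathConnectedSpace G] [TopologicalSpace X] [MulAction G X] [ContinuousSMul G X]
    {E : Type*} [TopologicalSpace E] [MulAction G E] (hE : IsUniversalBundle G E)
    (hcol : CollapsesAtE2 (borelProj G E X)) {n : ℕ} (hn : 2 ≤ n) {z : Ch (E × X)}
    (hz : z ∈ hom (E × X) n) (hb : bd z = 0) (hp : push (orbC G (E × X)) z = 0) :
    ∃ w ∈ hom (E × X) (n + 1), bd w = z := by
  have := hE.contractible
  obtain ⟨c, ⟨H⟩⟩ := id_nullhomotopic E
  set e₀ : E := c with he₀
  obtain ⟨D⟩ := exists_lifts hE e₀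
  -- the contraction
  let F : C(I × (E × X), E × X) :=
    ⟨fun y => (H (σ y.1, y.2.1), y.2.2), by fun_prop⟩
  have hF1 : endC F 1 = ContinuousMap.id (E × X) := by
    ext1 y
    change (H (σ 1, y.1), y.2) = y
    rw [unitInterval.symm_one, H.apply_zero]
    rfl
  let i : C(X, E × X) := ⟨fun x => (e₀, x), by fun_prop⟩
  let pr : C(E × X, X) := ⟨Prod.snd, continuous_snd⟩
  have hF0 : endC F 0 = i.comp pr := by
    ext1 y
    change (H (σ 0, y.1), y.2) = (e₀, y.2)
    rw [unitInterval.symm_zero, H.apply_one]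
    rfl
  have hbd : bd (prism F z) = z - push i (push pr z) := by
    rw [bd_prism, hF1, hF0, push_id, push_push, hb, map_zero, sub_zero]
  -- `push pr z` is a boundary
  have key : push pr z ∈ (hom X (n + 1) : Submodule ℚ (Ch X)).map bd := by
    by_contra hnot
    obtain ⟨Λ, hΛz, hΛ⟩ := Submodule.exists_le_ker_of_notMem hnot
    have hΛ' : ∀ w ∈ hom X (n + 1), Λ (bd w) = 0 := fun w hw => hΛ ⟨w, hw, rfl⟩
    obtain ⟨b, hbc, hbd0, hbx⟩ := exists_cocycle hcol _ (xS_inZ (D := D) hE hn hΛ')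
    -- the values of `b` on the vertical cubes over the base point
    have hval : ∀ y ∈ hom (E × X) n,
        ev b hbc (push (orbC G (E × X)) (push i (push pr y))) = Λ (push pr y) := by
      intro y hy
      have : (hom (E × X) n : Submodule ℚ (Ch (E × X))) ≤ LinearMap.eqLocus
          (ev b hbc ∘ₗ push (orbC G (E × X)) ∘ₗ push i ∘ₗ push pr) (Λ ∘ₗ push pr) := by
        rw [hom, Submodule.span_le]
        rintro _ ⟨u, hu, rfl⟩
        change ev b hbc (push (orbC G (E × X)) (push i (push pr (cb u)))) = Λ (push pr (cb u))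
        rw [push_cb, push_cb, push_cb]
        set v := ((u.push pr).push i).push (orbC G (E × X)) with hv
        have hvn : v.n = n := hu
        have hvf : ∀ s, v.f s = orb G (e₀, (u.push pr).f s) := fun s => rfl
        have hbase : ∀ t, basePath v.f t = orb G e₀ := by
          intro t
          rw [basePath_apply, hvf, borelProj_orb]
        have hxi : IsXi D v (u.push pr) := by
          refine ⟨rfl, fun s => ?_⟩
          rw [D.L_const _ _ hbase, D.L₀_base, hvf]
        rw [ev_cb _ _ hvn, hbx]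
        · rw [xS, toCb_ofCb hvn, xC_vert hE Λ hxi hbase]
        · intro s t _
          dsimp only
          rw [ofCb_apply, ofCb_apply, hvf, hvf, borelProj_orb, borelProj_orb]
      exact this hy
    apply hΛz
    rw [← hval z hz]
    have h1 : push i (push pr z) = z - bd (prism F z) := by rw [hbd]; abel
    rw [h1, map_sub, hp, zero_sub, map_neg, ← bd_push,
      ev_bd b hbc hbd0 (push_mem_hom _ (prism_mem_hom _ hz)), neg_zero]
  obtain ⟨w, hw, hwz⟩ := key
  refine ⟨push i w + prism F z,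
    Submodule.add_mem _ (push_mem_hom _ hw) (prism_mem_hom _ hz), ?_⟩
  rw [map_add, bd_push, hwz, hbd]
  abel

end

end Pool.Agent.EF97
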