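import Pool.Agent.EF97.Klein

/-!
# The locally constant function, open sets, the circle subgroup
-/

namespace Pool.Agent.EF97

open Topology unitInterval Pool.Agent.MP_a0fe07

noncomputable section

/-! ## The function `rr` and open sets -/

/-- `1` if `det y = -1` and `tr y ≤ 0`, otherwise `0` -/
def rr (r : XX) : ℚ := open Classical in if (ky r : M4).det = -1 ∧ (ky r : M4).trace.re ≤ 0 then 1 else 0

lemma det_ky_smul (g : U4) (r : XX) : (ky (g • r) : M4).det = (ky r : M4).det := by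
  rw [ky_smul]; exact U4_det_conj g _

lemma trace_ky_smul (g : U4) (r : XX) : (ky (g • r) : M4).trace = (ky r : M4).trace := by
  rw [ky_smul]; exact U4_trace_conj g _

lemma rr_smul (g : U4) (r : XX) : rr (g • r) = rr r := by
  unfold rr; rw [det_ky_smul, trace_ky_smul]

lemma continuous_ky_coe : Continuous fun r : XX => (ky r : M4) :=
  continuous_coeU4.comp ky.continuous

lemma continuous_kx_coe : Continuous fun r : XX => (kx r : M4) :=
  continuous_coeU4.comp kx.continuous

lemma continuous_det_ky : Continuous fun r : XX => (ky r : M4).det :=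
  continuous_ky_coe.matrix_det

lemma continuous_trace_ky : Continuous fun r : XX => (ky r : M4).trace :=
  continuous_ky_coe.matrix_trace

lemma det_ky_eq_iff (r : XX) : (ky r : M4).det = -1 ↔ (ky r : M4).det.re < 0 := by
  rcases det_ky r with h | h <;> rw [h] <;> norm_num

lemma det_ky_ne_iff (r : XX) : (ky r : M4).det ≠ -1 ↔ 0 < (ky r : M4).det.re := by
  rcases det_ky r with h | h <;> rw [h] <;> norm_num

/-- `det y ≠ -1` or `tr y > 0` -/
def Va : Set XX := {r | (ky r : M4).det ≠ -1 ∨ 0 < (ky r : M4).trace.re}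

/-- `det y = -1` and `tr y < 0` -/
def Vb : Set XX := {r | (ky r : M4).det = -1 ∧ (ky r : M4).trace.re < 0}

/-- `det y = -1` -/
def Vd : Set XX := {r | (ky r : M4).det = -1}

lemma isOpen_Vd : IsOpen Vd := by
  have h : Vd = {r | (ky r : M4).det.re < 0} := by
    ext r; exact det_ky_eq_iff r
  rw [h]
  exact isOpen_lt (Complex.continuous_re.comp continuous_det_ky) continuous_const

lemma isOpen_Vb : IsOpen Vb :=
  isOpen_Vd.inter (isOpen_lt (Complex.continuous_re.comp continuous_trace_ky) continuous_const)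

lemma isOpen_Va : IsOpen Va := by
  have h : Va = {r | 0 < (ky r : M4).det.re} ∪ {r | 0 < (ky r : M4).trace.re} := by
    ext r
    change (_ ∨ _) ↔ (_ ∨ _)
    rw [det_ky_ne_iff]
    rfl
  rw [h]
  exact (isOpen_lt continuous_const (Complex.continuous_re.comp continuous_det_ky)).union
    (isOpen_lt continuous_const (Complex.continuous_re.comp continuous_trace_ky))

lemma rr_of_Va {r : XX} (h : r ∈ Va) : rr r = 0 := by
  unfold rr
  rw [if_neg]
  rintro ⟨h1, h2⟩
  rcases h with h | h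
  · exact h h1
  · exact absurd h (not_lt.mpr h2)

lemma rr_of_Vb {r : XX} (h : r ∈ Vb) : rr r = 1 := by
  unfold rr
  rw [if_pos ⟨h.1, h.2.le⟩]

/-- outside `Va` and `Vb` the determinant of `y` is `-1` and the trace is zero -/
lemma of_not_Va_Vb {r : XX} (ha : r ∉ Va) (hb : r ∉ Vb) :
    (ky r : M4).det = -1 ∧ (ky r : M4).trace = 0 := by
  have h1 : (ky r : M4).det = -1 := by
    by_contra h
    exact ha (Or.inl h)
  have h2 : ¬ 0 < (ky r : M4).trace.re := fun h => ha (Or.inr h)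
  have h3 : ¬ (ky r : M4).trace.re < 0 := fun h => hb ⟨h1, h⟩
  refine ⟨h1, Complex.ext ?_ (trace_ky_im r)⟩
  rw [Complex.zero_re]
  exact le_antisymm (not_lt.mp h2) (not_lt.mp h3)

lemma smul_mem_Va {g : U4} {r : XX} : g • r ∈ Va ↔ r ∈ Va := by
  change (_ ∨ _) ↔ (_ ∨ _)
  rw [det_ky_smul, trace_ky_smul]

lemma smul_mem_Vb {g : U4} {r : XX} : g • r ∈ Vb ↔ r ∈ Vb := by
  change (_ ∧ _) ↔ (_ ∧ _)
  rw [det_ky_smul, trace_ky_smul]

lemma smul_mem_Vd {g : U4} {r : XX} : g • r ∈ Vd ↔ r ∈ Vd := by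
  change (_ = _) ↔ (_ = _)
  rw [det_ky_smul]

/-! ## Diagonal matrices -/

lemma diag_mem (v : Fin 4 → Circle) : (Matrix.diagonal fun i => (v i : ℂ)) ∈ Matrix.unitaryGroup (Fin 4) ℂ := by
  rw [Matrix.mem_unitaryGroup_iff, Matrix.star_eq_conjTranspose, Matrix.diagonal_conjTranspose,
    Matrix.diagonal_mul_diagonal, ← Matrix.diagonal_one]
  congr 1
  funext i
  rw [Pi.star_apply, Complex.star_def, ← Circle.coe_inv_eq_conj, ← Circle.coe_mul, mul_inv_cancel]
  rfl

/-- the diagonal matrix with entries on the circle -/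
def dgv (v : Fin 4 → Circle) : U4 := ⟨Matrix.diagonal fun i => (v i : ℂ), diag_mem v⟩

lemma dgv_coe (v : Fin 4 → Circle) : (dgv v : M4) = Matrix.diagonal fun i => (v i : ℂ) := rfl

lemma dgv_mul (v w : Fin 4 → Circle) : dgv v * dgv w = dgv (v * w) := by
  apply Subtype.ext
  rw [U4_mul_coe, dgv_coe, dgv_coe, dgv_coe, Matrix.diagonal_mul_diagonal]
  rfl

@[simp] lemma dgv_one : dgv 1 = 1 := by
  apply Subtype.ext
  rw [dgv_coe]
  exact Matrix.diagonal_one

lemma dgv_inv (v : Fin 4 → Circle) : (dgv v)⁻¹ = dgv v⁻¹ := by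
  rw [inv_eq_iff_mul_eq_one, dgv_mul, mul_inv_cancel, dgv_one]

lemma continuous_dgv : Continuous dgv := by
  apply Continuous.subtype_mk
  apply Continuous.matrix_diagonal
  fun_prop

/-! ## The circle subgroup -/

/-- `exp (2 π i t)` -/
def ee (t : ℝ) : Circle := Circle.exp (2 * Real.pi * t)

lemma ee_add (a b : ℝ) : ee (a + b) = ee a * ee b := by
  unfold ee; rw [mul_add, Circle.exp_add]

lemma ee_neg (a : ℝ) : ee (-a) = (ee a)⁻¹ := by
  unfold ee; rw [mul_neg, Circle.exp_neg]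

@[simp] lemma ee_zero : ee 0 = 1 := by simp [ee]
@[simp] lemma ee_one : ee 1 = 1 := by simp [ee]

lemma ee_half : ee (1 / 2) = -1 := by
  apply Circle.ext
  rw [ee, Circle.coe_exp, Circle.coe_neg, Circle.coe_one, ← Complex.exp_pi_mul_I]
  congr 1
  push_cast
  ring

lemma continuous_ee : Continuous ee := by unfold ee; fun_prop

lemma ee_coe (t : ℝ) : (ee t : ℂ) = Complex.exp (2 * Real.pi * Complex.I * t) := by
  rw [ee, Circle.coe_exp]
  congr 1
  push_cast
  ring

lemma ee_nat_mul (n : ℕ) (t : ℝ) : ee (n * t) = ee t ^ n := by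
  unfold ee
  rw [← Circle.exp_natCast_mul]
  congr 1
  ring

lemma ee_eq_one {a : ℝ} (h : ee a = 1) : ∃ n : ℤ, a = n := by
  obtain ⟨n, hn⟩ := Circle.exp_eq_one.mp h
  refine ⟨n, ?_⟩
  have hp := Real.pi_pos
  have h2 : 2 * Real.pi * (a - n) = 0 := by linear_combination hn
  rcases mul_eq_zero.mp h2 with h3 | h3
  · exfalso; linarith
  · linarith

/-- the circle subgroup `diag (1, l, l ^ 2, l ^ 3)` -/
def hh (t : ℝ) : U4 := dgv fun i => ee t ^ (i : ℕ)

lemma continuous_hh : Continuous hh := by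
  unfold hh
  refine continuous_dgv.comp (continuous_pi fun i => ?_)
  exact continuous_ee.pow _

lemma hh_add (a b : ℝ) : hh (a + b) = hh a * hh b := by
  unfold hh
  rw [dgv_mul]
  congr 1
  funext i
  rw [ee_add, mul_pow]
  rfl

@[simp] lemma hh_zero : hh 0 = 1 := by
  unfold hh
  simp only [ee_zero, one_pow]
  exact dgv_one

@[simp] lemma hh_one : hh 1 = 1 := by
  unfold hh
  simp only [ee_one, one_pow]
  exact dgv_one

lemma hh_eq_one {a : ℝ} (h : hh a = 1) : ∃ n : ℤ, a = n := by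
  apply ee_eq_one
  have h1 := congrArg (fun g : U4 => (g : M4) 1 1) h
  simp only [hh, dgv_coe, Matrix.diagonal_apply_eq] at h1
  apply Circle.ext
  simpa using h1

/-- the weight of an entry -/
def wt (i j : Fin 4) : ℤ := (i : ℕ) - (j : ℕ)

lemma wt_ne_zero {i j : Fin 4} (h : i ≠ j) : wt i j ≠ 0 := by
  unfold wt
  intro h2
  apply h
  apply Fin.ext
  omega

lemma hh_neg (a : ℝ) : hh (-a) = (hh a)⁻¹ := by
  rw [eq_inv_iff_mul_eq_one, ← hh_add, neg_add_cancel, hh_zero]

lemma hh_conj_apply (a : ℝ) (X : U4) (i j : Fin 4) :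
    ((hh a * X * (hh a)⁻¹ : U4) : M4) i j = (ee (wt i j * a) : ℂ) * (X : M4) i j := by
  have h1 : ee (wt i j * a) = ee a ^ (i : ℕ) * ee (-a) ^ (j : ℕ) := by
    rw [← ee_nat_mul, ← ee_nat_mul, ← ee_add]
    congr 1
    unfold wt
    push_cast
    ring
  rw [← hh_neg, U4_mul_coe, U4_mul_coe, hh, hh, dgv_coe, dgv_coe, Matrix.mul_diagonal,
    Matrix.diagonal_mul, h1]
  push_cast
  ring

lemma kx_hh (a : ℝ) (r : XX) (i j : Fin 4) :
    (kx (hh a • r) : M4) i j = (ee (wt i j * a) : ℂ) * (kx r : M4) i j := by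
  rw [kx_smul]; exact hh_conj_apply a _ i j

lemma ky_hh (a : ℝ) (r : XX) (i j : Fin 4) :
    (ky (hh a • r) : M4) i j = (ee (wt i j * a) : ℂ) * (ky r : M4) i j := by
  rw [ky_smul]; exact hh_conj_apply a _ i j

end

end Pool.Agent.EF97
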