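import Pool.Agent.EF97.Klein2

/-!
# The three-dimensional cycle
-/

namespace Pool.Agent.EF97

open Topology unitInterval Pool.Agent.MP_a0fe07

noncomputable section

/-! ## The matrices `P_ij(z)` -/

/-- permutation matrix of the transposition of `0` and `j` -/
def TT (j : Fin 4) : M4 := (Equiv.swap (0 : Fin 4) j).permMatrix ℂ

lemma TT_mul_self (j : Fin 4) : TT j * TT j = 1 := by
  unfold TT
  rw [← Matrix.permMatrix_mul, Equiv.swap_mul_self, Matrix.permMatrix_one]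

lemma TT_star (j : Fin 4) : star (TT j) = TT j := by
  unfold TT
  rw [Matrix.star_eq_conjTranspose, Matrix.conjTranspose_permMatrix, Equiv.swap_inv]

lemma TT_diag (j : Fin 4) (v : Fin 4 → ℂ) :
    TT j * Matrix.diagonal v = Matrix.diagonal (v ∘ Equiv.swap 0 j) * TT j := by
  ext a b
  rw [Matrix.mul_diagonal, Matrix.diagonal_mul]
  unfold TT
  simp only [Equiv.Perm.permMatrix, PEquiv.toMatrix_apply, Equiv.toPEquiv_apply, Option.mem_def,
    Option.some.injEq, Function.comp_apply]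
  split_ifs with h
  · rw [h]; ring
  · ring

/-- `P_ij(z)` as a matrix -/
def PM (j : Fin 4) (z : ℂ) : M4 := ((1 + z) / 2) • (1 : M4) + ((1 - z) / 2) • TT j

lemma PM_mul (j : Fin 4) (z w : ℂ) : PM j z * PM j w = PM j (z * w) := by
  unfold PM
  rw [add_mul, mul_add, mul_add]
  simp only [smul_mul_smul_comm, mul_one, one_mul, TT_mul_self]
  module

lemma PM_one (j : Fin 4) : PM j 1 = 1 := by
  unfold PM
  norm_num

lemma PM_star (j : Fin 4) (z : ℂ) : star (PM j z) = PM j (star z) := by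
  unfold PM
  rw [star_add, star_smul, star_smul, TT_star, star_one]
  simp

lemma PM_mem (j : Fin 4) (z : Circle) : PM j z ∈ Matrix.unitaryGroup (Fin 4) ℂ := by
  rw [Matrix.mem_unitaryGroup_iff, PM_star, PM_mul, Complex.star_def, ← Circle.coe_inv_eq_conj,
    ← Circle.coe_mul, mul_inv_cancel, Circle.coe_one, PM_one]

/-- `P_ij(z)` as an element of `U(4)` -/
def PU (j : Fin 4) (z : Circle) : U4 := ⟨PM j z, PM_mem j z⟩

lemma PU_mul (j : Fin 4) (z w : Circle) : PU j (z * w) = PU j z * PU j w :=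
  Subtype.ext (PM_mul j z w).symm

@[simp] lemma PU_one (j : Fin 4) : PU j 1 = 1 := Subtype.ext (PM_one j)

lemma continuous_PU (j : Fin 4) : Continuous (PU j) := by
  apply Continuous.subtype_mk
  unfold PM
  fun_prop

lemma PU_neg_one (j : Fin 4) : (PU j (-1) : M4) = TT j := by
  change PM j ((-1 : Circle) : ℂ) = TT j
  unfold PM
  push_cast
  norm_num

lemma PU_neg_one_dgv (j : Fin 4) (v : Fin 4 → Circle) :
    PU j (-1) * dgv v = dgv (v ∘ Equiv.swap 0 j) * PU j (-1) := by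
  apply Subtype.ext
  rw [U4_mul_coe, U4_mul_coe, PU_neg_one, dgv_coe, dgv_coe, TT_diag]
  rfl

/-- `P_ij(z)` commutes with diagonal matrices with equal entries at `0` and `j` -/
lemma PU_comm (j : Fin 4) (z : Circle) (v : Fin 4 → Circle) (h : v ∘ Equiv.swap 0 j = v) :
    PU j z * dgv v = dgv v * PU j z := by
  apply Subtype.ext
  change PM j z * (Matrix.diagonal fun i => (v i : ℂ)) = (Matrix.diagonal fun i => (v i : ℂ)) * PM j z
  have h2 : (fun i => (v i : ℂ)) ∘ Equiv.swap 0 j = fun i => (v i : ℂ) := by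
    funext i
    exact congrArg (fun z : Circle => (z : ℂ)) (congrFun h i)
  unfold PM
  rw [add_mul, mul_add, smul_mul_assoc, smul_mul_assoc, mul_smul_comm, mul_smul_comm, TT_diag, h2,
    one_mul, mul_one]

/-! ## The families -/

lemma rel_of_comm {x y : U4} (h : Commute x y) (hy : y * y = 1) : x * y * x⁻¹ = y⁻¹ := by
  rw [h.eq, mul_inv_cancel_right]
  exact eq_inv_of_mul_eq_one_left hy

lemma dgv_comm (v w : Fin 4 → Circle) : Commute (dgv v) (dgv w) := by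
  rw [commute_iff_eq, dgv_mul, dgv_mul, mul_comm]

lemma PU_commute (j : Fin 4) (z : Circle) (v : Fin 4 → Circle) (h : v ∘ Equiv.swap 0 j = v) :
    Commute (PU j z) (dgv v) := PU_comm j z v h

/-- `diag (1, 1, 1, -1)` -/
def v1 : Fin 4 → Circle := ![1, 1, 1, -1]
/-- `diag (-1, -1, 1, -1)` -/
def v4 : Fin 4 → Circle := ![-1, -1, 1, -1]

lemma neg_one_mul_circle : (-1 : Circle) * -1 = 1 := by
  apply Circle.ext; push_cast; norm_num

lemma v1_sq : dgv v1 * dgv v1 = 1 := by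
  rw [dgv_mul, ← dgv_one]
  congr 1
  funext i
  fin_cases i <;> simp [v1, neg_one_mul_circle]

lemma v4_sq : dgv v4 * dgv v4 = 1 := by
  rw [dgv_mul, ← dgv_one]
  congr 1
  funext i
  fin_cases i <;> simp [v4, neg_one_mul_circle]

/-- the diagonal matrix `diag (A, 1, b, c)` -/
def dK (p : ℝ × ℝ × ℝ) : U4 := dgv ![ee (p.2.1 + p.2.2), 1, ee (-p.2.1), ee (-p.2.2)]

lemma continuous_vec4 {T : Type*} [TopologicalSpace T] {a b c d : T → Circle} (ha : Continuous a)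
    (hb : Continuous b) (hc : Continuous c) (hd : Continuous d) :
    Continuous fun t => dgv ![a t, b t, c t, d t] := by
  refine continuous_dgv.comp (continuous_pi fun i => ?_)
  fin_cases i
  · exact ha
  · exact hb
  · exact hc
  · exact hd

lemma cee {T : Type*} [TopologicalSpace T] {f : T → ℝ} (hf : Continuous f) :
    Continuous fun t => ee (f t) := continuous_ee.comp hf

lemma continuous_dK : Continuous dK :=
  continuous_vec4 (cee (by fun_prop)) continuous_const (cee (by fun_prop)) (cee (by fun_prop))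

/-- `x` for the first cube -/
def x1 (p : ℝ × ℝ × ℝ) : U4 :=
  dgv ![ee (p.2.1 + p.2.2), 1, 1, 1] * PU 2 (ee ((1 - p.1) / 2)) * dgv ![1, 1, ee (-p.2.1), 1] *
    (PU 2 (ee ((1 - p.1) / 2)))⁻¹ * dgv ![1, 1, 1, ee (-p.2.2)]

lemma continuous_x1 : Continuous x1 := by
  have hP : Continuous fun p : ℝ × ℝ × ℝ => PU 2 (ee ((1 - p.1) / 2)) :=
    (continuous_PU 2).comp (cee (by fun_prop))
  exact ((((continuous_vec4 (cee (by fun_prop)) continuous_const continuous_const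
    continuous_const).mul hP).mul (continuous_vec4 continuous_const continuous_const
    (cee (by fun_prop)) continuous_const)).mul hP.inv).mul (continuous_vec4 continuous_const
    continuous_const continuous_const (cee (by fun_prop)))

lemma v1_swap2 : v1 ∘ Equiv.swap 0 2 = v1 := by
  funext i; fin_cases i <;> rfl
lemma v1_swap1 : v1 ∘ Equiv.swap 0 1 = v1 := by
  funext i; fin_cases i <;> rfl
lemma v4_swap1 : v4 ∘ Equiv.swap 0 1 = v4 := by
  funext i; fin_cases i <;> rfl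
lemma v4_swap3 : v4 ∘ Equiv.swap 0 3 = v4 := by
  funext i; fin_cases i <;> rfl

lemma x1_rel (p : ℝ × ℝ × ℝ) : x1 p * dgv v1 * (x1 p)⁻¹ = (dgv v1)⁻¹ := by
  refine rel_of_comm ?_ v1_sq
  have hP := PU_commute 2 (ee ((1 - p.1) / 2)) v1 v1_swap2
  exact ((((dgv_comm _ _).mul_left hP).mul_left (dgv_comm _ _)).mul_left hP.inv_left).mul_left
    (dgv_comm _ _)

/-- `x` for the second cube -/
def x2 (p : ℝ × ℝ × ℝ) : U4 := dK p * PU 1 (ee (p.1 / 2))

lemma continuous_x2 : Continuous x2 :=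
  continuous_dK.mul ((continuous_PU 1).comp (cee (by fun_prop)))

lemma x2_rel (p : ℝ × ℝ × ℝ) : x2 p * dgv v1 * (x2 p)⁻¹ = (dgv v1)⁻¹ :=
  rel_of_comm ((dgv_comm _ _).mul_left (PU_commute 1 _ v1 v1_swap1)) v1_sq

/-- `x` for the third cube -/
def x3 (p : ℝ × ℝ × ℝ) : U4 := dK p * PU 1 (-1)

/-- `y` for the third cube -/
def y3 (p : ℝ × ℝ × ℝ) : U4 := dgv ![ee (p.1 / 2), ee (-(p.1 / 2)), 1, -1]

lemma continuous_x3 : Continuous x3 := continuous_dK.mul continuous_const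

lemma continuous_y3 : Continuous y3 :=
  continuous_vec4 (cee (by fun_prop)) (cee (by fun_prop)) continuous_const continuous_const

lemma neg_one_inv_circle : (-1 : Circle)⁻¹ = -1 := inv_eq_of_mul_eq_one_left neg_one_mul_circle

lemma x3_rel (p : ℝ × ℝ × ℝ) : x3 p * y3 p * (x3 p)⁻¹ = (y3 p)⁻¹ := by
  unfold x3 y3
  have h1 : PU 1 (-1) * dgv ![ee (p.1 / 2), ee (-(p.1 / 2)), 1, -1] =
      dgv ![ee (-(p.1 / 2)), ee (p.1 / 2), 1, -1] * PU 1 (-1) := by
    rw [PU_neg_one_dgv]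
    congr 2
    funext i
    fin_cases i <;> rfl
  have h2 : (dgv ![ee (p.1 / 2), ee (-(p.1 / 2)), 1, -1])⁻¹ =
      dgv ![ee (-(p.1 / 2)), ee (p.1 / 2), 1, -1] := by
    rw [dgv_inv]
    congr 1
    funext i
    fin_cases i <;> simp [ee_neg, neg_one_inv_circle]
  rw [h2, mul_assoc (dK p), h1, mul_inv_rev, ← mul_assoc (dK p), mul_assoc (dK p * _),
    mul_inv_cancel_left]
  unfold dK
  rw [(dgv_comm _ _).eq, mul_inv_cancel_right]

/-- `x` for the fourth cube -/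
def x4 (p : ℝ × ℝ × ℝ) : U4 := dK p * PU 1 (ee ((1 - p.1) / 2))

lemma continuous_x4 : Continuous x4 :=
  continuous_dK.mul ((continuous_PU 1).comp (cee (by fun_prop)))

lemma x4_rel (p : ℝ × ℝ × ℝ) : x4 p * dgv v4 * (x4 p)⁻¹ = (dgv v4)⁻¹ :=
  rel_of_comm ((dgv_comm _ _).mul_left (PU_commute 1 _ v4 v4_swap1)) v4_sq

/-- `x` for the fifth cube -/
def x5 (p : ℝ × ℝ × ℝ) : U4 :=
  dgv ![ee (p.2.1 + p.2.2), 1, ee (-p.2.1), 1] * PU 3 (ee (p.1 / 2)) *
    dgv ![1, 1, 1, ee (-p.2.2)] * (PU 3 (ee (p.1 / 2)))⁻¹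

lemma continuous_x5 : Continuous x5 := by
  have hP : Continuous fun p : ℝ × ℝ × ℝ => PU 3 (ee (p.1 / 2)) :=
    (continuous_PU 3).comp (cee (by fun_prop))
  exact (((continuous_vec4 (cee (by fun_prop)) continuous_const (cee (by fun_prop))
    continuous_const).mul hP).mul (continuous_vec4 continuous_const continuous_const
    continuous_const (cee (by fun_prop)))).mul hP.inv

lemma x5_rel (p : ℝ × ℝ × ℝ) : x5 p * dgv v4 * (x5 p)⁻¹ = (dgv v4)⁻¹ := by
  refine rel_of_comm ?_ v4_sq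
  have hP := PU_commute 3 (ee (p.1 / 2)) v4 v4_swap3
  exact (((dgv_comm _ _).mul_left hP).mul_left (dgv_comm _ _)).mul_left hP.inv_left

/-- the first family -/
def K1 : C(ℝ × ℝ × ℝ, XX) := mkRepC ⟨x1, continuous_x1⟩ (ContinuousMap.const _ (dgv v1)) x1_rel
/-- the second family -/
def K2 : C(ℝ × ℝ × ℝ, XX) := mkRepC ⟨x2, continuous_x2⟩ (ContinuousMap.const _ (dgv v1)) x2_rel
/-- the third family -/
def K3 : C(ℝ × ℝ × ℝ, XX) := mkRepC ⟨x3, continuous_x3⟩ ⟨y3, continuous_y3⟩ x3_rel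
/-- the fourth family -/
def K4 : C(ℝ × ℝ × ℝ, XX) := mkRepC ⟨x4, continuous_x4⟩ (ContinuousMap.const _ (dgv v4)) x4_rel
/-- the fifth family -/
def K5 : C(ℝ × ℝ × ℝ, XX) := mkRepC ⟨x5, continuous_x5⟩ (ContinuousMap.const _ (dgv v4)) x5_rel
/-- the family for the correction cube -/
def KE : C(ℝ × ℝ × ℝ, XX) := K1.comp ⟨fun p => (0, p.2.1, p.1 * p.2.2), by fun_prop⟩

lemma KE_apply (p : ℝ × ℝ × ℝ) : KE p = K1 (0, p.2.1, p.1 * p.2.2) := rfl

@[simp] lemma kx_K1 (p : ℝ × ℝ × ℝ) : kx (K1 p) = x1 p := kx_mkRep _ _ (x1_rel p)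
@[simp] lemma kx_K2 (p : ℝ × ℝ × ℝ) : kx (K2 p) = x2 p := kx_mkRep _ _ (x2_rel p)
@[simp] lemma kx_K3 (p : ℝ × ℝ × ℝ) : kx (K3 p) = x3 p := kx_mkRep _ _ (x3_rel p)
@[simp] lemma kx_K4 (p : ℝ × ℝ × ℝ) : kx (K4 p) = x4 p := kx_mkRep _ _ (x4_rel p)
@[simp] lemma kx_K5 (p : ℝ × ℝ × ℝ) : kx (K5 p) = x5 p := kx_mkRep _ _ (x5_rel p)
@[simp] lemma ky_K1 (p : ℝ × ℝ × ℝ) : ky (K1 p) = dgv v1 := ky_mkRep _ _ (x1_rel p)
@[simp] lemma ky_K2 (p : ℝ × ℝ × ℝ) : ky (K2 p) = dgv v1 := ky_mkRep _ _ (x2_rel p)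
@[simp] lemma ky_K3 (p : ℝ × ℝ × ℝ) : ky (K3 p) = y3 p := ky_mkRep _ _ (x3_rel p)
@[simp] lemma ky_K4 (p : ℝ × ℝ × ℝ) : ky (K4 p) = dgv v4 := ky_mkRep _ _ (x4_rel p)
@[simp] lemma ky_K5 (p : ℝ × ℝ × ℝ) : ky (K5 p) = dgv v4 := ky_mkRep _ _ (x5_rel p)

/-! ## Agreement of the faces -/

lemma dgv4_mul (a b c d a' b' c' d' : Circle) :
    dgv ![a, b, c, d] * dgv ![a', b', c', d'] = dgv ![a * a', b * b', c * c', d * d'] := by
  rw [dgv_mul]
  congr 1
  funext i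
  fin_cases i <;> rfl

lemma x1_zero (a b : ℝ) : x1 (0, a, b) = dgv ![ee b, 1, 1, ee (-b)] := by
  have h1 : PU 2 (ee ((1 - (0 : ℝ)) / 2)) = PU 2 (-1) := by rw [sub_zero, ee_half]
  have h2 : PU 2 (-1) * dgv ![1, 1, ee (-a), 1] = dgv ![ee (-a), 1, 1, 1] * PU 2 (-1) := by
    rw [PU_neg_one_dgv]
    congr 2
    funext i
    fin_cases i <;> rfl
  unfold x1
  simp only
  rw [h1, mul_assoc (dgv ![ee (a + b), 1, 1, 1]), h2, ← mul_assoc, mul_inv_cancel_right, dgv4_mul,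
    dgv4_mul]
  simp only [mul_one, one_mul]
  congr 2
  rw [← ee_add]
  congr 1
  ring

lemma x1_one (a b : ℝ) : x1 (1, a, b) = dK (0, a, b) := by
  unfold x1 dK
  simp only [sub_self, zero_div, ee_zero, PU_one, inv_one, mul_one]
  rw [dgv4_mul, dgv4_mul]
  simp only [mul_one, one_mul]

lemma x2_zero (a b : ℝ) : x2 (0, a, b) = dK (0, a, b) := by
  unfold x2
  simp only [zero_div, ee_zero, PU_one, mul_one]

lemma x2_one (a b : ℝ) : x2 (1, a, b) = dK (0, a, b) * PU 1 (-1) := by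
  unfold x2
  simp only [ee_half]
  rfl

lemma x3_eq (r a b : ℝ) : x3 (r, a, b) = dK (0, a, b) * PU 1 (-1) := rfl

lemma y3_zero (a b : ℝ) : y3 (0, a, b) = dgv v1 := by
  unfold y3 v1
  simp

lemma y3_one (a b : ℝ) : y3 (1, a, b) = dgv v4 := by
  unfold y3 v4
  simp only [ee_half, ee_neg, neg_one_inv_circle]

lemma x4_zero (a b : ℝ) : x4 (0, a, b) = dK (0, a, b) * PU 1 (-1) := by
  unfold x4
  simp only [sub_zero, ee_half]

lemma x4_one (a b : ℝ) : x4 (1, a, b) = dK (0, a, b) := by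
  unfold x4
  simp only [sub_self, zero_div, ee_zero, PU_one, mul_one]
  rfl

lemma x5_zero (a b : ℝ) : x5 (0, a, b) = dK (0, a, b) := by
  unfold x5 dK
  simp only [zero_div, ee_zero, PU_one, inv_one, mul_one]
  rw [dgv4_mul]
  simp only [mul_one, one_mul]

lemma x5_one (a b : ℝ) : x5 (1, a, b) = dgv ![ee a, 1, ee (-a), 1] := by
  have h2 : PU 3 (-1) * dgv ![1, 1, 1, ee (-b)] = dgv ![ee (-b), 1, 1, 1] * PU 3 (-1) := by
    rw [PU_neg_one_dgv]
    congr 2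
    funext i
    fin_cases i <;> rfl
  unfold x5
  simp only [ee_half]
  rw [mul_assoc (dgv ![ee (a + b), 1, ee (-a), 1]), h2, ← mul_assoc, mul_inv_cancel_right, dgv4_mul]
  simp only [mul_one]
  congr 2
  rw [← ee_add]
  congr 1
  ring

lemma K1_one (a b : ℝ) : K1 (1, a, b) = K2 (0, a, b) := XX_ext (by simp [x1_one, x2_zero]) (by simp)
lemma K2_one (a b : ℝ) : K2 (1, a, b) = K3 (0, a, b) :=
  XX_ext (by simp [x2_one, x3_eq]) (by simp [y3_zero])
lemma K3_one (a b : ℝ) : K3 (1, a, b) = K4 (0, a, b) :=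
  XX_ext (by simp [x3_eq, x4_zero]) (by simp [y3_one])
lemma K4_one (a b : ℝ) : K4 (1, a, b) = K5 (0, a, b) := XX_ext (by simp [x4_one, x5_zero]) (by simp)
lemma K5_one (a b b' : ℝ) : K5 (1, a, b) = K5 (1, a, b') := XX_ext (by simp [x5_one]) (by simp)
lemma K1_zero (a a' b : ℝ) : K1 (0, a, b) = K1 (0, a', b) := XX_ext (by simp [x1_zero]) (by simp)

lemma ee_add_one (a : ℝ) : ee (1 + a) = ee a := by rw [ee_add, ee_one, one_mul]
lemma ee_add_one' (a : ℝ) : ee (a + 1) = ee a := by rw [ee_add, ee_one, mul_one]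
lemma ee_neg_one : ee (-1) = 1 := by rw [ee_neg, ee_one, inv_one]

lemma dK_per1 (r b : ℝ) : dK (r, 1, b) = dK (r, 0, b) := by
  simp [dK, ee_add_one, ee_neg_one]
lemma dK_per2 (r a : ℝ) : dK (r, a, 1) = dK (r, a, 0) := by
  simp [dK, ee_add_one', ee_neg_one]

lemma K1_per1 (r b : ℝ) : K1 (r, 1, b) = K1 (r, 0, b) :=
  XX_ext (by simp [x1, ee_add_one, ee_neg_one]) (by simp)
lemma K1_per2 (r a : ℝ) : K1 (r, a, 1) = K1 (r, a, 0) :=
  XX_ext (by simp [x1, ee_add_one', ee_neg_one]) (by simp)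
lemma K2_per1 (r b : ℝ) : K2 (r, 1, b) = K2 (r, 0, b) :=
  XX_ext (by simp [x2, dK_per1]) (by simp)
lemma K2_per2 (r a : ℝ) : K2 (r, a, 1) = K2 (r, a, 0) :=
  XX_ext (by simp [x2, dK_per2]) (by simp)
lemma K3_per1 (r b : ℝ) : K3 (r, 1, b) = K3 (r, 0, b) :=
  XX_ext (by simp [x3, dK_per1]) (by simp [y3])
lemma K3_per2 (r a : ℝ) : K3 (r, a, 1) = K3 (r, a, 0) :=
  XX_ext (by simp [x3, dK_per2]) (by simp [y3])
lemma K4_per1 (r b : ℝ) : K4 (r, 1, b) = K4 (r, 0, b) :=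
  XX_ext (by simp [x4, dK_per1]) (by simp)
lemma K4_per2 (r a : ℝ) : K4 (r, a, 1) = K4 (r, a, 0) :=
  XX_ext (by simp [x4, dK_per2]) (by simp)
lemma K5_per1 (r b : ℝ) : K5 (r, 1, b) = K5 (r, 0, b) :=
  XX_ext (by simp [x5, ee_add_one, ee_neg_one]) (by simp)
lemma K5_per2 (r a : ℝ) : K5 (r, a, 1) = K5 (r, a, 0) :=
  XX_ext (by simp [x5, ee_add_one', ee_neg_one]) (by simp)

end

end Pool.Agent.EF97
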