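import Pool.Agent.EF97.Klein3

/-!
# The three-dimensional cycle: the cubes, the boundary and the values
-/

namespace Pool.Agent.EF97

open Topology unitInterval Pool.Agent.MP_a0fe07

noncomputable section

variable {Y : Type*} [TopologicalSpace Y]

/-- the three-dimensional cube of a map on `ℝ × ℝ × ℝ` -/
def cube3 (K : C(ℝ × ℝ × ℝ, Y)) : Cb Y where
  n := 3
  f := K.comp ⟨fun s : Q => ((s 0 : ℝ), (s 1 : ℝ), (s 2 : ℝ)), by fun_prop⟩
  dep s t h := by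
    simp only [ContinuousMap.comp_apply, ContinuousMap.coe_mk]
    rw [h 0 (by norm_num), h 1 (by norm_num), h 2 (by norm_num)]

/-- the two-dimensional cube of a map on `ℝ × ℝ` -/
def cube2 (K : C(ℝ × ℝ, Y)) : Cb Y where
  n := 2
  f := K.comp ⟨fun s : Q => ((s 0 : ℝ), (s 1 : ℝ)), by fun_prop⟩
  dep s t h := by
    simp only [ContinuousMap.comp_apply, ContinuousMap.coe_mk]
    rw [h 0 (by norm_num), h 1 (by norm_num)]

@[simp] lemma cube3_n (K : C(ℝ × ℝ × ℝ, Y)) : (cube3 K).n = 3 := rfl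
@[simp] lemma cube2_n (K : C(ℝ × ℝ, Y)) : (cube2 K).n = 2 := rfl
@[simp] lemma cube3_f (K : C(ℝ × ℝ × ℝ, Y)) (s : Q) : (cube3 K).f s = K (s 0, s 1, s 2) := rfl
@[simp] lemma cube2_f (K : C(ℝ × ℝ, Y)) (s : Q) : (cube2 K).f s = K (s 0, s 1) := rfl

lemma cube2_deg (K : C(ℝ × ℝ, Y)) (h : ∀ a b b' : ℝ, K (a, b) = K (a, b')) :
    (cb (cube2 K) : Ch Y) = 0 := by
  apply cb_deg
  refine ⟨by norm_num, fun s t hst => ?_⟩
  rw [cube2_f, cube2_f, hst 0 (by norm_num)]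
  exact h _ _ _

/-- fix the first coordinate -/
def sl0 (K : C(ℝ × ℝ × ℝ, Y)) (c : ℝ) : C(ℝ × ℝ, Y) := K.comp ⟨fun p => (c, p.1, p.2), by fun_prop⟩
/-- fix the second coordinate -/
def sl1 (K : C(ℝ × ℝ × ℝ, Y)) (c : ℝ) : C(ℝ × ℝ, Y) := K.comp ⟨fun p => (p.1, c, p.2), by fun_prop⟩
/-- fix the third coordinate -/
def sl2 (K : C(ℝ × ℝ × ℝ, Y)) (c : ℝ) : C(ℝ × ℝ, Y) := K.comp ⟨fun p => (p.1, p.2, c), by fun_prop⟩

@[simp] lemma sl0_apply (K : C(ℝ × ℝ × ℝ, Y)) (c : ℝ) (p : ℝ × ℝ) : sl0 K c p = K (c, p.1, p.2) := rfl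
@[simp] lemma sl1_apply (K : C(ℝ × ℝ × ℝ, Y)) (c : ℝ) (p : ℝ × ℝ) : sl1 K c p = K (p.1, c, p.2) := rfl
@[simp] lemma sl2_apply (K : C(ℝ × ℝ × ℝ, Y)) (c : ℝ) (p : ℝ × ℝ) : sl2 K c p = K (p.1, p.2, c) := rfl

lemma cube3_face0 (K : C(ℝ × ℝ × ℝ, Y)) (ε : I) : (cube3 K).face 0 ε = cube2 (sl0 K ε) := by
  ext1
  · rfl
  · ext1 s
    rfl

lemma cube3_face1 (K : C(ℝ × ℝ × ℝ, Y)) (ε : I) : (cube3 K).face 1 ε = cube2 (sl1 K ε) := by
  ext1
  · rfl
  · ext1 s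
    rfl

lemma cube3_face2 (K : C(ℝ × ℝ × ℝ, Y)) (ε : I) : (cube3 K).face 2 ε = cube2 (sl2 K ε) := by
  ext1
  · rfl
  · ext1 s
    rfl

lemma bd_cube3 (K : C(ℝ × ℝ × ℝ, Y)) : bd (cb (cube3 K) : Ch Y) =
    (cb (cube2 (sl0 K 1)) - cb (cube2 (sl0 K 0))) - (cb (cube2 (sl1 K 1)) - cb (cube2 (sl1 K 0))) +
      (cb (cube2 (sl2 K 1)) - cb (cube2 (sl2 K 0))) := by
  rw [bd_cb, cube3_n]
  simp only [Finset.sum_range_succ, Finset.sum_range_zero, bdi_cb, cube3_face0, cube3_face1,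
    cube3_face2, Set.Icc.coe_one, Set.Icc.coe_zero]
  simp only [pow_zero, pow_one, one_smul, neg_smul, zero_add, neg_one_sq]
  abel

lemma bd_cube3_per (K : C(ℝ × ℝ × ℝ, Y)) (h1 : ∀ r b : ℝ, K (r, 1, b) = K (r, 0, b))
    (h2 : ∀ r a : ℝ, K (r, a, 1) = K (r, a, 0)) : bd (cb (cube3 K) : Ch Y) =
    cb (cube2 (sl0 K 1)) - cb (cube2 (sl0 K 0)) := by
  have e1 : sl1 K 1 = sl1 K 0 := by ext p; exact h1 _ _
  have e2 : sl2 K 1 = sl2 K 0 := by ext p; exact h2 _ _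
  rw [bd_cube3, e1, e2]
  abel

/-- the first cube -/
def k1 : Cb XX := cube3 K1
/-- the second cube -/
def k2 : Cb XX := cube3 K2
/-- the third cube -/
def k3 : Cb XX := cube3 K3
/-- the fourth cube -/
def k4 : Cb XX := cube3 K4
/-- the fifth cube -/
def k5 : Cb XX := cube3 K5
/-- the correction cube -/
def kE : Cb XX := cube3 KE

/-- the cycle -/
def kap : Ch XX := cb k1 + cb k2 + cb k3 + cb k4 + cb k5 + cb kE

lemma kap_mem : kap ∈ hom XX 3 := by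
  unfold kap
  refine Submodule.add_mem _ (Submodule.add_mem _ (Submodule.add_mem _ (Submodule.add_mem _
    (Submodule.add_mem _ ?_ ?_) ?_) ?_) ?_) ?_ <;> exact cb_mem_hom rfl

lemma bd_kE : bd (cb kE : Ch XX) = cb (cube2 (sl0 K1 0)) := by
  unfold kE
  rw [bd_cube3]
  have e1 : sl1 KE 1 = sl1 KE 0 := by
    ext1 p
    simp only [sl1_apply, KE_apply]
    exact K1_zero _ _ _
  have e2 : (cb (cube2 (sl2 KE 1)) : Ch XX) = 0 := by
    apply cube2_deg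
    intro a b b'
    simp only [sl2_apply, KE_apply]
    exact K1_zero _ _ _
  have e3 : (cb (cube2 (sl2 KE 0)) : Ch XX) = 0 := by
    apply cube2_deg
    intro a b b'
    simp only [sl2_apply, KE_apply]
    exact K1_zero _ _ _
  have e4 : (cb (cube2 (sl0 KE 0)) : Ch XX) = 0 := by
    apply cube2_deg
    intro a b b'
    simp only [sl0_apply, KE_apply, zero_mul]
  have e5 : sl0 KE 1 = sl0 K1 0 := by
    ext1 p
    simp only [sl0_apply, KE_apply, one_mul]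
  rw [e1, e2, e3, e4, e5]
  abel

theorem bd_kap : bd kap = 0 := by
  have h12 : sl0 K1 1 = sl0 K2 0 := by ext1 p; exact K1_one _ _
  have h23 : sl0 K2 1 = sl0 K3 0 := by ext1 p; exact K2_one _ _
  have h34 : sl0 K3 1 = sl0 K4 0 := by ext1 p; exact K3_one _ _
  have h45 : sl0 K4 1 = sl0 K5 0 := by ext1 p; exact K4_one _ _
  have h5 : (cb (cube2 (sl0 K5 1)) : Ch XX) = 0 := cube2_deg _ fun a b b' => K5_one _ _ _
  unfold kap
  simp only [map_add, bd_kE]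
  unfold k1 k2 k3 k4 k5
  rw [bd_cube3_per K1 K1_per1 K1_per2, bd_cube3_per K2 K2_per1 K2_per2,
    bd_cube3_per K3 K3_per1 K3_per2, bd_cube3_per K4 K4_per1 K4_per2,
    bd_cube3_per K5 K5_per1 K5_per2, h12, h23, h34, h45, h5]
  abel

/-! ## Values of the locally constant function -/

lemma det_dgv (v : Fin 4 → Circle) : (dgv v : M4).det = v 0 * v 1 * v 2 * v 3 := by
  rw [dgv_coe, Matrix.det_diagonal, Fin.prod_univ_four]

lemma trace_dgv (v : Fin 4 → Circle) : (dgv v : M4).trace = v 0 + v 1 + v 2 + v 3 := by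
  rw [dgv_coe, Matrix.trace_diagonal, Fin.sum_univ_four]

lemma rr_v1 {r : XX} (h : ky r = dgv v1) : rr r = 0 := by
  apply rr_of_Va
  right
  rw [h, trace_dgv]
  simp [v1]

lemma rr_v4 {r : XX} (h : ky r = dgv v4) : rr r = 1 := by
  apply rr_of_Vb
  constructor
  · rw [h, det_dgv]
    simp [v4]
  · rw [h, trace_dgv]
    simp [v4]

theorem rr_k1 (s : Q) : rr (k1.f s) = 0 := rr_v1 (ky_K1 _)
theorem rr_k2 (s : Q) : rr (k2.f s) = 0 := rr_v1 (ky_K2 _)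
theorem rr_kE (s : Q) : rr (kE.f s) = 0 := rr_v1 (ky_K1 _)
theorem rr_k4 (s : Q) : rr (k4.f s) = 1 := rr_v4 (ky_K4 _)
theorem rr_k5 (s : Q) : rr (k5.f s) = 1 := rr_v4 (ky_K5 _)

lemma ky_k3 (s : Q) : ky (k3.f s) = y3 (s 0, s 1, s 2) := ky_K3 _
lemma kx_k3 (s : Q) : kx (k3.f s) = x3 (s 0, s 1, s 2) := kx_K3 _

lemma det_k3 (s : Q) : (ky (k3.f s) : M4).det = -1 := by
  rw [ky_k3, y3, det_dgv]
  simp [ee_neg]

lemma trace_k3 (s : Q) : (ky (k3.f s) : M4).trace.re = 2 * Real.cos (Real.pi * (s 0 : ℝ)) := by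
  rw [ky_k3, y3, trace_dgv]
  have h : ∀ t : ℝ, (ee t : ℂ).re = Real.cos (2 * Real.pi * t) := by
    intro t
    rw [ee, Circle.coe_exp, Complex.exp_ofReal_mul_I_re]
  simp only [Matrix.cons_val_zero, Matrix.cons_val_one, Matrix.cons_val, Complex.add_re, h,
    Circle.coe_one, Circle.coe_neg, Complex.one_re, Complex.neg_re]
  have h1 : 2 * Real.pi * ((s 0 : ℝ) / 2) = Real.pi * (s 0 : ℝ) := by ring
  have h2 : 2 * Real.pi * -((s 0 : ℝ) / 2) = -(Real.pi * (s 0 : ℝ)) := by ring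
  rw [h1, h2, Real.cos_neg]
  ring

theorem rr_k3 (s : Q) : rr (k3.f s) = if (s 0 : ℝ) < 1 / 2 then 0 else 1 := by
  have h0 := (s 0).2.1
  have h1 := (s 0).2.2
  have hp := Real.pi_pos
  unfold rr
  rw [trace_k3]
  simp only [det_k3, true_and]
  by_cases h : (s 0 : ℝ) < 1 / 2
  · rw [if_pos h, if_neg]
    rw [not_le]
    have : 0 < Real.cos (Real.pi * (s 0 : ℝ)) := by
      apply Real.cos_pos_of_mem_Ioo
      constructor
      · nlinarith
      · nlinarith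
    linarith
  · rw [if_neg h, if_pos]
    have : Real.cos (Real.pi * (s 0 : ℝ)) ≤ 0 := by
      apply Real.cos_nonpos_of_pi_div_two_le_of_le
      · nlinarith
      · nlinarith
    linarith

/-! ## Values of the invariant functions on the wall -/

lemma ee_quarter : (ee (1 / 2 / 2) : ℂ) = Complex.I := by
  rw [ee, Circle.coe_exp]
  have : ((2 * Real.pi * (1 / 2 / 2) : ℝ) : ℂ) = Real.pi / 2 := by push_cast; ring
  rw [this, Complex.exp_pi_div_two_mul_I]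

lemma ky_wall {s : Q} (h : (s 0 : ℝ) = 1 / 2) :
    (ky (k3.f s) : M4) = Matrix.diagonal ![Complex.I, -Complex.I, 1, -1] := by
  rw [ky_k3, y3, dgv_coe]
  congr 1
  funext i
  fin_cases i
  · simp only [h]
    exact ee_quarter
  · simp only [h]
    change (ee (-(1 / 2 / 2)) : ℂ) = -Complex.I
    rw [ee_neg, Circle.coe_inv, ee_quarter, Complex.inv_I]
  · rfl
  · rfl

lemma PP_wall : PP (Matrix.diagonal ![Complex.I, -Complex.I, 1, -1]) = Matrix.diagonal ![0, 0, 0, 1] := by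
  unfold PP
  rw [Matrix.diagonal_pow, Matrix.diagonal_pow, ← Matrix.diagonal_one, Matrix.diagonal_sub,
    Matrix.diagonal_add, Matrix.diagonal_sub, ← Matrix.diagonal_smul]
  congr 1
  funext i
  have hI := Complex.I_sq
  fin_cases i
  · change (1 / 4 : ℂ) * (1 - Complex.I + Complex.I ^ 2 - Complex.I ^ 3) = 0
    linear_combination (1 / 4 : ℂ) * (1 - Complex.I) * hI
  · change (1 / 4 : ℂ) * (1 - -Complex.I + (-Complex.I) ^ 2 - (-Complex.I) ^ 3) = 0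
    linear_combination (1 / 4 : ℂ) * (1 + Complex.I) * hI
  · change (1 / 4 : ℂ) * (1 - 1 + 1 ^ 2 - 1 ^ 3) = 0
    norm_num
  · change (1 / 4 : ℂ) * (1 - -1 + (-1) ^ 2 - (-1) ^ 3) = 1
    norm_num

lemma QQ_wall : QQ (Matrix.diagonal ![Complex.I, -Complex.I, 1, -1]) = Matrix.diagonal ![0, 0, 1, 0] := by
  unfold QQ
  rw [Matrix.diagonal_pow, Matrix.diagonal_pow, ← Matrix.diagonal_one, Matrix.diagonal_add,
    Matrix.diagonal_add, Matrix.diagonal_add, ← Matrix.diagonal_smul]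
  congr 1
  funext i
  have hI := Complex.I_sq
  fin_cases i
  · change (1 / 4 : ℂ) * (1 + Complex.I + Complex.I ^ 2 + Complex.I ^ 3) = 0
    linear_combination (1 / 4 : ℂ) * (1 + Complex.I) * hI
  · change (1 / 4 : ℂ) * (1 + -Complex.I + (-Complex.I) ^ 2 + (-Complex.I) ^ 3) = 0
    linear_combination (1 / 4 : ℂ) * (1 - Complex.I) * hI
  · change (1 / 4 : ℂ) * (1 + 1 + 1 ^ 2 + 1 ^ 3) = 1
    norm_num
  · change (1 / 4 : ℂ) * (1 + -1 + (-1) ^ 2 + (-1) ^ 3) = 0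
    norm_num

lemma kx_wall (s : Q) : (kx (k3.f s) : M4) =
    Matrix.diagonal ![(ee ((s 1 : ℝ) + (s 2 : ℝ)) : ℂ), 1, ee (-(s 1 : ℝ)), ee (-(s 2 : ℝ))] * TT 1 := by
  rw [kx_k3, x3, U4_mul_coe, PU_neg_one, dK, dgv_coe]
  congr 2
  funext i
  fin_cases i <;> rfl

lemma TT_P : TT 1 * Matrix.diagonal ![(0 : ℂ), 0, 0, 1] = Matrix.diagonal ![0, 0, 0, 1] := by
  ext a b
  rw [Matrix.mul_diagonal]
  unfold TT
  simp only [Equiv.Perm.permMatrix, PEquiv.toMatrix_apply, Equiv.toPEquiv_apply, Option.mem_def,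
    Option.some.injEq]
  fin_cases a <;> fin_cases b <;> simp [Equiv.swap_apply_def]

lemma TT_Q : TT 1 * Matrix.diagonal ![(0 : ℂ), 0, 1, 0] = Matrix.diagonal ![0, 0, 1, 0] := by
  ext a b
  rw [Matrix.mul_diagonal]
  unfold TT
  simp only [Equiv.Perm.permMatrix, PEquiv.toMatrix_apply, Equiv.toPEquiv_apply, Option.mem_def,
    Option.some.injEq]
  fin_cases a <;> fin_cases b <;> simp [Equiv.swap_apply_def]

/-- on the wall `F0 = exp (- 2 π i s_2)` -/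
theorem F0_k3 {s : Q} (h : (s 0 : ℝ) = 1 / 2) : F0 (k3.f s) = (ee (-(s 2 : ℝ)) : ℂ) := by
  rw [F0_apply, ky_wall h, PP_wall, kx_wall, mul_assoc, TT_P, Matrix.diagonal_mul_diagonal,
    ← Matrix.diagonal_one, Matrix.diagonal_sub, Matrix.diagonal_add, Matrix.det_diagonal,
    Fin.prod_univ_four]
  simp

/-- on the wall `F1 = exp (- 2 π i s_1)` -/
theorem F1_k3 {s : Q} (h : (s 0 : ℝ) = 1 / 2) : F1 (k3.f s) = (ee (-(s 1 : ℝ)) : ℂ) := by
  rw [F1_apply, ky_wall h, QQ_wall, kx_wall, mul_assoc, TT_Q, Matrix.diagonal_mul_diagonal,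
    ← Matrix.diagonal_one, Matrix.diagonal_sub, Matrix.diagonal_add, Matrix.det_diagonal,
    Fin.prod_univ_four]
  simp

end

end Pool.Agent.EF97
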