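import Pool.Agent.EF97.Eval
import Pool.Agent.EF97.Inj

/-!
# The abstract non-formality theorem
-/

namespace Pool.Agent.EF97

open Topology unitInterval
open Pool.Agent.MP_a0fe07
open scoped ComplexConjugate

noncomputable section

/-- data on a `G`-space `X` which exclude the collapse of the Serre spectral sequence -/
structure Pack (G X : Type*) [Group G] [TopologicalSpace G] [TopologicalSpace X]
    [MulAction G X] where
  /-- a circle subgroup -/
  hh : C(ℝ, G)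
  hh_add : ∀ a b, hh (a + b) = hh a * hh b
  hh_one : hh 1 = 1
  hh_int : ∀ a, hh a = 1 → ∃ n : ℤ, a = n
  /-- a step function -/
  r : X → ℚ
  r_inv : ∀ (g : G) (x : X), r (g • x) = r x
  /-- the first invariant function -/
  F0 : C(X, ℂ)
  /-- the second invariant function -/
  F1 : C(X, ℂ)
  F0_inv : ∀ (g : G) (x : X), F0 (g • x) = F0 x
  F1_inv : ∀ (g : G) (x : X), F1 (g • x) = F1 x
  /-- indices of the weight functions -/
  J : Type
  /-- a finite list of indices -/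
  l : List J
  /-- the weight functions -/
  f : J → C(X, ℂ)
  /-- the weights -/
  wt : J → ℤ
  wt_ne : ∀ j ∈ l, wt j ≠ 0
  f_eq : ∀ j a (x : X), f j (hh a • x) = eu (wt j * a) * f j x
  /-- two open sets -/
  Va : Bool → Set X
  Va_open : ∀ b, IsOpen (Va b)
  Va_const : ∀ b, ∀ x ∈ Va b, ∀ y ∈ Va b, r x = r y
  cover : ∀ x, (∃ b, x ∈ Va b) ∨ (F0 x ≠ 0 ∧ F1 x ≠ 0 ∧ ∃ j ∈ l, f j x ≠ 0)
  /-- the cycle -/
  κ : Ch X
  κ_hom : κ ∈ hom X 3
  κ_bd : bd κ = 0
  /-- the main cube of the cycle -/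
  u : Cb X
  u_n : u.n = 3
  u_r : ∀ s, r (u.f s) = if (s 0 : ℝ) < 1 / 2 then 0 else 1
  u_F0 : ∀ s, (s 0 : ℝ) = 1 / 2 →
    F0 (u.f s) = Complex.exp (-(2 * Real.pi * Complex.I * ((s 2 : ℝ) : ℂ)))
  u_F1 : ∀ s, (s 0 : ℝ) = 1 / 2 →
    F1 (u.f s) = Complex.exp (-(2 * Real.pi * Complex.I * ((s 1 : ℝ) : ℂ)))
  rest : κ - cb u ∈ Submodule.span ℚ {x : Ch X | ∃ v : Cb X,
    (∀ s t, r (v.f s) = r (v.f t)) ∧ x = cb v}

variable {G X : Type*} [Group G] [TopologicalSpace G] [IsTopologicalGroup G]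
  [PathConnectedSpace G] [TopologicalSpace X] [MulAction G X] [ContinuousSMul G X]

theorem Pack.not_collapses (pk : Pack G X) {E : Type*} [TopologicalSpace E] [MulAction G E]
    (hE : IsUniversalBundle G E) : ¬ CollapsesAtE2 (borelProj G E X) := by
  intro hcol
  have := hE.continuousSMul
  have := hE.contractible
  obtain ⟨e₀⟩ : Nonempty E := inferInstance
  obtain ⟨ρ, hρ⟩ := exists_rho
  -- the circle action
  let μ : C(ℝ × (E × X), E × X) :=
    ⟨fun p => (pk.hh p.1 • p.2.1, pk.hh p.1 • p.2.2), by fun_prop⟩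
  have hμe : ∀ a p, μ (a, p) = (pk.hh a • p.1, pk.hh a • p.2) := fun a p => rfl
  have hh0 : pk.hh 0 = 1 := by
    have := pk.hh_add 0 0
    rw [add_zero] at this
    exact (left_eq_mul.mp this)
  have hμ : CircAct μ := by
    refine ⟨fun a b p => ?_, fun p => ?_, fun p => ?_⟩
    · rw [hμe, hμe, hμe, pk.hh_add, mul_smul, mul_smul]
    · rw [hμe, hh0, one_smul, one_smul]
    · rw [hμe, pk.hh_one, one_smul, one_smul]
  have hfree : ∀ a p, μ (a, p) = p → ∃ n : ℤ, a = n := by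
    intro a p h
    apply pk.hh_int
    apply hE.free (e := p.1)
    exact congrArg Prod.fst h
  have hR : RAct μ := RAct.of_circ hμ hfree
  have hπ : ∀ a p, orbC G (E × X) (μ (a, p)) = orbC G (E × X) p := by
    intro a p
    exact orb_eq_orb.mpr ⟨pk.hh a, rfl⟩
  -- the functions on `E × X`
  let sn : C(E × X, X) := ⟨Prod.snd, continuous_snd⟩
  let io : C(X, E × X) := ⟨fun x => (e₀, x), by fun_prop⟩
  let r' : E × X → ℚ := fun p => pk.r p.2
  let η₀ : Th (E × X) := etaTh ρ (fun p => pk.F0 p.2)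
  let η₁ : Th (E × X) := etaTh ρ (fun p => pk.F1 p.2)
  let θ : pk.J → Th (E × X) := fun j => angTh ρ hR (pk.wt j) (fun p => pk.f j p.2)
  let l' : List (Th (E × X)) := pk.l.map θ
  have hfj : ∀ j a p, (fun p : E × X => pk.f j p.2) (μ (a, p)) =
      eu (pk.wt j * a) * (fun p : E × X => pk.f j p.2) p := fun j a p => pk.f_eq j a p.2
  -- the cover
  let V : Bool ⊕ (ℂ × ℂ × {j : pk.J // j ∈ pk.l} × ℂ) → Set (E × X) := fun i =>
    match i with
    | Sum.inl b => {p | p.2 ∈ pk.Va b}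
    | Sum.inr (u0, u1, j, u2) => {p | (0 < (pk.F0 p.2 * conj u0).re ∧
        0 < (pk.F1 p.2 * conj u1).re) ∧ 0 < (pk.f j.1 p.2 * conj u2).re}
  have hVo : ∀ i, IsOpen (V i) := by
    rintro (b | ⟨u0, u1, j, u2⟩)
    · exact (pk.Va_open b).preimage continuous_snd
    · have h1 : ∀ (F : C(X, ℂ)) (u : ℂ), IsOpen {p : E × X | 0 < (F p.2 * conj u).re} := by
        intro F u
        apply isOpen_lt continuous_const
        fun_prop
      exact ((h1 _ _).inter (h1 _ _)).inter (h1 _ _)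
  have hsq : ∀ z : ℂ, z ≠ 0 → 0 < (z * conj z).re := by
    intro z hz
    rw [Complex.mul_conj, Complex.ofReal_re]
    exact Complex.normSq_pos.mpr hz
  have hVU : ∀ p, ∃ i, p ∈ V i := by
    intro p
    rcases pk.cover p.2 with ⟨b, hb⟩ | ⟨h0, h1, j, hj, h2⟩
    · exact ⟨Sum.inl b, hb⟩
    · exact ⟨Sum.inr (pk.F0 p.2, pk.F1 p.2, ⟨j, hj⟩, pk.f j p.2),
        ⟨hsq _ h0, hsq _ h1⟩, hsq _ h2⟩
  have hmono : ∀ (θ : Th (E × X)) {V W : Set (E × X)}, V ⊆ W → ClosedOn θ W → ClosedOn θ V := by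
    rintro θ V W hVW ⟨ψ, hψ⟩
    exact ⟨ψ, fun p hp => hψ p fun t => hVW (hp t)⟩
  have hV : ∀ i, (∀ p ∈ V i, ∀ q ∈ V i, r' p = r' q) ∨
      (ClosedOn η₀ (V i) ∧ ClosedOn η₁ (V i) ∧ ∃ θ' ∈ l', ClosedOn θ' (V i)) := by
    rintro (b | ⟨u0, u1, j, u2⟩)
    · left
      intro p hp q hq
      exact pk.Va_const b _ hp _ hq
    · right
      refine ⟨?_, ?_, θ j.1, List.mem_map_of_mem j.2, ?_⟩
      · exact hmono _ (fun p hp => hp.1.1) (etaTh_closed (f := fun p : E × X => pk.F0 p.2) u0)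
      · exact hmono _ (fun p hp => hp.1.2) (etaTh_closed (f := fun p : E × X => pk.F1 p.2) u1)
      · exact hmono _ (fun p hp => hp.2) (angTh_closed (hμ := hR)
          (f := fun p : E × X => pk.f j.1 p.2) (by fun_prop) (hfj j.1) u2)
  -- the tower
  obtain ⟨W, hW, hW0⟩ := exists_tower hμ hπ
    (fun n hn z hz hb hp => inj hE hcol hn hz hb hp)
    (κ := push io pk.κ) (push_mem_hom io pk.κ_hom) (by rw [bd_push, pk.κ_bd, map_zero]) l'.length
  -- subdivision
  have hM : ∀ L : ℕ, ∃ M₀ : ℕ, ∀ n ≤ L, ∀ M, M₀ ≤ M → 0 < M →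
      Sd M (W n) ∈ (⨆ i, on (V i) : Submodule ℚ (Ch (E × X))) := by
    intro L
    induction L with
    | zero =>
      obtain ⟨M₀, h⟩ := Sd_small hVo hVU (W 0)
      exact ⟨M₀, fun n hn => by obtain rfl : n = 0 := by omega
                                exact h⟩
    | succ L ih =>
      obtain ⟨M₁, h1⟩ := ih
      obtain ⟨M₂, h2⟩ := Sd_small hVo hVU (W (L + 1))
      refine ⟨max M₁ M₂, fun n hn M hM h0 => ?_⟩
      rcases eq_or_ne n (L + 1) with rfl | hne
      · exact h2 M (le_trans (le_max_right _ _) hM) h0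
      · exact h1 n (by omega) M (le_trans (le_max_left _ _) hM) h0
  obtain ⟨M₀, hM₀⟩ := hM l'.length
  set m : ℕ := M₀ + 4 with hm
  have hMpos : 0 < 2 * m := by omega
  have hT : Tower μ (fun n => Sd (2 * m) (NN n)) 3 l'.length (fun n => Sd (2 * m) (W n)) := by
    refine ⟨fun n hn => Sd_mem_hom (hW.deg n hn), ?_, fun k hk => ?_⟩
    · rw [bd_Sd hMpos, hW.bd0, map_zero]
    · rw [bd_Sd hMpos, hW.bdS k hk, map_sum]
      apply Finset.sum_congr rfl
      intro p _
      exact Sd_mul _ _ _ _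
  have hvan := tower_vanish l' hT (by
      intro θ' hθ'
      obtain ⟨j, hj, rfl⟩ := List.mem_map.mp hθ'
      exact angTh_weighted (hμ := hR) hρ (pk.wt_ne j hj) (hfj j))
    (r := r') (η₀ := η₀) (η₁ := η₁) (fun a p => pk.r_inv _ _)
    (etaTh_unweighted fun a p => pk.F0_inv _ _) (etaTh_unweighted fun a p => pk.F1_inv _ _)
    (fun n => by
      rw [sg_of_hom (Sd_mem_hom (NN_hom n)), pow_succ, pow_mul]
      simp)
    (by rw [bd_Sd hMpos, bd_NN_zero, Sd_hom_zero]
        exact Submodule.sub_mem _ (cb_mem_hom rfl) (cb_mem_hom rfl))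
    hV (fun n hn => hM₀ n hn _ (by omega) hMpos)
  -- evaluation
  rw [hW0] at hvan
  have hdec : push io pk.κ = cb (pk.u.push io) + push io (pk.κ - cb pk.u) := by
    rw [map_sub, push_cb]; abel
  have hrest : ∀ x ∈ Submodule.span ℚ {x : Ch X | ∃ v : Cb X,
      (∀ s t, pk.r (v.f s) = pk.r (v.f t)) ∧ x = cb v},
      BB r' η₀ η₁ (Sd (2 * m) (push io x)) = 0 := by
    intro x hx
    have : Submodule.span ℚ {x : Ch X | ∃ v : Cb X,
      (∀ s t, pk.r (v.f s) = pk.r (v.f t)) ∧ x = cb v} ≤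
        LinearMap.ker (BB r' η₀ η₁ ∘ₗ Sd (2 * m) ∘ₗ push io) := by
      rw [Submodule.span_le]
      rintro _ ⟨v, hv, rfl⟩
      change BB r' η₀ η₁ (Sd (2 * m) (push io (cb v))) = 0
      rw [push_cb]
      apply BB_eval_zero
      intro s t
      exact hv s t
    exact this hx
  have hev := eval hρ (r := r') (angVal_etaTh ρ (fun p : E × X => pk.F0 p.2))
    (angVal_etaTh ρ (fun p : E × X => pk.F1 p.2)) (u := pk.u.push io) pk.u_n pk.u_r pk.u_F0 pk.u_F1
    (m := m) (by omega)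
  rw [hdec, map_add, map_add, map_add, hrest _ pk.rest, map_zero, add_zero] at hvan
  rw [hvan] at hev
  norm_num at hev

end

end Pool.Agent.EF97
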