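import Pool.Agent.EF97.U4Def
import Pool.Agent.MP_a0fe07.Contr

/-!
# The unitary group U(4): compact, path connected, with a universal bundle
-/

namespace Pool.Agent.EF97

open Topology unitInterval Pool.Agent.MP_a0fe07
open scoped ComplexConjugate InnerProductSpace

noncomputable section

/-! ## Compactness -/

/-- the set of matrices with entries of norm at most one -/
theorem isCompact_entries : IsCompact {A : Matrix (Fin 4) (Fin 4) ℂ | ∀ i j, ‖A i j‖ ≤ 1} := by
  have h : {A : Fin 4 → Fin 4 → ℂ | ∀ i j, ‖A i j‖ ≤ 1} =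
      Set.pi Set.univ fun _ : Fin 4 => Set.pi Set.univ fun _ : Fin 4 =>
        Metric.closedBall (0 : ℂ) 1 := by
    ext A
    simp [Set.mem_pi]
  have h2 : IsCompact {A : Fin 4 → Fin 4 → ℂ | ∀ i j, ‖A i j‖ ≤ 1} := by
    rw [h]
    exact isCompact_univ_pi fun _ => isCompact_univ_pi fun _ => isCompact_closedBall 0 1
  exact h2

instance : CompactSpace U4 := by
  apply isCompact_iff_compactSpace.mp
  refine isCompact_entries.of_isClosed_subset (isClosed_unitary) ?_
  intro A hA i j
  exact entry_norm_bound_of_unitary hA i j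

/-! ## Gram-Schmidt -/

/-- the columns of a matrix -/
def colE (C : Matrix (Fin 4) (Fin 4) ℂ) (j : Fin 4) : EuclideanSpace ℂ (Fin 4) :=
  WithLp.toLp 2 fun i => C i j

theorem colE_apply (C : Matrix (Fin 4) (Fin 4) ℂ) (i j : Fin 4) : colE C j i = C i j := rfl

theorem continuous_colE (j : Fin 4) : Continuous fun C => colE C j := by
  unfold colE
  fun_prop

theorem colE_li {C : Matrix (Fin 4) (Fin 4) ℂ} (hC : C.det ≠ 0) : LinearIndependent ℂ (colE C) := by
  have h1 : LinearIndependent ℂ C.col := Matrix.linearIndependent_cols_of_det_ne_zero hC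
  have h2 : colE C = (WithLp.linearEquiv 2 ℂ (Fin 4 → ℂ)).symm ∘ C.col := by
    funext j
    rfl
  rw [h2]
  exact h1.map' _ (WithLp.linearEquiv 2 ℂ (Fin 4 → ℂ)).symm.ker

/-- Gram-Schmidt for the columns -/
def gsM (C : Matrix (Fin 4) (Fin 4) ℂ) : Matrix (Fin 4) (Fin 4) ℂ :=
  fun i j => InnerProductSpace.gramSchmidtNormed ℂ (colE C) j i

theorem gsM_mem {C : Matrix (Fin 4) (Fin 4) ℂ} (hC : C.det ≠ 0) :
    gsM C ∈ Matrix.unitaryGroup (Fin 4) ℂ := by
  rw [Matrix.mem_unitaryGroup_iff']
  have h := InnerProductSpace.gramSchmidtNormed_orthonormal (𝕜 := ℂ) (colE_li hC)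
  rw [orthonormal_iff_ite] at h
  ext i j
  rw [Matrix.mul_apply, Matrix.one_apply, ← h i j, PiLp.inner_apply]
  refine Finset.sum_congr rfl fun k _ => ?_
  rw [Matrix.star_apply, RCLike.inner_apply]
  exact mul_comm _ _

theorem gs_map {E : Type*} [NormedAddCommGroup E] [InnerProductSpace ℂ E] (L : E →ₗᵢ[ℂ] E)
    (f : Fin 4 → E) (n : Fin 4) :
    InnerProductSpace.gramSchmidt ℂ (fun i => L (f i)) n = L (InnerProductSpace.gramSchmidt ℂ f n) := by
  induction n using WellFoundedLT.induction with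
  | ind n ih =>
    rw [InnerProductSpace.gramSchmidt_def, InnerProductSpace.gramSchmidt_def, map_sub, map_sum]
    congr 1
    refine Finset.sum_congr rfl fun i hi => ?_
    rw [ih i (Finset.mem_Iio.mp hi), Submodule.starProjection_singleton,
      Submodule.starProjection_singleton, map_smul, L.inner_map_map, L.norm_map]

theorem gsN_map {E : Type*} [NormedAddCommGroup E] [InnerProductSpace ℂ E] (L : E →ₗᵢ[ℂ] E)
    (f : Fin 4 → E) (n : Fin 4) :
    InnerProductSpace.gramSchmidtNormed ℂ (fun i => L (f i)) n =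
      L (InnerProductSpace.gramSchmidtNormed ℂ f n) := by
  unfold InnerProductSpace.gramSchmidtNormed
  rw [gs_map, map_smul, L.norm_map]

/-- a unitary matrix as a linear isometry -/
def uIso (g : U4) : EuclideanSpace ℂ (Fin 4) →ₗᵢ[ℂ] EuclideanSpace ℂ (Fin 4) where
  toLinearMap := Matrix.toEuclideanLin (g : Matrix (Fin 4) (Fin 4) ℂ)
  norm_map' x := by
    have h1 : ‖Matrix.toEuclideanLin (g : Matrix (Fin 4) (Fin 4) ℂ) x‖ ^ 2 = ‖x‖ ^ 2 := by
      rw [← @inner_self_eq_norm_sq ℂ, ← @inner_self_eq_norm_sq ℂ,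
        ← LinearMap.adjoint_inner_right, ← Matrix.toEuclideanLin_conjTranspose_eq_adjoint,
        ← LinearMap.comp_apply, ← Matrix.toLpLin_mul_same,
        ← Matrix.star_eq_conjTranspose, Matrix.mem_unitaryGroup_iff'.mp g.2]
      simp
    exact (sq_eq_sq₀ (norm_nonneg _) (norm_nonneg _)).mp h1

theorem colE_mul (g : U4) (C : Matrix (Fin 4) (Fin 4) ℂ) (j : Fin 4) :
    colE ((g : Matrix (Fin 4) (Fin 4) ℂ) * C) j = uIso g (colE C j) := by
  ext i
  rfl

theorem gsM_mul (g : U4) (C : Matrix (Fin 4) (Fin 4) ℂ) :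
    gsM ((g : Matrix (Fin 4) (Fin 4) ℂ) * C) = (g : Matrix (Fin 4) (Fin 4) ℂ) * gsM C := by
  ext i j
  unfold gsM
  have h : colE ((g : Matrix (Fin 4) (Fin 4) ℂ) * C) = fun j => uIso g (colE C j) :=
    funext fun j => colE_mul g C j
  rw [h, gsN_map]
  rfl

theorem continuousOn_gs (n : Fin 4) :
    ContinuousOn (fun C : Matrix (Fin 4) (Fin 4) ℂ => InnerProductSpace.gramSchmidt ℂ (colE C) n)
      {C | C.det ≠ 0} := by
  induction n using WellFoundedLT.induction with
  | ind n ih =>
    have h : (fun C : Matrix (Fin 4) (Fin 4) ℂ => InnerProductSpace.gramSchmidt ℂ (colE C) n) =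
        fun C => colE C n - ∑ i ∈ Finset.Iio n,
          (⟪InnerProductSpace.gramSchmidt ℂ (colE C) i, colE C n⟫_ℂ /
            ((‖InnerProductSpace.gramSchmidt ℂ (colE C) i‖ ^ 2 : ℝ) : ℂ)) •
              InnerProductSpace.gramSchmidt ℂ (colE C) i := by
      funext C
      rw [InnerProductSpace.gramSchmidt_def]
      congr 1
      refine Finset.sum_congr rfl fun i _ => ?_
      rw [Submodule.starProjection_singleton]
      simp
    rw [h]
    refine (continuous_colE n).continuousOn.sub (continuousOn_finsetSum _ fun i hi => ?_)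
    have hi' := ih i (Finset.mem_Iio.mp hi)
    refine ContinuousOn.smul (ContinuousOn.div (ContinuousOn.inner (𝕜 := ℂ) hi'
      (continuous_colE n).continuousOn)
      (Complex.continuous_ofReal.comp_continuousOn (hi'.norm.pow 2)) fun C hC => ?_) hi'
    have h1 := InnerProductSpace.gramSchmidt_ne_zero (𝕜 := ℂ) i (colE_li hC)
    exact Complex.ofReal_ne_zero.mpr (pow_ne_zero 2 (norm_ne_zero_iff.mpr h1))

theorem continuousOn_gsM : ContinuousOn gsM {C | C.det ≠ 0} := by
  refine continuousOn_pi.mpr fun i => continuousOn_pi.mpr fun j => ?_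
  have h : ContinuousOn (fun C : Matrix (Fin 4) (Fin 4) ℂ =>
      InnerProductSpace.gramSchmidtNormed ℂ (colE C) j) {C | C.det ≠ 0} := by
    refine ContinuousOn.smul (ContinuousOn.inv₀
      (Complex.continuous_ofReal.comp_continuousOn (continuousOn_gs j).norm) fun C hC => ?_)
      (continuousOn_gs j)
    have h1 := InnerProductSpace.gramSchmidt_ne_zero (𝕜 := ℂ) j (colE_li hC)
    exact Complex.ofReal_ne_zero.mpr (norm_ne_zero_iff.mpr h1)
  exact (PiLp.continuous_apply 2 _ i).comp_continuousOn h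

/-- Gram-Schmidt as a map to `U(4)` (`1` for singular matrices) -/
def gsU (C : Matrix (Fin 4) (Fin 4) ℂ) : U4 := if h : C.det ≠ 0 then ⟨gsM C, gsM_mem h⟩ else 1

theorem gsU_coe {C : Matrix (Fin 4) (Fin 4) ℂ} (h : C.det ≠ 0) : (gsU C : Matrix _ _ ℂ) = gsM C := by
  rw [gsU, dif_pos h]

theorem det_ne_zero (g : U4) : (g : Matrix (Fin 4) (Fin 4) ℂ).det ≠ 0 := by
  intro h
  have h1 := congrArg Matrix.det (Matrix.mem_unitaryGroup_iff.mp g.2)
  rw [Matrix.det_mul, h, zero_mul, Matrix.det_one] at h1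
  exact zero_ne_one h1

theorem gsU_mul (g : U4) {C : Matrix (Fin 4) (Fin 4) ℂ} (h : C.det ≠ 0) :
    gsU ((g : Matrix (Fin 4) (Fin 4) ℂ) * C) = g * gsU C := by
  have h2 : ((g : Matrix (Fin 4) (Fin 4) ℂ) * C).det ≠ 0 := by
    rw [Matrix.det_mul]
    exact mul_ne_zero (det_ne_zero g) h
  apply Subtype.ext
  rw [gsU_coe h2, gsM_mul]
  change _ = (g : Matrix (Fin 4) (Fin 4) ℂ) * (gsU C : Matrix _ _ ℂ)
  rw [gsU_coe h]

theorem continuousOn_gsU : ContinuousOn gsU {C | C.det ≠ 0} := by
  have hind : Topology.IsInducing (Subtype.val : U4 → Matrix (Fin 4) (Fin 4) ℂ) := ⟨rfl⟩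
  apply hind.continuousOn_iff.mpr
  exact continuousOn_gsM.congr fun C hC => gsU_coe hC

/-! ## Path connectedness -/

/-- the invertible matrices are path connected (to the identity matrix) -/
theorem joinedIn_one {C : Matrix (Fin 4) (Fin 4) ℂ} (hC : C.det ≠ 0) :
    JoinedIn {C : Matrix (Fin 4) (Fin 4) ℂ | C.det ≠ 0} 1 C := by
  -- the polynomial `det (1 + z (C - 1))`
  let p : Polynomial ℂ := Matrix.det ((1 : Matrix (Fin 4) (Fin 4) (Polynomial ℂ)) +
    (Polynomial.X : Polynomial ℂ) • Matrix.map (C - 1) Polynomial.C)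
  have hp : ∀ z : ℂ, p.eval z = Matrix.det (1 + z • (C - 1)) := by
    intro z
    rw [← Polynomial.coe_evalRingHom, RingHom.map_det]
    congr 1
    ext i j
    by_cases hij : i = j
    · subst hij
      simp
    · simp [hij]
      ring
  have hp0 : p ≠ 0 := by
    intro h
    have := hp 0
    rw [h] at this
    simp at this
  have hfin : (p.rootSet ℂ).Finite := p.rootSet_finite ℂ
  have hpc : IsPathConnected (p.rootSet ℂ)ᶜ :=
    hfin.countable.isPathConnected_compl_of_one_lt_rank (by
      rw [Complex.rank_real_complex]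
      exact Nat.one_lt_ofNat)
  have hm : ∀ z : ℂ, z ∈ (p.rootSet ℂ)ᶜ ↔ Matrix.det (1 + z • (C - 1)) ≠ 0 := by
    intro z
    rw [Set.mem_compl_iff, Polynomial.mem_rootSet, ← hp z]
    simp [hp0]
  obtain ⟨γ, hγ⟩ := hpc.joinedIn 0 ((hm 0).mpr (by simp)) 1 ((hm 1).mpr (by simpa using hC))
  refine ⟨⟨⟨fun t => 1 + γ t • (C - 1), by fun_prop⟩, by simp, by simp⟩, fun t => ?_⟩
  exact (hm _).mp (hγ t)

instance : PathConnectedSpace U4 := by
  refine ⟨⟨1⟩, ?_⟩
  have key : ∀ u : U4, Joined (gsU 1) (u * gsU 1) := by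
    intro u
    obtain ⟨γ, hγ⟩ := joinedIn_one (det_ne_zero u)
    have h1 : Continuous fun t => gsU (γ t) :=
      continuousOn_gsU.comp_continuous γ.continuous fun t => hγ t
    refine ⟨⟨⟨fun t => gsU (γ t), h1⟩, by simp, ?_⟩⟩
    simp only [γ.target]
    have h2 := gsU_mul u (C := 1) (by simp)
    rwa [mul_one] at h2
  intro x y
  have hx := key (x * (gsU 1)⁻¹)
  have hy := key (y * (gsU 1)⁻¹)
  rw [inv_mul_cancel_right] at hx hy
  exact hx.symm.trans hy

/-! ## The universal bundle -/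

/-- the row vectors -/
def ellV (v : {v : Fin 4 → ℂ // v ≠ 0}) : Matrix (Fin 4) (Fin 4) ℂ →ₗ[ℝ] (Fin 4 → ℂ) where
  toFun M := Matrix.vecMul v.1 M
  map_add' _ _ := Matrix.vecMul_add _ _ _
  map_smul' _ _ := Matrix.vecMul_smul _ _ _

/-- sequences of matrices `A_n` such that for every nonzero row vector `v` some `v A_n` is not zero -/
abbrev EV : Type := Good ellV

instance : ContractibleSpace EV := contractible_good ellV 1 fun v => by
  simpa [ellV] using v.2

theorem vecMul_ne (g : U4) {v : Fin 4 → ℂ} (hv : v ≠ 0) :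
    Matrix.vecMul v (g : Matrix (Fin 4) (Fin 4) ℂ) ≠ 0 := by
  intro h
  apply hv
  have h1 : Matrix.vecMul (Matrix.vecMul v (g : Matrix (Fin 4) (Fin 4) ℂ))
      (star (g : Matrix (Fin 4) (Fin 4) ℂ)) = v := by
    rw [Matrix.vecMul_vecMul, Matrix.mem_unitaryGroup_iff.mp g.2, Matrix.vecMul_one]
  rw [← h1, h, Matrix.zero_vecMul]

instance : MulAction U4 EV where
  smul g A := ⟨fun n => (g : Matrix (Fin 4) (Fin 4) ℂ) * A.1 n, fun v => by
    obtain ⟨n, hn⟩ := A.2 ⟨_, vecMul_ne g v.2⟩
    refine ⟨n, ?_⟩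
    change Matrix.vecMul v.1 ((g : Matrix (Fin 4) (Fin 4) ℂ) * A.1 n) ≠ 0
    rw [← Matrix.vecMul_vecMul]
    exact hn⟩
  one_smul A := by
    apply Subtype.ext
    funext n
    exact one_mul _
  mul_smul g h A := by
    apply Subtype.ext
    funext n
    exact mul_assoc _ _ _

theorem smul_EV (g : U4) (A : EV) (n : ℕ) : (g • A).1 n = (g : Matrix (Fin 4) (Fin 4) ℂ) * A.1 n := rfl

/-- the matrix of the chosen columns -/
def pick (c : Fin 4 → ℕ × Fin 4) (A : EV) : Matrix (Fin 4) (Fin 4) ℂ :=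
  fun i j => A.1 (c j).1 i (c j).2

theorem pick_smul (c : Fin 4 → ℕ × Fin 4) (g : U4) (A : EV) :
    pick c (g • A) = (g : Matrix (Fin 4) (Fin 4) ℂ) * pick c A := by
  ext i j
  rfl

theorem continuous_pick (c : Fin 4 → ℕ × Fin 4) : Continuous (pick c) := by
  refine continuous_matrix fun i j => ?_
  have h1 : Continuous fun A : EV => A.1 (c j).1 :=
    (continuous_apply _).comp continuous_subtype_val
  exact h1.matrix_elem i (c j).2

theorem exists_pick (A : EV) : ∃ c, (pick c A).det ≠ 0 := by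
  -- the columns span
  let f : ℕ × Fin 4 → (Fin 4 → ℂ) := fun c i => A.1 c.1 i c.2
  have hspan : Submodule.span ℂ (Set.range f) = ⊤ := by
    by_contra hne
    obtain ⟨φ, hφ, h0⟩ := Submodule.exists_le_ker_of_lt_top _ (lt_top_iff_ne_top.mpr hne)
    let v : Fin 4 → ℂ := fun i => φ (Pi.single i 1)
    have hv : ∀ x : Fin 4 → ℂ, φ x = v ⬝ᵥ x := by
      intro x
      rw [LinearMap.pi_apply_eq_sum_univ φ x]
      refine Finset.sum_congr rfl fun i _ => ?_
      rw [smul_eq_mul, mul_comm]
      congr 2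
      funext j
      simp [Pi.single_apply, eq_comm]
    have hv0 : v ≠ 0 := by
      intro h
      apply hφ
      ext x
      simp [hv, h]
    obtain ⟨n, hn⟩ := A.2 ⟨v, hv0⟩
    apply hn
    funext j
    have h1 : f (n, j) ∈ LinearMap.ker φ := h0 (Submodule.subset_span ⟨(n, j), rfl⟩)
    rw [LinearMap.mem_ker, hv] at h1
    exact h1
  obtain ⟨b, hb, hbs, hli⟩ := exists_linearIndependent ℂ (Set.range f)
  rw [hspan] at hbs
  let B : Module.Basis b ℂ (Fin 4 → ℂ) := Module.Basis.mk hli (by rw [Subtype.range_coe, hbs])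
  have hcard : Nat.card b = 4 := by
    rw [← Module.finrank_eq_nat_card_basis B]
    simp
  have hfin : Finite b := Nat.finite_of_card_ne_zero (by omega)
  have e : Fin 4 ≃ b := (finCongr hcard.symm).trans (Finite.equivFin b).symm
  have hc : ∀ j : Fin 4, ∃ c, f c = (e j : Fin 4 → ℂ) := fun j => hb (e j).2
  choose c hc using hc
  refine ⟨c, ?_⟩
  have h2 : LinearIndependent ℂ (pick c A).col := by
    have h3 : (pick c A).col = fun j => (e j : Fin 4 → ℂ) := by
      funext j
      rw [← hc j]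
      rfl
    rw [h3]
    exact hli.comp _ e.injective
  have h4 := Matrix.linearIndependent_cols_iff_isUnit.mp h2
  exact ((Matrix.isUnit_iff_isUnit_det _).mp h4).ne_zero

theorem isUniversalBundle_EV : IsUniversalBundle U4 EV where
  continuous_smul := by
    apply Continuous.subtype_mk
    refine continuous_pi fun n => ?_
    have h1 : Continuous fun x : U4 × EV => (x.1 : Matrix (Fin 4) (Fin 4) ℂ) :=
      continuous_subtype_val.comp continuous_fst
    have h2 : Continuous fun x : U4 × EV => x.2.1 n :=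
      (continuous_apply n).comp (continuous_subtype_val.comp continuous_snd)
    exact h1.mul h2
  contractible := inferInstance
  locally_trivial := by
    intro A
    obtain ⟨c, hc⟩ := exists_pick A
    refine ⟨{B | (pick c B).det ≠ 0}, ?_, hc, ?_, fun B => gsU (pick c B), ?_, ?_⟩
    · exact isOpen_ne.preimage (continuous_pick c).matrix_det
    · intro g B hB
      change (pick c (g • B)).det ≠ 0
      rw [pick_smul, Matrix.det_mul]
      exact mul_ne_zero (det_ne_zero g) hB
    · exact continuousOn_gsU.comp (continuous_pick c).continuousOn fun B hB => hB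
    · intro g B hB
      change gsU (pick c (g • B)) = _
      rw [pick_smul]
      exact gsU_mul g hB

/-- **`U(4)` has a universal bundle** -/
theorem U4.exists_universal : ∃ (E : Type) (_ : TopologicalSpace E) (_ : MulAction U4 E),
    IsUniversalBundle U4 E := ⟨EV, inferInstance, inferInstance, isUniversalBundle_EV⟩

end

end Pool.Agent.EF97
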