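import Pool.Agent.EF97.Klein4
import Pool.Agent.EF97.Pack
import Pool.Agent.EF97.U4

/-!
# The data for U(4) and the Klein bottle
-/

namespace Pool.Agent.EF97

open Topology unitInterval Pool.Agent.MP_a0fe07
open scoped Real

noncomputable section

lemma ee_coe_eu (t : ℝ) : (ee t : ℂ) = eu t := by
  rw [ee_coe, eu]
  congr 1
  ring

/-- indices of off-diagonal entries of `x` and `y` -/
abbrev JK : Type := Bool × Fin 4 × Fin 4

/-- the weight functions: entries of `x` and of `y` -/
def fK (j : JK) : C(XX, ℂ) where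
  toFun r := if j.1 = true then (kx r : M4) j.2.1 j.2.2 else (ky r : M4) j.2.1 j.2.2
  continuous_toFun := by
    split_ifs
    · exact continuous_kx_coe.matrix_elem _ _
    · exact continuous_ky_coe.matrix_elem _ _

lemma fK_apply (j : JK) (r : XX) :
    fK j r = if j.1 = true then (kx r : M4) j.2.1 j.2.2 else (ky r : M4) j.2.1 j.2.2 := rfl

/-- the list of the off-diagonal indices -/
def lK : List JK := (Finset.univ.filter fun j : JK => j.2.1 ≠ j.2.2).toList

lemma mem_lK {j : JK} : j ∈ lK ↔ j.2.1 ≠ j.2.2 := by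
  unfold lK
  rw [Finset.mem_toList, Finset.mem_filter]
  simp

lemma ne_wall_of_rest {v : Cb XX} {c : ℚ} (h : ∀ s, rr (v.f s) = c) :
    (cb v : Ch XX) ∈ Submodule.span ℚ {x : Ch XX | ∃ v : Cb XX,
      (∀ s t, rr (v.f s) = rr (v.f t)) ∧ x = cb v} :=
  Submodule.subset_span ⟨v, fun s t => by rw [h, h], rfl⟩

lemma kap_sub : kap - cb k3 = cb k1 + cb k2 + cb k4 + cb k5 + cb kE := by
  unfold kap
  abel

/-- the data for the space of representations of the Klein bottle group in `U(4)` -/
def klPack : Pack U4 XX where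
  hh := ⟨hh, continuous_hh⟩
  hh_add := hh_add
  hh_one := hh_one
  hh_int _ h := hh_eq_one h
  r := rr
  r_inv := rr_smul
  F0 := F0
  F1 := F1
  F0_inv := F0_smul
  F1_inv := F1_smul
  J := JK
  l := lK
  f := fK
  wt j := wt j.2.1 j.2.2
  wt_ne j hj := wt_ne_zero (mem_lK.mp hj)
  f_eq j a r := by
    simp only [fK_apply, ContinuousMap.coe_mk]
    rw [← ee_coe_eu]
    split_ifs
    · exact kx_hh a r _ _
    · exact ky_hh a r _ _
  Va b := if b = true then Va else Vb
  Va_open b := by
    split_ifs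
    · exact isOpen_Va
    · exact isOpen_Vb
  Va_const b x hx y hy := by
    split_ifs at hx hy
    · rw [rr_of_Va hx, rr_of_Va hy]
    · rw [rr_of_Vb hx, rr_of_Vb hy]
  cover r := by
    by_cases ha : r ∈ Va
    · exact Or.inl ⟨true, ha⟩
    by_cases hb : r ∈ Vb
    · exact Or.inl ⟨false, hb⟩
    obtain ⟨hd, ht⟩ := of_not_Va_Vb ha hb
    refine Or.inr ⟨F0_ne_zero hd ht, F1_ne_zero hd ht, ?_⟩
    obtain ⟨i, j, hij, h⟩ := exists_offdiag hd ht
    rcases h with h | h
    · exact ⟨(true, i, j), mem_lK.mpr hij, h⟩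
    · exact ⟨(false, i, j), mem_lK.mpr hij, h⟩
  κ := kap
  κ_hom := kap_mem
  κ_bd := bd_kap
  u := k3
  u_n := rfl
  u_r := rr_k3
  u_F0 s h := by
    rw [F0_k3 h, ee_coe]
    congr 1
    push_cast
    ring
  u_F1 s h := by
    rw [F1_k3 h, ee_coe]
    congr 1
    push_cast
    ring
  rest := by
    rw [kap_sub]
    exact Submodule.add_mem _ (Submodule.add_mem _ (Submodule.add_mem _ (Submodule.add_mem _
      (ne_wall_of_rest rr_k1) (ne_wall_of_rest rr_k2)) (ne_wall_of_rest rr_k4))
      (ne_wall_of_rest rr_k5)) (ne_wall_of_rest rr_kE)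

/-- **The conjugation action of `U(4)` on the space of representations of the Klein bottle group
in `U(4)` is not equivariantly formal.** -/
theorem klein_not_formal : ¬ EquivariantlyFormal U4 XX := by
  rintro ⟨E, _, _, hE, hcol⟩
  exact klPack.not_collapses hE hcol

end

end Pool.Agent.EF97
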