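import Pool.Agent.EF97.U4

/-!
# The unitary group U(4) is a compact Lie group

The charts are the left translates of the Cayley transform.
-/

namespace Pool.Agent.EF97

open Topology Pool.Agent.MP_a0fe07
open scoped Manifold ContDiff Matrix.Norms.Operator ComplexOrder

noncomputable section

section Lie

attribute [-instance] instTopologicalSpaceMatrix Matrix.instUniformSpace

/-- the complex matrices -/
abbrev MM : Type := Matrix (Fin 4) (Fin 4) ℂ

/-- the skew-Hermitian matrices -/
def skV : Submodule ℝ MM where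
  carrier := {A | star A = -A}
  add_mem' {A B} hA hB := by
    change star (A + B) = -(A + B)
    rw [star_add, show star A = -A from hA, show star B = -B from hB, neg_add]
  zero_mem' := by
    change star (0 : MM) = -0
    rw [star_zero, neg_zero]
  smul_mem' c A hA := by
    change star (c • A) = -(c • A)
    rw [star_smul, show star A = -A from hA, star_trivial, smul_neg]

theorem mem_skV {A : MM} : A ∈ skV ↔ star A = -A := Iff.rfl

instance : FiniteDimensional ℝ MM := FiniteDimensional.trans ℝ ℂ MM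

/-- the skew-Hermitian part -/
def skP : MM →ₗ[ℝ] skV where
  toFun A := ⟨(2⁻¹ : ℝ) • (A - star A), by
    rw [mem_skV, star_smul, star_sub, star_star, star_trivial, ← smul_neg, neg_sub]⟩
  map_add' A B := by
    apply Subtype.ext
    change (2⁻¹ : ℝ) • (A + B - star (A + B)) = (2⁻¹ : ℝ) • (A - star A) + (2⁻¹ : ℝ) • (B - star B)
    rw [← smul_add, star_add]
    congr 1
    abel
  map_smul' c A := by
    apply Subtype.ext
    change (2⁻¹ : ℝ) • (c • A - star (c • A)) = c • ((2⁻¹ : ℝ) • (A - star A))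
    rw [star_smul, star_trivial, ← smul_sub, smul_comm]

theorem skP_of_mem {A : MM} (h : A ∈ skV) : (skP A : MM) = A := by
  change (2⁻¹ : ℝ) • (A - star A) = A
  rw [mem_skV.mp h, sub_neg_eq_add, ← two_smul ℝ A, smul_smul]
  norm_num

local instance : ContinuousStar MM := by
  have h : @ContinuousStar MM (instTopologicalSpaceMatrix) _ := inferInstance
  exact h

/-- the skew-Hermitian part, as a continuous linear map -/
def skL : MM →L[ℝ] skV := LinearMap.toContinuousLinearMap skP

theorem skL_apply (A : MM) : skL A = skP A := rfl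

/-- the Cayley transform -/
def cay (A : MM) : MM := (1 - A) * Ring.inverse (1 + A)

theorem isUnit_skew {A : MM} (h : A ∈ skV) : IsUnit (1 + A) := by
  have h1 : (1 + A.conjTranspose * A).PosDef :=
    Matrix.PosDef.one.add_posSemidef (Matrix.posSemidef_conjTranspose_mul_self A)
  have h2 : (1 + A.conjTranspose * A) = (1 - A) * (1 + A) := by
    have : A.conjTranspose = -A := h
    rw [this]
    noncomm_ring
  have h3 := h1.isUnit
  rw [h2] at h3
  have h4 : Commute (1 - A) (1 + A) := by
    have : Commute A A := Commute.refl A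
    exact ((Commute.one_left _).sub_left ((Commute.one_right _).add_right this))
  exact (h4.isUnit_mul_iff.mp h3).2

theorem cay_unit {A : MM} (U : MMˣ) (hU : (U : MM) = 1 + A) : cay A = (1 - A) * (↑U⁻¹ : MM) := by
  rw [cay, ← hU, Ring.inverse_unit]

theorem one_add_cay {A : MM} (U : MMˣ) (hU : (U : MM) = 1 + A) :
    1 + cay A = (2 : ℂ) • (↑U⁻¹ : MM) := by
  have h : (1 : MM) = (U : MM) * (↑U⁻¹ : MM) := (Units.mul_inv U).symm
  rw [cay_unit U hU]
  nth_rewrite 1 [h]
  rw [← add_mul, hU, show 1 + A + (1 - A) = (2 : ℂ) • (1 : MM) by rw [two_smul]; abel,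
    smul_mul_assoc, one_mul]

theorem one_sub_cay {A : MM} (U : MMˣ) (hU : (U : MM) = 1 + A) :
    1 - cay A = (2 : ℂ) • (A * (↑U⁻¹ : MM)) := by
  have h : (1 : MM) = (U : MM) * (↑U⁻¹ : MM) := (Units.mul_inv U).symm
  rw [cay_unit U hU]
  nth_rewrite 1 [h]
  rw [← sub_mul, hU, show 1 + A - (1 - A) = (2 : ℂ) • A by rw [two_smul]; abel, smul_mul_assoc]

/-- the unit `2` times a unit -/
def twoU (U : MMˣ) : MMˣ where
  val := (2 : ℂ) • (U : MM)
  inv := (2⁻¹ : ℂ) • (↑U⁻¹ : MM)
  val_inv := by
    rw [smul_mul_smul_comm, Units.mul_inv]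
    norm_num
  inv_val := by
    rw [smul_mul_smul_comm, Units.inv_mul]
    norm_num

theorem cay_cay {A : MM} (h : IsUnit (1 + A)) : IsUnit (1 + cay A) ∧ cay (cay A) = A := by
  obtain ⟨U, hU⟩ := h
  have h1 : (twoU U⁻¹ : MM) = 1 + cay A := (one_add_cay U hU).symm
  refine ⟨⟨_, h1⟩, ?_⟩
  rw [cay, one_sub_cay U hU, ← h1, Ring.inverse_unit]
  change (2 : ℂ) • (A * (↑U⁻¹ : MM)) * ((2⁻¹ : ℂ) • (↑(U⁻¹)⁻¹ : MM)) = A
  rw [inv_inv, smul_mul_smul_comm, mul_assoc, Units.inv_mul]
  norm_num

theorem contDiffAt_cay {A : MM} (h : IsUnit (1 + A)) : ContDiffAt ℝ ω cay A := by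
  obtain ⟨U, hU⟩ := h
  have h1 : ContDiffAt ℝ ω (Ring.inverse : MM → MM) (1 + A) := by
    rw [← hU]
    exact contDiffAt_ringInverse ℝ U
  have h2 : ContDiffAt ℝ ω (fun B : MM => Ring.inverse (1 + B)) A :=
    ContDiffAt.comp A h1 (contDiffAt_const.add contDiffAt_id)
  exact (contDiffAt_const.sub contDiffAt_id).mul h2

theorem cay_mul {A : MM} (h : IsUnit (1 + A)) : cay A * (1 + A) = 1 - A := by
  obtain ⟨U, hU⟩ := h
  rw [cay_unit U hU, ← hU, mul_assoc, Units.inv_mul, mul_one]

theorem cay_mul' {A : MM} (h : IsUnit (1 + A)) : (1 + A) * cay A = 1 - A := by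
  obtain ⟨U, hU⟩ := h
  have h1 : Commute (U : MM) (1 - A) := by
    rw [hU]
    exact ((Commute.one_right _).sub_right ((Commute.one_left _).add_left (Commute.refl A)))
  rw [cay_unit U hU, ← hU, ← mul_assoc, h1.eq, mul_assoc, Units.mul_inv, mul_one]

/-- the Cayley transform of a unitary matrix is skew-Hermitian -/
theorem cay_mem_skV {u : MM} (hu : u ∈ Matrix.unitaryGroup (Fin 4) ℂ) (h : IsUnit (1 + u)) :
    cay u ∈ skV := by
  have h1 := congrArg star (cay_mul h)
  rw [star_mul, star_add, star_sub, star_one] at h1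
  have h2 : (1 + u) * star (cay u) = (1 + u) * (-cay u) := by
    rw [mul_neg, cay_mul' h]
    have h3 : u * star u = 1 := Matrix.mem_unitaryGroup_iff.mp hu
    have h4 := congrArg (fun x => u * x) h1
    simp only [← mul_assoc, mul_add, mul_sub, mul_one, h3] at h4
    rw [add_comm u 1] at h4
    rw [h4, neg_sub]
  exact h.mul_left_cancel h2

theorem cay_mem_unitary {A : MM} (h : A ∈ skV) : cay A ∈ Matrix.unitaryGroup (Fin 4) ℂ := by
  rw [Matrix.mem_unitaryGroup_iff]
  have hu := isUnit_skew h
  have hA : star A = -A := h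
  have h1 := congrArg star (cay_mul hu)
  rw [star_mul, star_add, star_sub, star_one, hA, sub_neg_eq_add, ← sub_eq_add_neg] at h1
  -- `(1 - A) * star (cay A) = 1 + A`
  have h2 : (1 + A) * (cay A * star (cay A)) = (1 + A) * 1 := by
    rw [← mul_assoc, cay_mul' hu, h1, mul_one]
  exact hu.mul_left_cancel h2

/-! ## The charts -/

theorem isUnit_two : IsUnit (1 + 1 : MM) := ⟨twoU 1, by
  change (2 : ℂ) • (1 : MM) = 1 + 1
  rw [two_smul]⟩

theorem isOpen_unit : IsOpen {A : MM | IsUnit (1 + A)} :=
  Units.isOpen.preimage (continuous_const.add continuous_id)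

/-- the Cayley chart at the identity -/
def chart0 : OpenPartialHomeomorph U4 skV where
  toFun u := skL (cay u)
  invFun A := ⟨cay A, cay_mem_unitary A.2⟩
  source := {u | IsUnit (1 + (u : MM))}
  target := Set.univ
  map_source' _ _ := Set.mem_univ _
  map_target' A _ := (cay_cay (isUnit_skew A.2)).1
  left_inv' u hu := by
    apply Subtype.ext
    change cay (skP (cay u) : MM) = u
    rw [skP_of_mem (cay_mem_skV u.2 hu), (cay_cay hu).2]
  right_inv' A _ := by
    apply Subtype.ext
    change (skP (cay (cay A)) : MM) = A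
    rw [(cay_cay (isUnit_skew A.2)).2, skP_of_mem A.2]
  open_source := isOpen_unit.preimage continuous_subtype_val
  open_target := isOpen_univ
  continuousOn_toFun := by
    refine skL.continuous.comp_continuousOn ?_
    intro u hu
    exact ((contDiffAt_cay hu).continuousAt.comp continuous_subtype_val.continuousAt).continuousWithinAt
  continuousOn_invFun := by
    refine Continuous.continuousOn ?_
    apply Continuous.subtype_mk
    rw [continuous_iff_continuousAt]
    intro A
    exact (contDiffAt_cay (isUnit_skew A.2)).continuousAt.comp continuous_subtype_val.continuousAt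

/-- the chart at `g` -/
def chartU (g : U4) : OpenPartialHomeomorph U4 skV :=
  (Homeomorph.mulLeft g⁻¹).toOpenPartialHomeomorph.trans chart0

/-- the left translate of the extended chart -/
def psi (g : U4) (m : MM) : skV := skL (cay (((g⁻¹ : U4) : MM) * m))

theorem chartU_apply (g u : U4) : chartU g u = psi g u := rfl

theorem chartU_source (g : U4) :
    (chartU g).source = {u : U4 | IsUnit (1 + ((g⁻¹ : U4) : MM) * (u : MM))} := by
  ext u
  simp [chartU, chart0]

theorem chartU_target (g : U4) : (chartU g).target = Set.univ := by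
  ext A
  simp [chartU, chart0]

theorem chartU_symm (g : U4) (A : skV) : ((chartU g).symm A : MM) = (g : MM) * cay A := by
  simp only [chartU, chart0, OpenPartialHomeomorph.coe_trans_symm, Function.comp_apply]
  change (((g⁻¹)⁻¹ * _ : U4) : MM) = _
  rw [inv_inv]
  rfl

/-- the manifold structure of `U(4)` -/
@[reducible] def chartedU : ChartedSpace skV U4 where
  atlas := Set.range chartU
  chartAt := chartU
  mem_chart_source g := by
    rw [chartU_source]
    change IsUnit (1 + ((g⁻¹ * g : U4) : MM))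
    rw [inv_mul_cancel]
    exact isUnit_two
  chart_mem_atlas g := ⟨g, rfl⟩

attribute [local instance] chartedU

theorem contDiffAt_psi (g : U4) {m : MM} (h : IsUnit (1 + ((g⁻¹ : U4) : MM) * m)) :
    ContDiffAt ℝ ω (psi g) m := by
  have h1 : ContDiffAt ℝ ω (fun x : MM => ((g⁻¹ : U4) : MM) * x) m :=
    contDiffAt_const.mul contDiffAt_id
  exact skL.contDiff.contDiffAt.comp m ((contDiffAt_cay h).comp m h1)

theorem contDiff_symm (g : U4) : ContDiff ℝ ω fun A : skV => (g : MM) * cay A := by
  rw [contDiff_iff_contDiffAt]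
  intro A
  have h1 : ContDiffAt ℝ ω (fun A : skV => cay (A : MM)) A :=
    (contDiffAt_cay (isUnit_skew A.2)).comp A skV.subtypeL.contDiff.contDiffAt
  exact contDiffAt_const.mul h1

local instance manifoldU : IsManifold 𝓘(ℝ, skV) ω U4 := by
  apply isManifold_of_contDiffOn
  rintro e e' ⟨g, rfl⟩ ⟨h, rfl⟩
  simp only [modelWithCornersSelf_coe, modelWithCornersSelf_coe_symm, Function.comp_id,
    Function.id_comp, Set.preimage_id, Set.range_id, Set.inter_univ]
  intro A hA
  apply ContDiffAt.contDiffWithinAt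
  have h1 : ((chartU g).symm.trans (chartU h) : skV → skV) =
      fun A : skV => psi h ((g : MM) * cay (A : MM)) := by
    funext B
    change chartU h ((chartU g).symm B) = _
    rw [chartU_apply, chartU_symm]
  rw [h1]
  have h2 : (chartU g).symm A ∈ (chartU h).source := by
    rw [OpenPartialHomeomorph.trans_source] at hA
    exact hA.2
  rw [chartU_source] at h2
  have h3 : IsUnit (1 + ((h⁻¹ : U4) : MM) * ((g : MM) * cay A)) := by
    rw [← chartU_symm]
    exact h2
  exact ContDiffAt.comp (g := psi h) (f := fun A : skV => (g : MM) * cay (A : MM)) A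
    (contDiffAt_psi h h3) (contDiff_symm g).contDiffAt

/-- the inclusion of `U(4)` in the matrices is analytic -/
theorem contMDiff_coe : ContMDiff 𝓘(ℝ, skV) 𝓘(ℝ, MM) ω (Subtype.val : U4 → MM) := by
  intro g
  have h1 : ContMDiffAt 𝓘(ℝ, skV) 𝓘(ℝ, skV) ω (extChartAt 𝓘(ℝ, skV) g) g :=
    contMDiffAt_extChartAt
  have h2 : ContMDiffAt 𝓘(ℝ, skV) 𝓘(ℝ, MM) ω
      ((fun A : skV => (g : MM) * cay A) ∘ extChartAt 𝓘(ℝ, skV) g) g :=
    (contDiff_symm g).contMDiff.contMDiffAt.comp g h1
  refine h2.congr_of_eventuallyEq ?_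
  filter_upwards [extChartAt_source_mem_nhds (I := 𝓘(ℝ, skV)) g] with u hu
  rw [extChartAt_source] at hu
  have h3 := (chartU g).left_inv hu
  have h4 := chartU_symm g (chartU g u)
  rw [h3] at h4
  exact h4

/-- maps to `U(4)` which are analytic as maps to the matrices are analytic -/
theorem contMDiff_of_coe {E : Type*} [NormedAddCommGroup E] [NormedSpace ℝ E] {H : Type*}
    [TopologicalSpace H] {I : ModelWithCorners ℝ E H} {N : Type*} [TopologicalSpace N]
    [ChartedSpace H N] {f : N → U4} (hf : ContMDiff I 𝓘(ℝ, MM) ω fun x => (f x : MM)) :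
    ContMDiff I 𝓘(ℝ, skV) ω f := by
  intro x
  rw [contMDiffAt_iff_target]
  constructor
  · have hind : Topology.IsInducing (Subtype.val : U4 → MM) := ⟨rfl⟩
    exact hind.continuousAt_iff.mpr (hf x).continuousAt
  · have h1 : IsUnit (1 + (((f x)⁻¹ : U4) : MM) * (f x : MM)) := by
      change IsUnit (1 + (((f x)⁻¹ * f x : U4) : MM))
      rw [inv_mul_cancel]
      exact isUnit_two
    have h2 : ContMDiffAt 𝓘(ℝ, MM) 𝓘(ℝ, skV) ω (psi (f x)) (f x : MM) :=
      (contDiffAt_psi (f x) h1).contMDiffAt
    exact ContMDiffAt.comp (g := psi (f x)) (f := fun y => (f y : MM)) x h2 (hf x)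

theorem lieGroupU : LieGroup 𝓘(ℝ, skV) ω U4 where
  contMDiff_mul := by
    apply contMDiff_of_coe
    have h1 : ContMDiff (𝓘(ℝ, skV).prod 𝓘(ℝ, skV)) 𝓘(ℝ, MM) ω fun p : U4 × U4 => (p.1 : MM) :=
      contMDiff_coe.comp contMDiff_fst
    have h2 : ContMDiff (𝓘(ℝ, skV).prod 𝓘(ℝ, skV)) 𝓘(ℝ, MM) ω fun p : U4 × U4 => (p.2 : MM) :=
      contMDiff_coe.comp contMDiff_snd
    have h3 : ContMDiff 𝓘(ℝ, MM × MM) 𝓘(ℝ, MM) ω fun q : MM × MM => q.1 * q.2 :=
      (contDiff_fst.mul contDiff_snd).contMDiff
    exact h3.comp (h1.prodMk_space h2)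
  contMDiff_inv := by
    apply contMDiff_of_coe
    have h1 : ContMDiff 𝓘(ℝ, MM) 𝓘(ℝ, MM) ω fun m : MM => star m := by
      have h2 : (fun m : MM => star m) = LinearMap.toContinuousLinearMap
          ((starLinearEquiv ℝ : MM ≃ₗ⋆[ℝ] MM) : MM →ₗ⋆[ℝ] MM) := rfl
      rw [h2]
      exact (LinearMap.toContinuousLinearMap _).contDiff.contMDiff
    exact h1.comp contMDiff_coe

end Lie

/-- **`U(4)` is a compact Lie group** -/
theorem U4.isCompactLieGroup : IsCompactLieGroup U4 :=
  ⟨inferInstance, inferInstance, skV, inferInstance, inferInstance, chartedU, inferInstance,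
    lieGroupU⟩

end

end Pool.Agent.EF97
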