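import Pool.Agent.EF97.Klein5
import Pool.Agent.EF97.U4Lie

/-!
# `U(4)` and the Klein bottle
-/

namespace Pool.Agent.EF97

open Pool.Agent.MP_a0fe07

theorem main :
    IsCompactLieGroup U4 ∧ PathConnectedSpace U4 ∧
    (∃ (E : Type) (_ : TopologicalSpace E) (_ : MulAction U4 E), IsUniversalBundle U4 E) ∧
    ¬ EquivariantlyFormal U4 (Rep (SurfaceGroup 2) U4) :=
  ⟨U4.isCompactLieGroup, inferInstance, U4.exists_universal, klein_not_formal⟩

end Pool.Agent.EF97
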