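import Pool.Agent.EF97.Prod

/-!
# The operators `A_θ` and `D_θ`
-/

namespace Pool.Agent.EF97

open Topology unitInterval

noncomputable section

variable {d d' : Bool} {Y Z P R : Type*} [TopologicalSpace Y] [TopologicalSpace Z]
  [TopologicalSpace P] [TopologicalSpace R]

/-- functions on paths vanishing on constant paths -/
structure Th (P : Type*) [TopologicalSpace P] where
  /-- the function -/
  fn : C(I, P) → ℚ
  const : ∀ c : P, fn (ContinuousMap.const I c) = 0

/-- the `i`-th axis -/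
def axis (i : ℕ) (t : I) : Q := fun j => if j = i then t else 0

lemma continuous_axis (i : ℕ) : Continuous (axis i) := by
  rw [continuous_pi_iff]
  intro j
  unfold axis
  split_ifs <;> fun_prop

/-- the `i`-th edge at the origin -/
def Cb.edge (i : ℕ) (u : Cb P) : C(I, P) := u.f.comp ⟨axis i, continuous_axis i⟩

@[simp] lemma Cb.edge_apply (i : ℕ) (u : Cb P) (t : I) : u.edge i t = u.f (axis i t) := rfl

lemma axis_zero (i : ℕ) : axis i 0 = 0 := by
  funext j; simp [axis]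

lemma axis_one (i : ℕ) : axis i 1 = ins i 1 0 := by
  funext j
  simp only [axis, ins, Pi.zero_apply]
  split_ifs <;> first | rfl | omega

lemma Cb.Deg.edge {u : Cb P} (hu : u.Deg) {i : ℕ} (hi : u.n - 1 ≤ i) :
    u.edge i = ContinuousMap.const I (u.f 0) := by
  ext1 t
  simp only [Cb.edge_apply, ContinuousMap.const_apply]
  apply hu.2
  intro j hj
  have : j ≠ i := by omega
  simp [axis, this]

/-- the operator `A_θ` -/
def AA (θ : Th P) : Chd d P →ₗ[ℚ] Chd d P :=
  lift (fun u => ∑ i ∈ Finset.range u.n, (-1 : ℚ) ^ i • (θ.fn (u.edge i) • cb (u.face i 1))) (by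
    rintro u ⟨hd, hu⟩
    apply Finset.sum_eq_zero
    intro i _
    by_cases hi : i < u.n - 1
    · rw [cb_deg' ⟨hd, hu.face 1 hi⟩, smul_zero, smul_zero]
    · rw [hu.edge (not_lt.mp hi), θ.const, zero_smul, smul_zero])

lemma AA_cb (θ : Th P) (u : Cb P) : AA θ (cb u : Chd d P) =
    ∑ i ∈ Finset.range u.n, (-1 : ℚ) ^ i • (θ.fn (u.edge i) • cb (u.face i 1)) := by
  simp [AA]

lemma AA_mem_on (θ : Th P) {V : Set P} {x : Chd d P} (hx : x ∈ on V) : AA θ x ∈ on V := by
  apply map_mem_on (f := AA θ) _ hx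
  intro u hu
  rw [AA_cb]
  exact Submodule.sum_mem _ fun i _ => Submodule.smul_mem _ _ (Submodule.smul_mem _ _
    (cb_mem_on fun s => hu _))

lemma AA_mem_hom (θ : Th P) {n : ℕ} {x : Chd d P} (hx : x ∈ hom P (n + 1)) : AA θ x ∈ hom P n := by
  apply map_mem_hom (f := AA θ) _ hx
  intro u hu
  rw [AA_cb]
  refine Submodule.sum_mem _ fun i hi => Submodule.smul_mem _ _ (Submodule.smul_mem _ _
    (cb_mem_hom ?_))
  rw [Cb.face_n_lt (by simpa using hi)]
  omega

lemma AA_hom_zero (θ : Th P) {x : Chd d P} (hx : x ∈ hom P 0) : AA θ x = 0 := by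
  have : (hom P 0 : Submodule ℚ (Chd d P)) ≤ LinearMap.ker (AA θ) := by
    rw [hom, Submodule.span_le]
    rintro _ ⟨u, hu, rfl⟩
    change AA θ (cb u) = 0
    rw [AA_cb, hu]; simp
  exact this hx

lemma sg_AA (θ : Th P) (x : Chd d P) : sg (AA θ x) = - AA θ (sg x) := by
  have : (sg ∘ₗ AA θ : Chd d P →ₗ[ℚ] Chd d P) = - (AA θ ∘ₗ sg) := by
    apply hom_ext
    intro u
    simp only [LinearMap.comp_apply, LinearMap.neg_apply]
    rcases hn : u.n with _ | n
    · have h0 : AA θ (cb u : Chd d P) = 0 := AA_hom_zero θ (cb_mem_hom hn)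
      rw [h0, sg_cb, map_smul, h0]; simp
    · rw [sg_of_hom (AA_mem_hom θ (cb_mem_hom hn)), sg_cb, map_smul, hn, pow_succ]
      simp
  exact congrArg (fun f => f x) this

/-- the operator `D_θ` -/
def DD (θ : Th P) : Chd d P →ₗ[ℚ] Chd d P := bd ∘ₗ AA θ + AA θ ∘ₗ bd

lemma DD_apply (θ : Th P) (x : Chd d P) : DD θ x = bd (AA θ x) + AA θ (bd x) := rfl

lemma bd_DD (θ : Th P) (x : Chd d P) : bd (DD θ x) = DD θ (bd x) := by
  rw [DD_apply, DD_apply, map_add, bd_bd, bd_bd, map_zero, zero_add, add_zero]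

lemma DD_mem_on (θ : Th P) {V : Set P} {x : Chd d P} (hx : x ∈ on V) : DD θ x ∈ on V :=
  Submodule.add_mem _ (bd_mem_on (AA_mem_on θ hx)) (AA_mem_on θ (bd_mem_on hx))

lemma DD_mem_hom (θ : Th P) {n : ℕ} {x : Chd d P} (hx : x ∈ hom P (n + 2)) : DD θ x ∈ hom P n :=
  Submodule.add_mem _ (bd_mem_hom (AA_mem_hom θ hx)) (AA_mem_hom θ (bd_mem_hom hx))

lemma DD_hom_zero (θ : Th P) {x : Chd d P} (hx : x ∈ hom P 0) : DD θ x = 0 := by
  rw [DD_apply, AA_hom_zero θ hx, bd_hom_zero hx]; simp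

/-! ## Closed functions -/

/-- multiplication by the value of `ψ` at the origin -/
def MMp (ψ : P → ℚ) : Chd d P →ₗ[ℚ] Chd d P := lift (fun u => ψ (u.f 0) • cb u) (fun u hu => by
  rw [cb_deg' hu, smul_zero])

@[simp] lemma MMp_cb (ψ : P → ℚ) (u : Cb P) : MMp ψ (cb u : Chd d P) = ψ (u.f 0) • cb u := by
  simp [MMp]

/-- the coboundary of a function -/
def dTh (ψ : P → ℚ) : Th P := ⟨fun p => ψ (p 1) - ψ (p 0), fun c => by simp⟩

lemma AA_dTh (ψ : P → ℚ) (x : Chd d P) : AA (dTh ψ) x = MMp ψ (bd x) - bd (MMp ψ x) := by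
  have : (AA (dTh ψ) : Chd d P →ₗ[ℚ] Chd d P) = MMp ψ ∘ₗ bd - bd ∘ₗ MMp ψ := by
    apply hom_ext
    intro u
    simp only [LinearMap.comp_apply, LinearMap.sub_apply, MMp_cb, map_smul]
    rw [AA_cb, bd_cb, map_sum, Finset.smul_sum, ← Finset.sum_sub_distrib]
    apply Finset.sum_congr rfl
    intro i _
    rw [map_smul, bdi_cb, map_sub, MMp_cb, MMp_cb]
    have h1 : (dTh ψ).fn (u.edge i) = ψ (u.f (ins i 1 0)) - ψ (u.f 0) := by
      simp only [dTh, Cb.edge_apply, axis_zero, axis_one]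
    rw [h1, Cb.face_f, Cb.face_f, ins_zero_zero]
    simp only [smul_sub, sub_smul, smul_smul]
    rw [mul_comm (ψ (u.f 0)) ((-1 : ℚ) ^ i)]
    abel
  exact congrArg (fun f => f x) this

/-- `θ` is closed on `V` -/
def ClosedOn (θ : Th P) (V : Set P) : Prop :=
  ∃ ψ : P → ℚ, ∀ p : C(I, P), (∀ t, p t ∈ V) → θ.fn p = ψ (p 1) - ψ (p 0)

lemma DD_closed {θ : Th P} {V : Set P} (h : ClosedOn θ V) {x : Chd d P} (hx : x ∈ on V) :
    DD θ x = 0 := by
  obtain ⟨ψ, hψ⟩ := h
  have key : ∀ y : Chd d P, y ∈ on V → AA θ y = AA (dTh ψ) y := by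
    intro y hy
    refine eq_on (f := AA θ) (g := AA (dTh ψ)) ?_ hy
    intro u hu
    rw [AA_cb, AA_cb]
    apply Finset.sum_congr rfl
    intro i _
    rw [hψ (u.edge i) (fun t => hu _)]
    rfl
  rw [DD_apply, key x hx, key (bd x) (bd_mem_on hx), AA_dTh, AA_dTh, map_sub, bd_bd, bd_bd]
  simp

lemma AA_const_zero {θ : Th P} {V : Set P} (h : ∀ p : C(I, P), (∀ t, p t ∈ V) → θ.fn p = 0)
    {x : Chd d P} (hx : x ∈ on V) : AA θ x = 0 := by
  refine eq_on (f := AA θ) (g := 0) ?_ hx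
  intro u hu
  rw [AA_cb]
  apply Finset.sum_eq_zero
  intro i _
  rw [h (u.edge i) (fun t => hu _), zero_smul, smul_zero]

/-! ## Products -/

lemma Cb.mul_edge_lt (μ : C(R × P, Z)) (v : Cb R) (u : Cb P) {i : ℕ} (hi : i < v.n) :
    (v.mul μ u).edge i = μ.comp ((v.edge i).prodMk (ContinuousMap.const I (u.f 0))) := by
  ext1 t
  change μ (v.f (axis i t), u.f (sh v.n (axis i t))) = μ (v.f (axis i t), u.f 0)
  congr 3
  funext j
  have : j + v.n ≠ i := by omega
  simp [axis, this]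

lemma Cb.mul_edge_add (μ : C(R × P, Z)) (v : Cb R) (u : Cb P) (l : ℕ) :
    (v.mul μ u).edge (v.n + l) = μ.comp ((ContinuousMap.const I (v.f 0)).prodMk (u.edge l)) := by
  ext1 t
  change μ (v.f (axis (v.n + l) t), u.f (sh v.n (axis (v.n + l) t))) = μ (v.f 0, u.f (axis l t))
  have h1 : v.f (axis (v.n + l) t) = v.f 0 := by
    apply v.dep
    intro j hj
    have : j ≠ v.n + l := by omega
    simp [axis, this]
  have h2 : sh v.n (axis (v.n + l) t) = axis l t := by
    funext j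
    simp only [sh_apply, axis]
    by_cases h : j = l
    · subst h; simp [add_comm]
    · have : j + v.n ≠ v.n + l := by omega
      simp [h, this]
  rw [h1, h2]

/-- compatibility of path functions with a product -/
structure Compat (μ : C(R × P, Z)) (θR : Th R) (θP : Th P) (θZ : Th Z) : Prop where
  left : ∀ (φ : C(I, R)) (p : P), θZ.fn (μ.comp (φ.prodMk (ContinuousMap.const I p))) = θR.fn φ
  right : ∀ (a : R) (p : C(I, P)), θZ.fn (μ.comp ((ContinuousMap.const I a).prodMk p)) = θP.fn p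

theorem AA_mul {μ : C(R × P, Z)} {θR : Th R} {θP : Th P} {θZ : Th Z} (h : Compat μ θR θP θZ)
    (x : Cu R) (y : Chd d P) :
    AA θZ (mul μ x y) = mul μ (AA θR x) y + mul μ (sg x) (AA θP y) := by
  have : (mul μ).compr₂ (AA θZ : Chd d Z →ₗ[ℚ] Chd d Z) =
      (mul μ).compl₁₂ (AA θR) LinearMap.id +
        (mul μ).compl₁₂ sg (AA θP : Chd d P →ₗ[ℚ] Chd d P) := by
    apply bilin_ext
    intro v u
    simp only [LinearMap.compr₂_apply, LinearMap.compl₁₂_apply, LinearMap.add_apply,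
      LinearMap.id_apply, mul_cb]
    rw [AA_cb, Cb.mul_n, Finset.sum_range_add]
    congr 1
    · rw [AA_cb, map_sum, LinearMap.sum_apply]
      apply Finset.sum_congr rfl
      intro i hi
      have hi' : i < v.n := by simpa using hi
      rw [Cb.mul_edge_lt μ v u hi', h.left, Cb.mul_face_lt μ v u hi', map_smul, map_smul,
        LinearMap.smul_apply, LinearMap.smul_apply, mul_cb]
    · rw [AA_cb, map_sum, sg_cb]
      apply Finset.sum_congr rfl
      intro i _
      rw [Cb.mul_edge_add, h.right, Cb.mul_face_add, map_smul, map_smul, map_smul,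
        LinearMap.smul_apply, mul_cb, smul_smul, smul_smul, smul_smul, pow_add]
      congr 1
      ring
  exact congrArg (fun f => f x y) this

theorem DD_mul {μ : C(R × P, Z)} {θR : Th R} {θP : Th P} {θZ : Th Z} (h : Compat μ θR θP θZ)
    (x : Cu R) (y : Chd d P) :
    DD θZ (mul μ x y) = mul μ (DD θR x) y + mul μ x (DD θP y) := by
  rw [DD_apply, DD_apply, DD_apply, AA_mul h, bd_mul, map_add, map_add, bd_mul, bd_mul, AA_mul h,
    AA_mul h, sg_sg, sg_AA, sg_bd, map_add, map_add]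
  simp only [map_neg, LinearMap.neg_apply, LinearMap.add_apply]
  abel

end

end Pool.Agent.EF97
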