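import Pool.Agent.EF97.Prism

/-!
# Products of chains
-/

namespace Pool.Agent.EF97

open Topology unitInterval

noncomputable section

variable {d d' : Bool} {Y Z P R : Type*} [TopologicalSpace Y] [TopologicalSpace Z]
  [TopologicalSpace P] [TopologicalSpace R]

/-- product of cubes -/
def Cb.mul (μ : C(R × P, Z)) (v : Cb R) (u : Cb P) : Cb Z where
  n := v.n + u.n
  f := μ.comp (v.f.prodMk (u.f.comp (shC v.n)))
  dep s t h := by
    have h1 : v.f s = v.f t := v.dep _ _ fun i hi => h i (by omega)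
    have h2 : u.f (sh v.n s) = u.f (sh v.n t) := u.dep _ _ fun i hi => h (i + v.n) (by omega)
    change μ (v.f s, u.f (sh v.n s)) = μ (v.f t, u.f (sh v.n t))
    rw [h1, h2]

@[simp] lemma Cb.mul_n (μ : C(R × P, Z)) (v : Cb R) (u : Cb P) : (v.mul μ u).n = v.n + u.n := rfl
@[simp] lemma Cb.mul_f (μ : C(R × P, Z)) (v : Cb R) (u : Cb P) (s : Q) :
    (v.mul μ u).f s = μ (v.f s, u.f (sh v.n s)) := rfl

lemma Cb.Deg.mul (μ : C(R × P, Z)) (v : Cb R) {u : Cb P} (hu : u.Deg) : (v.mul μ u).Deg := by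
  obtain ⟨h0, h1⟩ := hu
  refine ⟨by simp; omega, fun s t h => ?_⟩
  simp only [Cb.mul_n] at h
  have h2 : v.f s = v.f t := v.dep _ _ fun i hi => h i (by omega)
  simp only [Cb.mul_f]
  rw [h2, h1 (sh v.n s) (sh v.n t) (fun i hi => h (i + v.n) (by omega))]

lemma Cb.mul_face_lt (μ : C(R × P, Z)) (v : Cb R) (u : Cb P) {i : ℕ} (hi : i < v.n) (ε : I) :
    (v.mul μ u).face i ε = (v.face i ε).mul μ u := by
  ext1
  · simp only [Cb.face, Cb.mul_n]
    split_ifs <;> omega
  · ext1 s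
    simp only [Cb.face_f, Cb.mul_f]
    rw [sh_ins_lt hi, Cb.face_n_lt hi]

lemma Cb.mul_face_add (μ : C(R × P, Z)) (v : Cb R) (u : Cb P) (l : ℕ) (ε : I) :
    (v.mul μ u).face (v.n + l) ε = v.mul μ (u.face l ε) := by
  ext1
  · simp only [Cb.face, Cb.mul_n]
    split_ifs <;> omega
  · ext1 s
    simp only [Cb.face_f, Cb.mul_f]
    rw [sh_ins_add]
    congr 2
    apply v.dep
    intro j hj
    exact ins_of_lt (by omega) _ _

/-- product of chains; the first factor is not normalised -/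
def mul (μ : C(R × P, Z)) : Cu R →ₗ[ℚ] Chd d P →ₗ[ℚ] Chd d Z :=
  lift (fun v => lift (fun u => cb (v.mul μ u)) (fun _ hu => cb_deg' ⟨hu.1, hu.2.mul μ v⟩))
    (fun _ h => absurd h.1 (by simp))

@[simp] lemma mul_cb (μ : C(R × P, Z)) (v : Cb R) (u : Cb P) :
    mul μ (cb v : Cu R) (cb u : Chd d P) = cb (v.mul μ u) := by
  simp [mul]

lemma bilin_ext {M : Type*} [AddCommGroup M] [Module ℚ M]
    {f g : Chd d Y →ₗ[ℚ] Chd d' Z →ₗ[ℚ] M} (h : ∀ v u, f (cb v) (cb u) = g (cb v) (cb u)) :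
    f = g := by
  apply hom_ext
  intro v
  apply hom_ext
  intro u
  exact h v u

lemma mul_bdi_lt (μ : C(R × P, Z)) (v : Cb R) (u : Cb P) {i : ℕ} (hi : i < v.n) :
    bdi i (cb (v.mul μ u) : Chd d Z) = mul μ (bdi i (cb v : Cu R)) (cb u : Chd d P) := by
  rw [bdi_cb, Cb.mul_face_lt μ v u hi, Cb.mul_face_lt μ v u hi, bdi_cb, map_sub,
    LinearMap.sub_apply, mul_cb, mul_cb]

lemma mul_bdi_add (μ : C(R × P, Z)) (v : Cb R) (u : Cb P) (l : ℕ) :
    bdi (v.n + l) (cb (v.mul μ u) : Chd d Z) = mul μ (cb v : Cu R) (bdi l (cb u : Chd d P)) := by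
  rw [bdi_cb, Cb.mul_face_add, Cb.mul_face_add, bdi_cb, map_sub, mul_cb, mul_cb]

/-- Leibniz rule -/
theorem bd_mul (μ : C(R × P, Z)) (x : Cu R) (y : Chd d P) :
    bd (mul μ x y) = mul μ (bd x) y + mul μ (sg x) (bd y) := by
  have : (mul μ).compr₂ (bd : Chd d Z →ₗ[ℚ] Chd d Z) =
      (mul μ).compl₁₂ bd LinearMap.id + (mul μ).compl₁₂ sg (bd : Chd d P →ₗ[ℚ] Chd d P) := by
    apply bilin_ext
    intro v u
    simp only [LinearMap.compr₂_apply, LinearMap.compl₁₂_apply, LinearMap.add_apply,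
      LinearMap.id_apply, mul_cb]
    rw [bd_cb, Cb.mul_n, Finset.sum_range_add]
    congr 1
    · rw [bd_cb, map_sum, LinearMap.sum_apply]
      apply Finset.sum_congr rfl
      intro i hi
      rw [mul_bdi_lt μ v u (by simpa using hi), map_smul, LinearMap.smul_apply]
    · rw [bd_cb, map_sum, sg_cb]
      apply Finset.sum_congr rfl
      intro i _
      rw [mul_bdi_add, map_smul, map_smul, LinearMap.smul_apply, smul_smul, pow_add, mul_comm]
  exact congrArg (fun f => f x y) this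

lemma mul_mem_hom (μ : C(R × P, Z)) {m n : ℕ} {x : Cu R} {y : Chd d P} (hx : x ∈ hom R m)
    (hy : y ∈ hom P n) : mul μ x y ∈ hom Z (m + n) := by
  have : (hom R m : Submodule ℚ (Cu R)) ≤
      (hom Z (m + n) : Submodule ℚ (Chd d Z)).comap ((mul μ).flip y) := by
    rw [hom, Submodule.span_le]
    rintro _ ⟨v, hv, rfl⟩
    change mul μ (cb v) y ∈ hom Z (m + n)
    apply map_mem_hom (f := mul μ (cb v)) _ hy
    intro u hu
    rw [mul_cb]
    exact cb_mem_hom (by simp [hu, hv])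
  exact this hx

lemma mul_mem_on (μ : C(R × P, Z)) {V : Set P} {W : Set Z} (hV : ∀ a, ∀ p ∈ V, μ (a, p) ∈ W)
    (x : Cu R) {y : Chd d P} (hy : y ∈ on V) : mul μ x y ∈ on W := by
  have : ∀ x : Cu R, x ∈ (on W : Submodule ℚ (Chd d Z)).comap ((mul μ).flip y) := by
    apply cb_mem_induction
    intro v
    change mul μ (cb v) y ∈ on W
    apply map_mem_on (f := mul μ (cb v)) _ hy
    intro u hu
    rw [mul_cb]
    exact cb_mem_on fun s => hV _ _ (hu _)
  exact this x

lemma mul_assoc' {S T : Type*} [TopologicalSpace S] [TopologicalSpace T]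
    (μ₁ : C(S × P, Z)) (μ₂ : C(R × T, S)) (μ₃ : C(R × Y, Z)) (μ₄ : C(T × P, Y))
    (h : ∀ a b p, μ₁ (μ₂ (a, b), p) = μ₃ (a, μ₄ (b, p))) (x : Cu R) (y : Cu T) (z : Chd d P) :
    mul μ₁ (mul μ₂ x y) z = mul μ₃ x (mul μ₄ y z) := by
  have h3 : ∀ w : Cb P, (mul μ₂).compr₂ ((mul μ₁).flip (cb w : Chd d P)) =
      (mul μ₃).compl₁₂ LinearMap.id ((mul μ₄).flip (cb w : Chd d P)) := by
    intro w
    apply bilin_ext
    intro v u
    simp only [LinearMap.compr₂_apply, LinearMap.compl₁₂_apply, LinearMap.flip_apply,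
      LinearMap.id_apply, mul_cb]
    congr 1
    ext1
    · simp only [Cb.mul_n]; omega
    · ext1 s
      simp only [Cb.mul_f, Cb.mul_n]
      rw [h]
      congr 5
      funext j
      simp only [sh_apply]
      congr 1
      omega
  have h4 : ∀ z : Chd d P, z ∈ LinearMap.eqLocus (mul μ₁ (mul μ₂ x y)) (mul μ₃ x ∘ₗ mul μ₄ y) := by
    apply cb_mem_induction
    intro w
    exact congrArg (fun f => f x y) (h3 w)
  exact h4 z

/-- a point as a `0`-cube -/
def Cb.pt (a : R) : Cb R := ⟨0, ContinuousMap.const _ a, fun _ _ _ => rfl⟩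

@[simp] lemma Cb.pt_n (a : R) : (Cb.pt a).n = 0 := rfl
@[simp] lemma Cb.pt_f (a : R) (s : Q) : (Cb.pt a).f s = a := rfl

/-- the partial map -/
def parC (μ : C(R × P, Z)) (a : R) : C(P, Z) :=
  μ.comp ((ContinuousMap.const P a).prodMk (ContinuousMap.id P))

@[simp] lemma parC_apply (μ : C(R × P, Z)) (a : R) (p : P) : parC μ a p = μ (a, p) := rfl

lemma sh_zero (s : Q) : sh 0 s = s := rfl

lemma mul_pt (μ : C(R × P, Z)) (a : R) (x : Chd d P) :
    mul μ (cb (Cb.pt a) : Cu R) x = push (parC μ a) x := by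
  have : mul μ (cb (Cb.pt a) : Cu R) = (push (parC μ a) : Chd d P →ₗ[ℚ] Chd d Z) := by
    apply hom_ext
    intro u
    rw [mul_cb, push_cb]
    congr 1
    ext1
    · simp
    · ext1 s
      simp [sh_zero]
  rw [this]

lemma mul_pt_right (μ : C(R × P, Z)) (a : P) (x : Cu R) :
    mul μ x (cb (Cb.pt a) : Cu P) =
      push (μ.comp ((ContinuousMap.id R).prodMk (ContinuousMap.const R a))) x := by
  have : (mul μ).flip (cb (Cb.pt a) : Cu P) =
      push (μ.comp ((ContinuousMap.id R).prodMk (ContinuousMap.const R a))) := by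
    apply hom_ext
    intro u
    rw [LinearMap.flip_apply, mul_cb, push_cb]
    congr 1
  exact congrArg (fun f => f x) this

lemma aug_mul (μ : C(R × P, Z)) (x : Cu R) (y : Chd d P) : aug (mul μ x y) = aug x * aug y := by
  have : (mul μ).compr₂ (aug : Chd d Z →ₗ[ℚ] ℚ) =
      (LinearMap.mul ℚ ℚ).compl₁₂ aug (aug : Chd d P →ₗ[ℚ] ℚ) := by
    apply bilin_ext
    intro v u
    simp only [LinearMap.compr₂_apply, LinearMap.compl₁₂_apply, mul_cb, aug_cb, Cb.mul_n,
      LinearMap.mul_apply']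
    by_cases h1 : v.n = 0 <;> by_cases h2 : u.n = 0 <;> simp [h1, h2]
  exact congrArg (fun f => f x y) this

lemma tot_mul (μ : C(R × P, Z)) (x : Cu R) (y : Cu P) : tot (mul μ x y) = tot x * tot y := by
  have : (mul μ).compr₂ (tot : Cu Z →ₗ[ℚ] ℚ) = (LinearMap.mul ℚ ℚ).compl₁₂ tot tot := by
    apply bilin_ext
    intro v u
    simp
  exact congrArg (fun f => f x y) this

lemma tot_prism (F : C(I × Y, Z)) (x : Cu Y) : tot (prism F x) = tot x := by
  have : tot ∘ₗ prism F = (tot : Cu Y →ₗ[ℚ] ℚ) := by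
    apply hom_ext
    intro u
    simp
  exact congrArg (fun f => f x) this

/-- the product with a chain of total coefficient zero dies if the first factor becomes
irrelevant -/
lemma push_mul_eq_zero (μ : C(R × P, Z)) (g : C(Z, Y)) (h : ∀ a b p, g (μ (a, p)) = g (μ (b, p)))
    {m : ℕ} {x : Cu R} (hx : x ∈ hom R m) (h0 : tot x = 0) (y : Chd d P) :
    push g (mul μ x y) = 0 := by
  have key : ∀ u : Cb P, push g (mul μ x (cb u : Chd d P)) = 0 := by
    intro u
    by_cases hR : Nonempty R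
    · obtain ⟨a⟩ := hR
      let k : Cb Y := ⟨m + u.n, (g.comp (parC μ a)).comp (u.f.comp (shC m)), by
        intro s t hst
        have h2 : u.f (sh m s) = u.f (sh m t) := u.dep _ _ fun i hi => hst (i + m) (by omega)
        simp [h2]⟩
      have : (hom R m : Submodule ℚ (Cu R)) ≤ LinearMap.eqLocus
          (push g ∘ₗ (mul μ).flip (cb u : Chd d P)) (tot.smulRight (cb k : Chd d Y)) := by
        rw [hom, Submodule.span_le]
        rintro _ ⟨v, hv, rfl⟩
        change push g (mul μ (cb v) (cb u)) = tot (cb v : Cu R) • (cb k : Chd d Y)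
        rw [mul_cb, push_cb, tot_cb, one_smul]
        congr 1
        ext1
        · simp [k, hv]
        · ext1 s
          simp only [Cb.push_f, Cb.mul_f, ContinuousMap.comp_apply, parC_apply, shC_apply, k, hv]
          exact h _ _ _
      have h1 := this hx
      change push g (mul μ x (cb u)) = tot x • (cb k : Chd d Y) at h1
      rw [h1, h0, zero_smul]
    · have : x = 0 := by
        have h2 : ∀ x : Cu R, x ∈ (⊥ : Submodule ℚ (Cu R)) := by
          apply cb_mem_induction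
          intro v
          exact absurd ⟨v.f 0⟩ hR
        simpa using h2 x
      rw [this]; simp
  have h4 : ∀ y : Chd d P, y ∈ LinearMap.ker (push g ∘ₗ mul μ x) := by
    apply cb_mem_induction
    intro u
    exact key u
  exact h4 y

end

end Pool.Agent.EF97
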