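import Pool.Agent.EF97.Core

/-!
# Subdivision of cubical chains: every coordinate is cut into `M` pieces
-/

namespace Pool.Agent.EF97

open Topology unitInterval

noncomputable section

variable {d d' : Bool} {Y Z P R B : Type*} [TopologicalSpace Y] [TopologicalSpace Z]
  [TopologicalSpace P] [TopologicalSpace R] [TopologicalSpace B]

/-- `t ↦ (c + t) / M` -/
def aff1 (M c : ℕ) (t : I) : I := Set.projIcc 0 1 zero_le_one (((c : ℝ) + t) / M)

lemma continuous_aff1 (M c : ℕ) : Continuous (aff1 M c) := by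
  unfold aff1
  exact continuous_projIcc.comp (by fun_prop)

lemma coe_aff1 {M c : ℕ} (h : c < M) (t : I) : (aff1 M c t : ℝ) = ((c : ℝ) + t) / M := by
  unfold aff1
  have hM : (0 : ℝ) < M := by exact_mod_cast (by omega : 0 < M)
  have h1 : (c : ℝ) + 1 ≤ M := by exact_mod_cast h
  have h2 := t.2.1
  have h3 := t.2.2
  rw [Set.projIcc_of_mem zero_le_one]
  constructor
  · positivity
  · rw [div_le_one hM]; linarith

lemma aff1_one {M c : ℕ} (h : c + 1 < M) : aff1 M c 1 = aff1 M (c + 1) 0 := by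
  apply Subtype.ext
  rw [coe_aff1 (by omega), coe_aff1 h]
  simp

lemma aff1_first {M : ℕ} (h : 0 < M) : aff1 M 0 0 = 0 := by
  apply Subtype.ext
  rw [coe_aff1 h]
  simp

lemma aff1_last {M : ℕ} (h : 0 < M) : aff1 M (M - 1) 1 = 1 := by
  apply Subtype.ext
  rw [coe_aff1 (by omega)]
  have hM : (M : ℝ) ≠ 0 := by exact_mod_cast (by omega : M ≠ 0)
  have h2 : (((M - 1 : ℕ) : ℝ)) = M - 1 := by
    rw [Nat.cast_sub (by omega)]; simp
  rw [h2]
  simp [hM]

/-- the affine map in coordinate `j` -/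
def aff (M j c : ℕ) (s : Q) : Q := fun i => if i = j then aff1 M c (s i) else s i

lemma continuous_aff (M j c : ℕ) : Continuous (aff M j c) := by
  rw [continuous_pi_iff]
  intro i
  unfold aff
  split_ifs
  · exact (continuous_aff1 M c).comp (continuous_apply i)
  · exact continuous_apply i

lemma aff_same (M j c : ℕ) (s : Q) : aff M j c s j = aff1 M c (s j) := by simp [aff]

lemma aff_ne (M c : ℕ) {i j : ℕ} (h : i ≠ j) (s : Q) : aff M j c s i = s i := by simp [aff, h]

/-- piece of a cube -/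
def Cb.pc (M j c : ℕ) (u : Cb Y) : Cb Y where
  n := u.n
  f := u.f.comp ⟨aff M j c, continuous_aff M j c⟩
  dep s t h := by
    apply u.dep
    intro i hi
    change aff M j c s i = aff M j c t i
    unfold aff
    rw [h i hi]

@[simp] lemma Cb.pc_n (M j c : ℕ) (u : Cb Y) : (u.pc M j c).n = u.n := rfl
@[simp] lemma Cb.pc_f (M j c : ℕ) (u : Cb Y) (s : Q) : (u.pc M j c).f s = u.f (aff M j c s) := rfl

lemma Cb.Deg.pc {u : Cb Y} (hu : u.Deg) (M j c : ℕ) : (u.pc M j c).Deg := by
  refine ⟨hu.1, fun s t h => ?_⟩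
  apply hu.2
  intro i hi
  change aff M j c s i = aff M j c t i
  unfold aff
  rw [h i hi]

/-- subdivision of the coordinate `j` -/
def Sj (M j : ℕ) : Chd d Y →ₗ[ℚ] Chd d Y :=
  lift (fun u => if j < u.n then ∑ c ∈ Finset.range M, cb (u.pc M j c) else cb u) (by
    rintro u ⟨hd, hu⟩
    split_ifs
    · apply Finset.sum_eq_zero
      intro c _
      exact cb_deg' ⟨hd, hu.pc M j c⟩
    · exact cb_deg' ⟨hd, hu⟩)

lemma Sj_lt {M j : ℕ} {u : Cb Y} (h : j < u.n) :
    Sj M j (cb u : Chd d Y) = ∑ c ∈ Finset.range M, cb (u.pc M j c) := by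
  simp [Sj, h]

lemma Sj_ge {M j : ℕ} {u : Cb Y} (h : u.n ≤ j) : Sj M j (cb u : Chd d Y) = cb u := by
  simp [Sj, not_lt.mpr h]

lemma Cb.pc_face_lt {M c i j : ℕ} (h : j < i) (ε : I) (u : Cb Y) :
    (u.pc M j c).face i ε = (u.face i ε).pc M j c := by
  ext1
  · rfl
  · ext1 s
    simp only [Cb.face_f, Cb.pc_f]
    congr 1
    funext k
    by_cases hk : k = j
    · subst hk
      rw [aff_same, ins_of_lt h, ins_of_lt h, aff_same]
    · rw [aff_ne _ _ hk]
      rcases lt_trichotomy k i with hk2 | hk2 | hk2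
      · rw [ins_of_lt hk2, ins_of_lt hk2, aff_ne _ _ hk]
      · subst hk2; simp
      · rw [ins_of_gt hk2, ins_of_gt hk2, aff_ne _ _ (by omega)]

lemma Cb.pc_face_gt {M c i j : ℕ} (h : i < j) (ε : I) (u : Cb Y) :
    (u.pc M j c).face i ε = (u.face i ε).pc M (j - 1) c := by
  ext1
  · rfl
  · ext1 s
    simp only [Cb.face_f, Cb.pc_f]
    congr 1
    funext k
    by_cases hk : k = j
    · subst hk
      rw [aff_same, ins_of_gt h, ins_of_gt h, aff_same]
    · rw [aff_ne _ _ hk]
      rcases lt_trichotomy k i with hk2 | hk2 | hk2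
      · rw [ins_of_lt hk2, ins_of_lt hk2, aff_ne _ _ (by omega)]
      · subst hk2; simp
      · rw [ins_of_gt hk2, ins_of_gt hk2, aff_ne _ _ (by omega)]

lemma Cb.pc_face_same {M c i : ℕ} (ε : I) (u : Cb Y) :
    (u.pc M i c).face i ε = u.face i (aff1 M c ε) := by
  ext1
  · rfl
  · ext1 s
    simp only [Cb.face_f, Cb.pc_f]
    congr 1
    funext k
    by_cases hk : k = i
    · subst hk
      rw [aff_same, ins_self, ins_self]
    · rw [aff_ne _ _ hk]
      rcases lt_trichotomy k i with hk2 | hk2 | hk2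
      · rw [ins_of_lt hk2, ins_of_lt hk2]
      · exact absurd hk2 hk
      · rw [ins_of_gt hk2, ins_of_gt hk2]

lemma bdi_Sj_lt {M i j : ℕ} (h : j < i) (x : Chd d Y) : bdi i (Sj M j x) = Sj M j (bdi i x) := by
  have : (bdi i ∘ₗ Sj M j : Chd d Y →ₗ[ℚ] Chd d Y) = Sj M j ∘ₗ bdi i := by
    apply hom_ext
    intro u
    simp only [LinearMap.comp_apply]
    by_cases hn : i < u.n
    · rw [Sj_lt (by omega), map_sum, bdi_cb, map_sub, Sj_lt (by rw [Cb.face_n_lt hn]; omega),
        Sj_lt (by rw [Cb.face_n_lt hn]; omega), ← Finset.sum_sub_distrib]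
      apply Finset.sum_congr rfl
      intro c _
      rw [bdi_cb, Cb.pc_face_lt h, Cb.pc_face_lt h]
    · rw [bdi_cb_ge (not_lt.mp hn), map_zero]
      by_cases hj : j < u.n
      · rw [Sj_lt hj, map_sum]
        apply Finset.sum_eq_zero
        intro c _
        exact bdi_cb_ge (not_lt.mp hn)
      · rw [Sj_ge (not_lt.mp hj)]
        exact bdi_cb_ge (not_lt.mp hn)
  exact congrArg (fun f => f x) this

lemma bdi_Sj_gt {M i j : ℕ} (h : i < j) (x : Chd d Y) :
    bdi i (Sj M j x) = Sj M (j - 1) (bdi i x) := by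
  have : (bdi i ∘ₗ Sj M j : Chd d Y →ₗ[ℚ] Chd d Y) = Sj M (j - 1) ∘ₗ bdi i := by
    apply hom_ext
    intro u
    simp only [LinearMap.comp_apply]
    by_cases hj : j < u.n
    · rw [Sj_lt hj, map_sum, bdi_cb, map_sub, Sj_lt (by rw [Cb.face_n_lt (by omega)]; omega),
        Sj_lt (by rw [Cb.face_n_lt (by omega)]; omega), ← Finset.sum_sub_distrib]
      apply Finset.sum_congr rfl
      intro c _
      rw [bdi_cb, Cb.pc_face_gt h, Cb.pc_face_gt h]
    · rw [Sj_ge (not_lt.mp hj)]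
      by_cases hn : i < u.n
      · rw [bdi_cb, map_sub, Sj_ge (by rw [Cb.face_n_lt hn]; omega),
          Sj_ge (by rw [Cb.face_n_lt hn]; omega)]
      · rw [bdi_cb_ge (not_lt.mp hn), map_zero]
  exact congrArg (fun f => f x) this

lemma bdi_Sj_same {M i : ℕ} (hM : 0 < M) (x : Chd d Y) : bdi i (Sj M i x) = bdi i x := by
  have : (bdi i ∘ₗ Sj M i : Chd d Y →ₗ[ℚ] Chd d Y) = bdi i := by
    apply hom_ext
    intro u
    simp only [LinearMap.comp_apply]
    by_cases hn : i < u.n
    · rw [Sj_lt hn, map_sum]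
      have h1 : ∀ c ∈ Finset.range M, bdi i (cb (u.pc M i c) : Chd d Y) =
          (if c + 1 = M then cb (u.face i 1) else cb (u.face i (aff1 M (c + 1) 0))) -
            cb (u.face i (aff1 M c 0)) := by
        intro c hc
        have hc' : c < M := by simpa using hc
        rw [bdi_cb, Cb.pc_face_same, Cb.pc_face_same]
        split_ifs with h
        · have : c = M - 1 := by omega
          subst this
          rw [aff1_last hM]
        · rw [aff1_one (by omega)]
      rw [Finset.sum_congr rfl h1]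
      set g : ℕ → Chd d Y := fun c => if c = M then cb (u.face i 1) else
        cb (u.face i (aff1 M c 0)) with hg
      have h2 : ∀ c ∈ Finset.range M, ((if c + 1 = M then (cb (u.face i 1) : Chd d Y) else
          cb (u.face i (aff1 M (c + 1) 0))) - cb (u.face i (aff1 M c 0))) = g (c + 1) - g c := by
        intro c hc
        have hc' : c < M := by simpa using hc
        simp only [hg]
        rw [if_neg (show ¬ c = M by omega)]
      rw [Finset.sum_congr rfl h2, Finset.sum_range_sub]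
      have hg1 : g M = cb (u.face i 1) := by simp [hg]
      have hg0 : g 0 = cb (u.face i 0) := by
        simp only [hg]
        rw [if_neg (show ¬ 0 = M by omega), aff1_first hM]
      rw [hg1, hg0, bdi_cb]
    · rw [Sj_ge (not_lt.mp hn)]
  exact congrArg (fun f => f x) this

/-- subdivision of the coordinates `0, …, k - 1` -/
def Tk (M : ℕ) : ℕ → (Chd d Y →ₗ[ℚ] Chd d Y)
  | 0 => LinearMap.id
  | k + 1 => Tk M k ∘ₗ Sj M k

lemma Tk_succ (M k : ℕ) (x : Chd d Y) : Tk M (k + 1) x = Tk M k (Sj M k x) := rfl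

lemma bdi_Tk_ge {M i k : ℕ} (h : k ≤ i) (x : Chd d Y) : bdi i (Tk M k x) = Tk M k (bdi i x) := by
  induction k generalizing x with
  | zero => rfl
  | succ k ih => rw [Tk_succ, ih (by omega), bdi_Sj_lt (by omega), Tk_succ]

lemma bdi_Tk_lt {M i k : ℕ} (hM : 0 < M) (h : i < k) (x : Chd d Y) :
    bdi i (Tk M k x) = Tk M (k - 1) (bdi i x) := by
  induction k generalizing x with
  | zero => omega
  | succ k ih =>
    rw [Tk_succ]
    rcases Nat.lt_or_ge i k with hk | hk
    · rw [ih hk, bdi_Sj_gt hk]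
      obtain ⟨k, rfl⟩ : ∃ k', k = k' + 1 := ⟨k - 1, by omega⟩
      simp only [Nat.add_sub_cancel]
      rw [Tk_succ]
    · have : k = i := by omega
      subst this
      rw [bdi_Tk_ge le_rfl, bdi_Sj_same hM]
      simp

/-- subdivision -/
def Sd (M : ℕ) : Chd d Y →ₗ[ℚ] Chd d Y :=
  lift (fun u => Tk M u.n (cb u)) (fun u hu => by rw [cb_deg' hu, map_zero])

@[simp] lemma Sd_cb (M : ℕ) (u : Cb Y) : Sd M (cb u : Chd d Y) = Tk M u.n (cb u) := by simp [Sd]

lemma Sd_of_hom {M n : ℕ} {x : Chd d Y} (hx : x ∈ hom Y n) : Sd M x = Tk M n x := by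
  have : (hom Y n : Submodule ℚ (Chd d Y)) ≤ LinearMap.eqLocus (Sd M) (Tk M n) := by
    rw [hom, Submodule.span_le]
    rintro _ ⟨u, hu, rfl⟩
    change Sd M (cb u) = _
    rw [Sd_cb, hu]
  exact this hx

lemma Sd_hom_zero {M : ℕ} {x : Chd d Y} (hx : x ∈ hom Y 0) : Sd M x = x := by
  rw [Sd_of_hom hx]; rfl

lemma Sj_mem_hom {M j n : ℕ} {x : Chd d Y} (hx : x ∈ hom Y n) : Sj M j x ∈ hom Y n := by
  apply map_mem_hom (f := Sj M j) _ hx
  intro u hu
  by_cases hj : j < u.n
  · rw [Sj_lt hj]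
    exact Submodule.sum_mem _ fun c _ => cb_mem_hom hu
  · rw [Sj_ge (not_lt.mp hj)]
    exact cb_mem_hom hu

lemma Tk_mem_hom {M k n : ℕ} {x : Chd d Y} (hx : x ∈ hom Y n) : Tk M k x ∈ hom Y n := by
  induction k generalizing x with
  | zero => exact hx
  | succ k ih => exact ih (Sj_mem_hom hx)

lemma Sd_mem_hom {M n : ℕ} {x : Chd d Y} (hx : x ∈ hom Y n) : Sd M x ∈ hom Y n := by
  rw [Sd_of_hom hx]
  exact Tk_mem_hom hx

lemma Sj_mem_on {M j : ℕ} {V : Set Y} {x : Chd d Y} (hx : x ∈ on V) : Sj M j x ∈ on V := by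
  apply map_mem_on (f := Sj M j) _ hx
  intro u hu
  by_cases hj : j < u.n
  · rw [Sj_lt hj]
    exact Submodule.sum_mem _ fun c _ => cb_mem_on fun s => hu _
  · rw [Sj_ge (not_lt.mp hj)]
    exact cb_mem_on hu

lemma Tk_mem_on {M k : ℕ} {V : Set Y} {x : Chd d Y} (hx : x ∈ on V) : Tk M k x ∈ on V := by
  induction k generalizing x with
  | zero => exact hx
  | succ k ih => exact ih (Sj_mem_on hx)

lemma Sd_mem_on {M : ℕ} {V : Set Y} {x : Chd d Y} (hx : x ∈ on V) : Sd M x ∈ on V := by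
  apply map_mem_on (f := Sd M) _ hx
  intro u hu
  rw [Sd_cb]
  exact Tk_mem_on (cb_mem_on hu)

theorem bd_Sd {M : ℕ} (hM : 0 < M) (x : Chd d Y) : bd (Sd M x) = Sd M (bd x) := by
  have : (bd ∘ₗ Sd M : Chd d Y →ₗ[ℚ] Chd d Y) = Sd M ∘ₗ bd := by
    apply hom_ext
    intro u
    simp only [LinearMap.comp_apply]
    rcases hn : u.n with _ | n
    · have h0 : bd (cb u : Chd d Y) = 0 := bd_hom_zero (cb_mem_hom hn)
      rw [Sd_hom_zero (cb_mem_hom hn), h0, map_zero]
    · have h1 : (cb u : Chd d Y) ∈ hom Y (n + 1) := cb_mem_hom hn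
      rw [bd_eq_of_hom (Sd_mem_hom h1), bd_eq_of_hom h1, map_sum]
      apply Finset.sum_congr rfl
      intro i hi
      have hi' : i < n + 1 := by simpa using hi
      rw [map_smul, Sd_of_hom h1, bdi_Tk_lt hM hi', Sd_of_hom (bdi_cb_mem hn hi')]
      simp
  exact congrArg (fun f => f x) this

/-! ## Products -/

lemma Cb.pc_mul_lt {M c j : ℕ} (μ : C(R × P, Z)) (v : Cb R) (u : Cb P) (h : j < v.n) :
    (v.mul μ u).pc M j c = (v.pc M j c).mul μ u := by
  ext1
  · rfl
  · ext1 s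
    simp only [Cb.pc_f, Cb.mul_f, Cb.pc_n]
    congr 3
    funext k
    simp only [sh_apply]
    exact aff_ne _ _ (by omega) _

lemma Cb.pc_mul_add {M c l : ℕ} (μ : C(R × P, Z)) (v : Cb R) (u : Cb P) :
    (v.mul μ u).pc M (v.n + l) c = v.mul μ (u.pc M l c) := by
  ext1
  · rfl
  · ext1 s
    simp only [Cb.pc_f, Cb.mul_f]
    have h1 : v.f (aff M (v.n + l) c s) = v.f s := by
      apply v.dep
      intro i hi
      exact aff_ne _ _ (by omega) _
    have h2 : sh v.n (aff M (v.n + l) c s) = aff M l c (sh v.n s) := by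
      funext k
      by_cases hk : k = l
      · subst hk
        rw [sh_apply, aff_same, sh_apply, show k + v.n = v.n + k by omega, aff_same]
      · rw [sh_apply, aff_ne _ _ hk, aff_ne _ _ (by omega), sh_apply]
    rw [h1, h2]

lemma Sj_mul_lt {M j : ℕ} (μ : C(R × P, Z)) {m : ℕ} (h : j < m) {x : Cu R} (hx : x ∈ hom R m)
    (y : Chd d P) : Sj M j (mul μ x y) = mul μ (Sj M j x) y := by
  have h1 : ∀ y : Chd d P, y ∈ LinearMap.eqLocus (Sj M j ∘ₗ mul μ x) (mul μ (Sj M j x)) := by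
    apply cb_mem_induction
    intro u
    change Sj M j (mul μ x (cb u)) = mul μ (Sj M j x) (cb u)
    have : (hom R m : Submodule ℚ (Cu R)) ≤ LinearMap.eqLocus
        (Sj M j ∘ₗ (mul μ).flip (cb u : Chd d P)) ((mul μ).flip (cb u : Chd d P) ∘ₗ Sj M j) := by
      rw [hom, Submodule.span_le]
      rintro _ ⟨v, hv, rfl⟩
      change Sj M j (mul μ (cb v) (cb u)) = mul μ (Sj M j (cb v)) (cb u)
      rw [mul_cb, Sj_lt (by rw [Cb.mul_n]; omega), Sj_lt (by omega), map_sum,
        LinearMap.sum_apply]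
      apply Finset.sum_congr rfl
      intro c _
      rw [Cb.pc_mul_lt μ v u (by omega), mul_cb]
    exact this hx
  exact h1 y

lemma Sj_mul_add {M l : ℕ} (μ : C(R × P, Z)) {m : ℕ} {x : Cu R} (hx : x ∈ hom R m)
    (y : Chd d P) : Sj M (m + l) (mul μ x y) = mul μ x (Sj M l y) := by
  have h1 : ∀ y : Chd d P, y ∈ LinearMap.eqLocus (Sj M (m + l) ∘ₗ mul μ x)
      (mul μ x ∘ₗ Sj M l) := by
    apply cb_mem_induction
    intro u
    change Sj M (m + l) (mul μ x (cb u)) = mul μ x (Sj M l (cb u))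
    have : (hom R m : Submodule ℚ (Cu R)) ≤ LinearMap.eqLocus
        (Sj M (m + l) ∘ₗ (mul μ).flip (cb u : Chd d P))
        ((mul μ).flip (Sj M l (cb u : Chd d P))) := by
      rw [hom, Submodule.span_le]
      rintro _ ⟨v, hv, rfl⟩
      change Sj M (m + l) (mul μ (cb v) (cb u)) = mul μ (cb v) (Sj M l (cb u))
      rw [mul_cb]
      by_cases hl : l < u.n
      · rw [Sj_lt (by rw [Cb.mul_n]; omega), Sj_lt hl, map_sum]
        apply Finset.sum_congr rfl
        intro c _
        rw [mul_cb, ← Cb.pc_mul_add μ v u, hv]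
      · rw [Sj_ge (by rw [Cb.mul_n]; omega), Sj_ge (not_lt.mp hl), mul_cb]
    exact this hx
  exact h1 y

lemma Tk_mul (M : ℕ) (μ : C(R × P, Z)) {m : ℕ} (n : ℕ) {x : Cu R} (hx : x ∈ hom R m)
    (y : Chd d P) : Tk M (m + n) (mul μ x y) = mul μ (Tk M m x) (Tk M n y) := by
  induction n generalizing y with
  | zero =>
    change Tk M m (mul μ x y) = mul μ (Tk M m x) y
    have : ∀ k ≤ m, ∀ x : Cu R, x ∈ hom R m → Tk M k (mul μ x y) = mul μ (Tk M k x) y := by
      intro k
      induction k with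
      | zero => intro _ x _; rfl
      | succ k ih =>
        intro hk x hx
        rw [Tk_succ, Sj_mul_lt μ (by omega) hx, ih (by omega) _ (Sj_mem_hom hx), Tk_succ]
    exact this m le_rfl x hx
  | succ n ih =>
    rw [← Nat.add_assoc, Tk_succ, Sj_mul_add μ hx, ih, Tk_succ]

theorem Sd_mul (M : ℕ) (μ : C(R × P, Z)) (x : Cu R) (y : Chd d P) :
    Sd M (mul μ x y) = mul μ (Sd M x) (Sd M y) := by
  have : (mul μ).compr₂ (Sd M : Chd d Z →ₗ[ℚ] Chd d Z) =
      (mul μ).compl₁₂ (Sd M) (Sd M : Chd d P →ₗ[ℚ] Chd d P) := by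
    apply bilin_ext
    intro v u
    simp only [LinearMap.compr₂_apply, LinearMap.compl₁₂_apply]
    rw [Sd_of_hom (mul_mem_hom μ (cb_mem_hom rfl) (cb_mem_hom rfl)),
      Tk_mul M μ u.n (cb_mem_hom rfl), Sd_cb, Sd_cb]
  exact congrArg (fun f => f x y) this

/-! ## Smallness -/

/-- maps of the Hilbert cube subdividing the coordinates `j ∈ [k, n)` into pieces of length
`1 / M` -/
def IsPc (M k n : ℕ) (a : Q → Q) : Prop :=
  Continuous a ∧ (∀ s t : Q, ∀ j, s j = t j → a s j = a t j) ∧ (∀ s j, j < k → a s j = s j) ∧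
    ∀ s t : Q, ∀ j, k ≤ j → j < n → |(a s j : ℝ) - a t j| ≤ 1 / M

lemma Tk_mem_pc {M : ℕ} (hM : 0 < M) (u : Cb Y) {S : Submodule ℚ (Chd d Y)}
    (hS : ∀ v : Cb Y, v.n = u.n → (∃ a, IsPc M 0 u.n a ∧ ∀ s, v.f s = u.f (a s)) → cb v ∈ S) :
    ∀ k ≤ u.n, ∀ v : Cb Y, v.n = u.n → (∃ a, IsPc M k u.n a ∧ ∀ s, v.f s = u.f (a s)) →
      Tk M k (cb v) ∈ S := by
  intro k
  induction k with
  | zero => intro _ v hv h; exact hS v hv h
  | succ k ih =>
    intro hk v hv ⟨a, ha, hva⟩
    obtain ⟨ha1, ha2, ha3, ha4⟩ := ha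
    rw [Tk_succ, Sj_lt (by omega), map_sum]
    apply Submodule.sum_mem
    intro c hc
    have hc' : c < M := by simpa using hc
    apply ih (by omega) _ (by simpa using hv)
    refine ⟨a ∘ aff M k c, ⟨ha1.comp (continuous_aff M k c), ?_, ?_, ?_⟩, ?_⟩
    · intro s t j hst
      apply ha2
      unfold aff
      rw [hst]
    · intro s j hj
      change a (aff M k c s) j = s j
      rw [ha3 _ _ (by omega), aff_ne _ _ (by omega)]
    · intro s t j hj1 hj2
      change |(a (aff M k c s) j : ℝ) - a (aff M k c t) j| ≤ 1 / M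
      rcases eq_or_ne j k with rfl | hne
      · rw [ha3 _ _ (by omega), ha3 _ _ (by omega), aff_same, aff_same, coe_aff1 hc',
          coe_aff1 hc']
        have hM' : (0 : ℝ) < M := by exact_mod_cast hM
        have h1 := (s j).2.1
        have h2 := (s j).2.2
        have h3 := (t j).2.1
        have h4 := (t j).2.2
        rw [← sub_div, abs_div, abs_of_pos hM', div_le_div_iff_of_pos_right hM', abs_le]
        constructor <;> linarith
      · exact ha4 _ _ j (by omega) hj2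
    · intro s
      exact hva _

theorem Sd_small {ι : Type*} {V : ι → Set Y} (hV : ∀ i, IsOpen (V i)) (hU : ∀ y, ∃ i, y ∈ V i)
    (x : Chd d Y) :
    ∃ M₀ : ℕ, ∀ M, M₀ ≤ M → 0 < M → Sd M x ∈ (⨆ i, on (V i) : Submodule ℚ (Chd d Y)) := by
  -- first for one cube
  have key : ∀ u : Cb Y, ∃ M₀ : ℕ, ∀ M, M₀ ≤ M → 0 < M →
      Sd M (cb u) ∈ (⨆ i, on (V i) : Submodule ℚ (Chd d Y)) := by
    intro u
    -- restriction to a finite dimensional cube
    let ex : (Fin u.n → I) → Q := fun s j => if h : j < u.n then s ⟨j, h⟩ else 0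
    have hex : Continuous ex := by
      rw [continuous_pi_iff]
      intro j
      by_cases h : j < u.n
      · simp only [ex, h, dif_pos]
        exact continuous_apply _
      · simp only [ex, h, dif_neg, not_false_eq_true]
        exact continuous_const
    have hexd : ∀ s : Q, u.f (ex fun j => s j) = u.f s := by
      intro s
      apply u.dep
      intro i hi
      simp [ex, hi]
    obtain ⟨δ, hδ, hδV⟩ := lebesgue_number_lemma_of_metric (isCompact_univ (X := Fin u.n → I))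
      (c := fun i => (fun s => u.f (ex s)) ⁻¹' V i)
      (fun i => (hV i).preimage (u.f.continuous.comp hex))
      (fun s _ => by
        obtain ⟨i, hi⟩ := hU (u.f (ex s))
        exact Set.mem_iUnion.mpr ⟨i, hi⟩)
    obtain ⟨M₀, hM₀⟩ := exists_nat_gt (1 / δ)
    refine ⟨M₀, fun M hMM hM => ?_⟩
    rw [Sd_cb]
    apply Tk_mem_pc hM u _ u.n le_rfl u rfl
    · exact ⟨id, ⟨continuous_id, fun s t j h => h, fun s j _ => rfl,
        fun s t j h1 h2 => by omega⟩, fun s => rfl⟩
    · rintro v hv ⟨a, ⟨-, -, -, ha⟩, hva⟩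
      obtain ⟨i, hi⟩ := hδV (fun j => a 0 j) trivial
      apply Submodule.mem_iSup_of_mem i
      apply cb_mem_on
      intro s
      rw [hva, ← hexd]
      suffices hmem : (fun j : Fin u.n => a s j) ∈ Metric.ball (fun j : Fin u.n => a 0 j) δ from
        hi hmem
      rw [Metric.mem_ball, dist_pi_lt_iff hδ]
      intro j
      have h1 := ha s 0 j (by omega) j.2
      rw [Subtype.dist_eq, Real.dist_eq]
      refine lt_of_le_of_lt h1 ?_
      have hM' : (0 : ℝ) < M := by exact_mod_cast hM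
      have h2 : (M₀ : ℝ) ≤ M := by exact_mod_cast hMM
      rw [div_lt_iff₀ hM']
      rw [div_lt_iff₀ hδ] at hM₀
      nlinarith
  -- in general
  let S : Submodule ℚ (Chd d Y) :=
    { carrier := {x | ∃ M₀ : ℕ, ∀ M, M₀ ≤ M → 0 < M →
        Sd M x ∈ (⨆ i, on (V i) : Submodule ℚ (Chd d Y))}
      add_mem' := by
        rintro x y ⟨M₁, h1⟩ ⟨M₂, h2⟩
        refine ⟨max M₁ M₂, fun M hM h0 => ?_⟩
        rw [map_add]
        exact Submodule.add_mem _ (h1 M (le_trans (le_max_left _ _) hM) h0)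
          (h2 M (le_trans (le_max_right _ _) hM) h0)
      zero_mem' := ⟨0, fun M _ _ => by rw [map_zero]; exact Submodule.zero_mem _⟩
      smul_mem' := by
        rintro c x ⟨M₁, h1⟩
        refine ⟨M₁, fun M hM h0 => ?_⟩
        rw [map_smul]
        exact Submodule.smul_mem _ _ (h1 M hM h0) }
  have : x ∈ S := cb_mem_induction (S := S) key x
  exact this

end

end Pool.Agent.EF97
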