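import Pool.Agent.EF97.Oper

/-!
# Towers of chains
-/

namespace Pool.Agent.EF97

open Topology unitInterval
open Finset.HasAntidiagonal (antidiagonal)

noncomputable section

variable {d d' : Bool} {Y Z P R : Type*} [TopologicalSpace Y] [TopologicalSpace Z]
  [TopologicalSpace P] [TopologicalSpace R]

lemma sum_triple {M : Type*} [AddCommMonoid M] (m : ℕ) (f : ℕ → ℕ → ℕ → M) :
    ∑ p ∈ antidiagonal m, ∑ q ∈ antidiagonal p.1, f q.1 q.2 p.2 =
      ∑ p ∈ antidiagonal m, ∑ q ∈ antidiagonal p.2, f p.1 q.1 q.2 := by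
  rw [Finset.sum_sigma', Finset.sum_sigma']
  refine Finset.sum_bij' (fun x _ => ⟨(x.2.1, x.2.2 + x.1.2), (x.2.2, x.1.2)⟩)
    (fun x _ => ⟨(x.1.1 + x.2.1, x.2.2), (x.1.1, x.2.1)⟩) ?_ ?_ ?_ ?_ ?_
  · rintro ⟨⟨a, b⟩, ⟨c, e⟩⟩ hx
    simp at hx ⊢
    omega
  · rintro ⟨⟨a, b⟩, ⟨c, e⟩⟩ hx
    simp at hx ⊢
    omega
  · rintro ⟨⟨a, b⟩, ⟨c, e⟩⟩ hx
    simp at hx ⊢
    omega
  · rintro ⟨⟨a, b⟩, ⟨c, e⟩⟩ hx
    simp at hx ⊢
    omega
  · rintro ⟨⟨a, b⟩, ⟨c, e⟩⟩ hx
    rfl

/-! ## The sequence in the additive group of real numbers -/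

/-- addition -/
def addC : C(ℝ × ℝ, ℝ) := ⟨fun p => p.1 + p.2, by fun_prop⟩

@[simp] lemma addC_apply (p : ℝ × ℝ) : addC p = p.1 + p.2 := rfl

/-- the straight contraction -/
def coneC : C(I × ℝ, ℝ) := ⟨fun p => (p.1 : ℝ) * p.2, by fun_prop⟩

/-- the identity `1`-cube minus the constant one -/
def N0 : Cu ℝ := cb (⟨1, ⟨fun s => (s 0 : ℝ), by fun_prop⟩, fun s t h => by
    simp [h 0 (by omega)]⟩ : Cb ℝ) -
  cb (⟨1, ContinuousMap.const _ 0, fun _ _ _ => rfl⟩ : Cb ℝ)

/-- the sequence `ν` (shifted by one) -/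
def NN : ℕ → Cu ℝ
  | 0 => N0
  | m + 1 => prism coneC (∑ p ∈ (antidiagonal m).attach, mul addC (NN p.1.1) (NN p.1.2))
termination_by n => n
decreasing_by
  · have h := Finset.HasAntidiagonal.mem_antidiagonal.mp p.2
    omega
  · have h := Finset.HasAntidiagonal.mem_antidiagonal.mp p.2
    omega

lemma NN_succ (m : ℕ) :
    NN (m + 1) = prism coneC (∑ p ∈ antidiagonal m, mul addC (NN p.1) (NN p.2)) := by
  rw [NN, Finset.sum_attach (antidiagonal m) (fun p => mul addC (NN p.1) (NN p.2))]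

lemma NN_zero : NN 0 = N0 := by rw [NN]

lemma NN_hom_tot (n : ℕ) : NN n ∈ hom ℝ (2 * n + 1) ∧ tot (NN n) = 0 := by
  induction n using Nat.strong_induction_on with
  | _ n ih =>
    rcases n with _ | m
    · rw [NN_zero]
      refine ⟨Submodule.sub_mem _ (cb_mem_hom rfl) (cb_mem_hom rfl), ?_⟩
      rw [N0, map_sub, tot_cb, tot_cb, sub_self]
    · rw [NN_succ]
      constructor
      · apply prism_mem_hom
        apply Submodule.sum_mem
        intro p hp
        have hp' : p.1 + p.2 = m := by simpa using hp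
        have := mul_mem_hom addC (ih p.1 (by omega)).1 (ih p.2 (by omega)).1
        have h2 : 2 * p.1 + 1 + (2 * p.2 + 1) = 2 * (m + 1) := by omega
        rwa [h2] at this
      · rw [tot_prism, map_sum]
        apply Finset.sum_eq_zero
        intro p hp
        have hp' : p.1 + p.2 = m := by simpa using hp
        rw [tot_mul, (ih p.1 (by omega)).2, zero_mul]

lemma NN_hom (n : ℕ) : NN n ∈ hom ℝ (2 * n + 1) := (NN_hom_tot n).1
lemma NN_tot (n : ℕ) : tot (NN n) = 0 := (NN_hom_tot n).2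

/-- the chain `[1] - [0]` -/
def zz : Cu ℝ := cb (Cb.pt 1) - cb (Cb.pt 0)

lemma bd_NN_zero : bd (NN 0) = zz := by
  rw [NN_zero, N0, map_sub, bd_cb, bd_cb]
  simp only [Finset.sum_range_one, pow_zero, one_smul, bdi_cb]
  have h1 : ∀ (ε : I) (h) , Cb.face 0 ε (⟨1, ⟨fun s => (s 0 : ℝ), by fun_prop⟩, h⟩ : Cb ℝ) =
      Cb.pt (ε : ℝ) := by
    intro ε h
    ext1
    · rfl
    · ext1 s; simp
  have h2 : ∀ (ε : I) (h) , Cb.face 0 ε (⟨1, ContinuousMap.const _ 0, h⟩ : Cb ℝ) =
      Cb.pt 0 := by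
    intro ε h
    ext1
    · rfl
    · ext1 s; simp
  rw [h1, h1, h2, h2, zz]
  simp

lemma mul_zz_comm (x : Cu ℝ) : mul addC zz x = mul addC x zz := by
  rw [zz, map_sub, LinearMap.sub_apply, map_sub, mul_pt, mul_pt, mul_pt_right, mul_pt_right]
  congr 2
  · congr 1; ext a; simp [add_comm]
  · congr 1; ext a; simp

/-- the algebraic identity behind the recursion -/
lemma bd_sum_mul {μ : C(ℝ × P, P)} (hassoc : ∀ a b p, μ (a + b, p) = μ (a, μ (b, p)))
    {N : ℕ → Cu ℝ} {W : ℕ → Chd d P} {m : ℕ}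
    (hN0 : mul μ (bd (N 0)) (W m) = mul μ (N m) (bd (W 0)))
    (hNs : ∀ n < m, bd (N (n + 1)) = ∑ p ∈ antidiagonal n, mul addC (N p.1) (N p.2))
    (hW : ∀ n < m, bd (W (n + 1)) = ∑ p ∈ antidiagonal n, mul μ (N p.1) (W p.2))
    (hsg : ∀ n ≤ m, sg (N n) = - N n) :
    bd (∑ p ∈ antidiagonal m, mul μ (N p.1) (W p.2)) = 0 := by
  have h1 : bd (∑ p ∈ antidiagonal m, mul μ (N p.1) (W p.2)) =
      ∑ p ∈ antidiagonal m, mul μ (bd (N p.1)) (W p.2) -
        ∑ p ∈ antidiagonal m, mul μ (N p.1) (bd (W p.2)) := by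
    rw [map_sum, ← Finset.sum_sub_distrib]
    apply Finset.sum_congr rfl
    intro p hp
    have hp' : p.1 + p.2 = m := by simpa using hp
    rw [bd_mul, hsg p.1 (by omega), map_neg, LinearMap.neg_apply, sub_eq_add_neg]
  rw [h1]
  rcases m with _ | m
  · simp only [Finset.Nat.antidiagonal_zero, Finset.sum_singleton]
    rw [hN0, sub_self]
  · rw [Finset.Nat.sum_antidiagonal_succ, Finset.Nat.sum_antidiagonal_succ']
    rw [hN0]
    have h2 : ∑ p ∈ antidiagonal m, mul μ (bd (N (p.1 + 1))) (W p.2) =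
        ∑ p ∈ antidiagonal m, ∑ q ∈ antidiagonal p.1,
          mul μ (N q.1) (mul μ (N q.2) (W p.2)) := by
      apply Finset.sum_congr rfl
      intro p hp
      have hp' : p.1 + p.2 = m := by simpa using hp
      rw [hNs p.1 (by omega), map_sum, LinearMap.sum_apply]
      apply Finset.sum_congr rfl
      intro q _
      exact mul_assoc' μ addC μ μ hassoc _ _ _
    have h3 : ∑ p ∈ antidiagonal m, mul μ (N p.1) (bd (W (p.2 + 1))) =
        ∑ p ∈ antidiagonal m, ∑ q ∈ antidiagonal p.2,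
          mul μ (N p.1) (mul μ (N q.1) (W q.2)) := by
      apply Finset.sum_congr rfl
      intro p hp
      have hp' : p.1 + p.2 = m := by simpa using hp
      rw [hW p.2 (by omega), map_sum]
    rw [h2, h3, sum_triple m (fun a b c => mul μ (N a) (mul μ (N b) (W c)))]
    abel

lemma sg_NN (n : ℕ) : sg (NN n) = - NN n := by
  rw [sg_of_hom (NN_hom n), pow_succ, pow_mul]
  simp

lemma bd_NN_succ (m : ℕ) : bd (NN (m + 1)) = ∑ p ∈ antidiagonal m, mul addC (NN p.1) (NN p.2) := by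
  induction m using Nat.strong_induction_on with
  | _ m ih =>
    rw [NN_succ, bd_prism]
    have hhom : (∑ p ∈ antidiagonal m, mul addC (NN p.1) (NN p.2)) ∈
        (hom ℝ (2 * (m + 1)) : Submodule ℚ (Cu ℝ)) := by
      apply Submodule.sum_mem
      intro p hp
      have hp' : p.1 + p.2 = m := by simpa using hp
      have := mul_mem_hom addC (NN_hom p.1) (NN_hom p.2)
      have h2 : 2 * p.1 + 1 + (2 * p.2 + 1) = 2 * (m + 1) := by omega
      rwa [h2] at this
    have htot : tot (∑ p ∈ antidiagonal m, mul addC (NN p.1) (NN p.2)) = 0 := by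
      rw [map_sum]
      apply Finset.sum_eq_zero
      intro p hp
      rw [tot_mul, NN_tot, zero_mul]
    have h1 : endC coneC 1 = ContinuousMap.id ℝ := by
      ext a; simp [coneC]
    have h0 : endC coneC 0 = ContinuousMap.const ℝ 0 := by
      ext a; simp [coneC]
    have hid : ∀ x : Cu ℝ, push (ContinuousMap.id ℝ) x = x := by
      intro x
      have : (push (ContinuousMap.id ℝ) : Cu ℝ →ₗ[ℚ] Cu ℝ) = LinearMap.id := by
        apply hom_ext
        intro u
        rw [push_cb, LinearMap.id_apply]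
        rfl
      rw [this]; rfl
    rw [h1, h0, hid, push_const' hhom htot]
    have hz : bd (∑ p ∈ antidiagonal m, mul addC (NN p.1) (NN p.2)) = 0 := by
      apply bd_sum_mul (N := NN) (W := NN) (fun a b p => by simp [add_assoc])
      · rw [bd_NN_zero, mul_zz_comm]
      · exact fun n hn => ih n hn
      · exact fun n hn => ih n hn
      · exact fun n _ => sg_NN n
    rw [hz]
    simp

end

end Pool.Agent.EF97
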