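import Mathlib

/-!
# The unitary group U(4)
-/

namespace Pool.Agent.EF97

/-- the unitary group `U(4)` -/
abbrev U4 : Type := Matrix.unitaryGroup (Fin 4) ℂ

end Pool.Agent.EF97
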